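import Pool.Agent.Q93.PG.Char

/-!
# Asymptotic forms: the Paley graph conjecture and the number of bad sets
-/

namespace Pool.Agent.Q93.PG

open Finset

theorem ev_pow (c K : ℝ) (hc : 0 < c) : ∃ p₀ : ℕ, ∀ p : ℕ, p₀ ≤ p → K ≤ (p : ℝ) ^ c := by
  have h := (tendsto_rpow_atTop hc).comp tendsto_natCast_atTop_atTop
  obtain ⟨p₀, hp₀⟩ := Filter.eventually_atTop.1 (h.eventually_ge_atTop K)
  exact ⟨p₀, hp₀⟩

/-- the double sum -/
noncomputable def S {p : ℕ} (χ : DirichletCharacter ℂ p) (A B : Finset (ZMod p)) : ℂ :=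
  ∑ a ∈ A, ∑ b ∈ B, χ (a + b)

open scoped Classical in
/-- bad sets for a fixed `B` -/
noncomputable def badSets {p : ℕ} [NeZero p] (χ : DirichletCharacter ℂ p) (B : Finset (ZMod p))
    (m : ℕ) (η : ℝ) : Finset (Finset (ZMod p)) :=
  (Finset.univ.powersetCard m).filter (fun A => η * (m * B.card) ≤ ‖S χ A B‖)

open scoped Classical in
/-- bad pairs of `m`-element sets -/
noncomputable def badPairs {p : ℕ} [NeZero p] (χ : DirichletCharacter ℂ p)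
    (m : ℕ) (η : ℝ) : Finset (Finset (ZMod p) × Finset (ZMod p)) :=
  ((Finset.univ.powersetCard m) ×ˢ (Finset.univ.powersetCard m)).filter
    (fun q => η * (m * m) ≤ ‖S χ q.1 q.2‖)

theorem pow_le_rpow_of_base {P x c t : ℝ} {r : ℕ} (hP : 1 ≤ P) (hx0 : 0 ≤ x)
    (hx : x ≤ P ^ (-c)) (hc : 0 ≤ c) (hr : t ≤ r) : x ^ r ≤ P ^ (-(c * t)) := by
  calc x ^ r ≤ (P ^ (-c)) ^ r := pow_le_pow_left₀ hx0 hx r
    _ = P ^ (-c * r) := by rw [Real.rpow_mul (by linarith), Real.rpow_natCast]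
    _ ≤ P ^ (-(c * t)) := by
        apply Real.rpow_le_rpow_of_exponent_le hP
        nlinarith

theorem upper_linear (ε : ℝ) (hε : 0 < ε) : ∃ p₀ : ℕ, ∀ p : ℕ, ∀ hp : p.Prime, p₀ < p →
    haveI := Fact.mk hp
    ∀ χ : DirichletCharacter ℂ p, χ ≠ 1 → ∀ B : Finset (ZMod p), (p : ℝ) ^ ε < B.card →
    ∀ m : ℕ, 1 ≤ m → m ≤ p → ∀ δ : ℝ, 0 ≤ δ → δ ≤ ε / 6 →
      ((badSets χ B m ((p : ℝ) ^ (-δ))).card : ℝ) ≤
        (p : ℝ) ^ (-(ε / 8 * ((p : ℝ) ^ (-δ) * m))) * p.choose m := by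
  obtain ⟨p₀, hp₀⟩ := ev_pow (ε / 4) (8 * Real.exp 1) (by positivity)
  refine ⟨p₀, fun p hp hpp => ?_⟩
  have hF : Fact p.Prime := ⟨hp⟩
  intro χ hχ B hB m hm1 hmp δ hδ0 hδ
  have hP : (1 : ℝ) ≤ p := by exact_mod_cast hp.one_lt.le
  have hP0 : (0 : ℝ) < p := by linarith
  have hBpos : (0 : ℝ) < B.card := lt_trans (by positivity) hB
  set η : ℝ := (p : ℝ) ^ (-δ) with hη
  have hη0 : 0 < η := by positivity
  have hη1 : η ≤ 1 := Real.rpow_le_one_of_one_le_of_nonpos hP (by linarith)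
  have h := few_linear (fun a b : ZMod p => χ (a + b)) (fun a b => norm_chi_le χ _)
    (rowL2_add χ hχ) B (by exact_mod_cast hBpos) m hm1 (by rw [ZMod.card]; exact hmp) η hη0 hη1
  rw [ZMod.card] at h
  have hbase : 8 * Real.exp 1 / (η ^ 3 * B.card) ≤ (p : ℝ) ^ (-(ε / 4)) := by
    have h1 : η ^ 3 = (p : ℝ) ^ (-(3 * δ)) := by
      rw [hη, ← Real.rpow_natCast, ← Real.rpow_mul hP0.le]
      congr 1
      push_cast
      ring
    have h2 : (p : ℝ) ^ (ε / 2) ≤ η ^ 3 * B.card := by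
      rw [h1]
      calc (p : ℝ) ^ (ε / 2) ≤ (p : ℝ) ^ (-(3 * δ) + ε) := by
            apply Real.rpow_le_rpow_of_exponent_le hP
            linarith
        _ = (p : ℝ) ^ (-(3 * δ)) * (p : ℝ) ^ ε := Real.rpow_add hP0 _ _
        _ ≤ _ := by gcongr
    calc 8 * Real.exp 1 / (η ^ 3 * B.card) ≤ (p : ℝ) ^ (ε / 4) / (p : ℝ) ^ (ε / 2) := by
          gcongr
          exact hp₀ p hpp.le
      _ = (p : ℝ) ^ (-(ε / 4)) := by
          rw [← Real.rpow_sub hP0]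
          congr 1
          ring
  have h3 := pow_le_rpow_of_base (t := η * m / 2) (r := ⌈η * m / 2⌉₊) hP (by positivity) hbase
    (by positivity) (Nat.le_ceil _)
  have e : -(ε / 4 * (η * m / 2)) = -(ε / 8 * (η * m)) := by ring
  rw [e] at h3
  have h4 : ((badSets χ B m η).card : ℝ) ≤ p.choose m *
      (8 * Real.exp 1 / (η ^ 3 * B.card)) ^ ⌈η * m / 2⌉₊ := h
  refine h4.trans ?_
  rw [mul_comm]
  exact mul_le_mul_of_nonneg_right h3 (by positivity)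

theorem upper_pairs (ε : ℝ) (hε : 0 < ε) : ∃ p₀ : ℕ, ∀ p : ℕ, ∀ hp : p.Prime, p₀ < p →
    haveI := Fact.mk hp
    ∀ χ : DirichletCharacter ℂ p, χ ≠ 1 →
    ∀ m : ℕ, (p : ℝ) ^ ε < m → m ≤ p → ∀ δ : ℝ, 0 ≤ δ → δ ≤ ε / 36 →
      ((badPairs χ m ((p : ℝ) ^ (-δ))).card : ℝ) ≤
        (p : ℝ) ^ (-(ε / 20 * ((p : ℝ) ^ (-δ / 2) * m))) * (p.choose m : ℝ) ^ 2 := by
  obtain ⟨p₁, hp₁⟩ := ev_pow (ε / 4) (512 * Real.exp 1) (by positivity)
  obtain ⟨p₂, hp₂⟩ := ev_pow (ε / 72) (Real.exp 1) (by positivity)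
  obtain ⟨p₃, hp₃⟩ := ev_pow (ε / 2) (100 / ε) (by positivity)
  refine ⟨p₁ + p₂ + p₃ + 2, fun p hp hpp => ?_⟩
  have hF : Fact p.Prime := ⟨hp⟩
  intro χ hχ m hm hmp δ hδ0 hδ
  have hP : (1 : ℝ) ≤ p := by exact_mod_cast hp.one_lt.le
  have hP2 : (2 : ℝ) ≤ p := by exact_mod_cast hp.two_le
  have hP0 : (0 : ℝ) < p := by linarith
  have hm0 : (0 : ℝ) < m := lt_trans (by positivity) hm
  have hm1 : 1 ≤ m := by exact_mod_cast hm0
  set η : ℝ := (p : ℝ) ^ (-δ) with hη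
  have hη0 : 0 < η := by positivity
  have hη1 : η ≤ 1 := Real.rpow_le_one_of_one_le_of_nonpos hP (by linarith)
  set ρ : ℝ := (p : ℝ) ^ (-δ / 2) with hρ
  have hρ0 : 0 < ρ := by positivity
  have hρ1 : ρ ≤ 1 := Real.rpow_le_one_of_one_le_of_nonpos hP (by linarith)
  have hρη : ρ ^ 2 = η := by
    rw [hρ, hη, ← Real.rpow_natCast, ← Real.rpow_mul hP0.le]
    congr 1
    push_cast
    ring
  have hηρ : η ≤ ρ := by rw [← hρη]; nlinarith
  have hρm : (p : ℝ) ^ (ε / 2) ≤ ρ * m := by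
    calc (p : ℝ) ^ (ε / 2) ≤ (p : ℝ) ^ (-δ / 2 + ε) := by
          apply Real.rpow_le_rpow_of_exponent_le hP
          linarith
      _ = ρ * (p : ℝ) ^ ε := Real.rpow_add hP0 _ _
      _ ≤ _ := by gcongr
  have hρm1 : 1 ≤ ρ * m := le_trans (Real.one_le_rpow hP (by positivity)) hρm
  set s := ⌈ρ * m⌉₊ with hs
  have hsge : ρ * m ≤ s := Nat.le_ceil _
  have hslt : (s : ℝ) < ρ * m + 1 := Nat.ceil_lt_add_one (by positivity)
  have hs2 : (s : ℝ) ≤ 2 * (ρ * m) := by linarith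
  have hs1 : 1 ≤ s := Nat.ceil_pos.2 (by positivity)
  have hs0 : (0 : ℝ) < s := by exact_mod_cast hs1
  have hsm : s ≤ m := by
    apply Nat.ceil_le.2
    nlinarith
  have h := few_pairs (fun a b : ZMod p => χ (a + b)) (fun a b => norm_chi_le χ _)
    (rowL2_add χ hχ) (rowL2_add' χ hχ) m hm1 (by rw [ZMod.card]; exact hmp) η hη0 hη1 s hs1 hsm
    (by
      calc (s : ℝ) ^ 2 ≤ (2 * (ρ * m)) ^ 2 := pow_le_pow_left₀ hs0.le hs2 2
        _ = 4 * η * m ^ 2 := by rw [← hρη]; ring)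
    (by nlinarith)
  rw [ZMod.card] at h
  have hη2 : η ^ 2 = (p : ℝ) ^ (-(2 * δ)) := by
    rw [hη, ← Real.rpow_natCast, ← Real.rpow_mul hP0.le]
    congr 1
    push_cast
    ring
  have h512 := hp₁ p (by omega)
  have hexp := hp₂ p (by omega)
  -- first term
  have hb1 : 16 * Real.exp 1 / (η ^ 2 * s) ≤ (p : ℝ) ^ (-(ε / 2)) := by
    have h2 : (p : ℝ) ^ (3 * ε / 4) ≤ η ^ 2 * s := by
      rw [hη2]
      calc (p : ℝ) ^ (3 * ε / 4) ≤ (p : ℝ) ^ (-(2 * δ) + (-δ / 2 + ε)) := by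
            apply Real.rpow_le_rpow_of_exponent_le hP
            linarith
        _ = (p : ℝ) ^ (-(2 * δ)) * (ρ * (p : ℝ) ^ ε) := by
            rw [Real.rpow_add hP0, Real.rpow_add hP0]
        _ ≤ (p : ℝ) ^ (-(2 * δ)) * (ρ * m) := by gcongr
        _ ≤ _ := by gcongr
    have h16 : 16 * Real.exp 1 ≤ (p : ℝ) ^ (ε / 4) := by
      have := Real.exp_pos 1
      linarith
    calc 16 * Real.exp 1 / (η ^ 2 * s) ≤ (p : ℝ) ^ (ε / 4) / (p : ℝ) ^ (3 * ε / 4) := by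
          gcongr
      _ = (p : ℝ) ^ (-(ε / 2)) := by
          rw [← Real.rpow_sub hP0]
          congr 1
          ring
  have ht1 := pow_le_rpow_of_base (t := ρ * m) (r := s) hP (by positivity) hb1
    (by positivity) hsge
  -- second term
  have hb2 : Real.exp 1 * m / s ≤ (p : ℝ) ^ (ε / 36) := by
    calc Real.exp 1 * m / s ≤ Real.exp 1 * m / (ρ * m) := by gcongr
      _ = Real.exp 1 / ρ := by field_simp
      _ ≤ (p : ℝ) ^ (ε / 72) / ρ := by gcongr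
      _ = (p : ℝ) ^ (ε / 72 + δ / 2) := by
          rw [hρ, ← Real.rpow_sub hP0]
          congr 1
          ring
      _ ≤ _ := by
          apply Real.rpow_le_rpow_of_exponent_le hP
          linarith
  have ht2 : (Real.exp 1 * m / s) ^ s ≤ (p : ℝ) ^ (ε / 18 * (ρ * m)) := by
    calc (Real.exp 1 * m / s) ^ s ≤ ((p : ℝ) ^ (ε / 36)) ^ s :=
          pow_le_pow_left₀ (by positivity) hb2 s
      _ = (p : ℝ) ^ (ε / 36 * s) := by rw [Real.rpow_mul hP0.le, Real.rpow_natCast]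
      _ ≤ _ := by
          apply Real.rpow_le_rpow_of_exponent_le hP
          nlinarith
  have hb3 : 512 * Real.exp 1 / (η ^ 2 * m) ≤ (p : ℝ) ^ (-(ε / 2)) := by
    have h2 : (p : ℝ) ^ (3 * ε / 4) ≤ η ^ 2 * m := by
      rw [hη2]
      calc (p : ℝ) ^ (3 * ε / 4) ≤ (p : ℝ) ^ (-(2 * δ) + ε) := by
            apply Real.rpow_le_rpow_of_exponent_le hP
            linarith
        _ = (p : ℝ) ^ (-(2 * δ)) * (p : ℝ) ^ ε := by
            rw [Real.rpow_add hP0]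
        _ ≤ _ := by gcongr
    calc 512 * Real.exp 1 / (η ^ 2 * m) ≤ (p : ℝ) ^ (ε / 4) / (p : ℝ) ^ (3 * ε / 4) := by
          gcongr
      _ = (p : ℝ) ^ (-(ε / 2)) := by
          rw [← Real.rpow_sub hP0]
          congr 1
          ring
  have hs'ge : ρ * m / 4 ≤ (⌈η * m ^ 2 / (2 * s)⌉₊ : ℝ) := by
    refine le_trans ?_ (Nat.le_ceil _)
    rw [le_div_iff₀ (by positivity)]
    calc ρ * m / 4 * (2 * s) ≤ ρ * m / 4 * (2 * (2 * (ρ * m))) := by gcongr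
      _ = η * m ^ 2 := by rw [← hρη]; ring
  have ht3 := pow_le_rpow_of_base (t := ρ * m / 4) hP (by positivity) hb3
    (by positivity) hs'ge
  have hsum : (16 * Real.exp 1 / (η ^ 2 * s)) ^ s +
          (Real.exp 1 * m / s) ^ s *
            (512 * Real.exp 1 / (η ^ 2 * m)) ^ ⌈η * m ^ 2 / (2 * s)⌉₊ ≤
      (p : ℝ) ^ (-(ε / 20 * (ρ * m))) := by
    have g1 : (16 * Real.exp 1 / (η ^ 2 * s)) ^ s ≤ (p : ℝ) ^ (-(5 * ε / 72 * (ρ * m))) := by
      refine ht1.trans ?_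
      apply Real.rpow_le_rpow_of_exponent_le hP
      nlinarith [mul_pos hε (mul_pos hρ0 hm0)]
    have g2 : (Real.exp 1 * m / s) ^ s *
            (512 * Real.exp 1 / (η ^ 2 * m)) ^ ⌈η * m ^ 2 / (2 * s)⌉₊ ≤
        (p : ℝ) ^ (-(5 * ε / 72 * (ρ * m))) := by
      calc _ ≤ (p : ℝ) ^ (ε / 18 * (ρ * m)) * (p : ℝ) ^ (-(ε / 2 * (ρ * m / 4))) :=
            mul_le_mul ht2 ht3 (by positivity) (by positivity)
        _ = (p : ℝ) ^ (-(5 * ε / 72 * (ρ * m))) := by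
            rw [← Real.rpow_add hP0]
            congr 1
            ring
    have g3 : (2 : ℝ) ≤ (p : ℝ) ^ (7 * ε / 360 * (ρ * m)) := by
      have h100 := hp₃ p (by omega)
      have h5 : 1 ≤ 7 * ε / 360 * (ρ * m) := by
        have h6 : 100 / ε ≤ ρ * m := h100.trans hρm
        have h7 : 100 ≤ ε * (ρ * m) := by
          rw [div_le_iff₀ hε] at h6
          linarith
        linarith
      calc (2 : ℝ) ≤ p := hP2
        _ = (p : ℝ) ^ (1 : ℝ) := (Real.rpow_one _).symm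
        _ ≤ _ := Real.rpow_le_rpow_of_exponent_le hP h5
    calc _ ≤ (p : ℝ) ^ (-(5 * ε / 72 * (ρ * m))) + (p : ℝ) ^ (-(5 * ε / 72 * (ρ * m))) :=
          add_le_add g1 g2
      _ = 2 * (p : ℝ) ^ (-(5 * ε / 72 * (ρ * m))) := by ring
      _ ≤ (p : ℝ) ^ (7 * ε / 360 * (ρ * m)) * (p : ℝ) ^ (-(5 * ε / 72 * (ρ * m))) :=
          mul_le_mul_of_nonneg_right g3 (by positivity)
      _ = _ := by
          rw [← Real.rpow_add hP0]
          congr 1
          ring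
  have h4 : ((badPairs χ m η).card : ℝ) ≤ (p.choose m : ℝ) ^ 2 *
      ((16 * Real.exp 1 / (η ^ 2 * s)) ^ s +
          (Real.exp 1 * m / s) ^ s *
            (512 * Real.exp 1 / (η ^ 2 * m)) ^ ⌈η * m ^ 2 / (2 * s)⌉₊) := h
  refine h4.trans ?_
  rw [mul_comm]
  exact mul_le_mul_of_nonneg_right hsum (by positivity)

end Pool.Agent.Q93.PG
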