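import Pool.Agent.Q93.PG.Low

/-!
# One bad pair gives many bad pairs
-/

namespace Pool.Agent.Q93.PG

open Finset

variable {X : Type*} [Fintype X] [DecidableEq X]

/-- the bilinear form -/
noncomputable def T (K : X → X → ℂ) (A B : Finset X) : ℂ := ∑ a ∈ A, ∑ b ∈ B, K a b

theorem exists_unimod (z : ℂ) : ∃ u : ℂ, ‖u‖ = 1 ∧ u * z = ‖z‖ := by
  by_cases h0 : z = 0
  · exact ⟨1, by simp, by simp [h0]⟩
  · refine ⟨(starRingEnd ℂ z) / ‖z‖, ?_, ?_⟩
    · rw [norm_div, RCLike.norm_conj]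
      simp [h0]
    · have hz0 : (‖z‖ : ℂ) ≠ 0 := by simpa using h0
      rw [div_mul_eq_mul_div, mul_comm, Complex.mul_conj, Complex.normSq_eq_norm_sq]
      push_cast
      field_simp

theorem T_union_left (K : X → X → ℂ) {A A' : Finset X} (h : Disjoint A A') (B : Finset X) :
    T K (A ∪ A') B = T K A B + T K A' B := by
  unfold T
  rw [Finset.sum_union h]

theorem T_union_right (K : X → X → ℂ) (A : Finset X) {B B' : Finset X} (h : Disjoint B B') :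
    T K A (B ∪ B') = T K A B + T K A B' := by
  unfold T
  rw [← Finset.sum_add_distrib]
  refine Finset.sum_congr rfl fun a _ => ?_
  rw [Finset.sum_union h]

theorem T_swap (K : X → X → ℂ) (A B : Finset X) : T K A B = T (fun x y => K y x) B A := by
  unfold T
  rw [Finset.sum_comm]

theorem exists_sub_pair (K : X → X → ℂ) (A B : Finset X) (k l : ℕ) (hk : k ≤ A.card)
    (hl : l ≤ B.card) : ∃ A₁ ⊆ A, ∃ B₁ ⊆ B, A₁.card = k ∧ B₁.card = l ∧
      ((k : ℝ) * l) * ‖T K A B‖ ≤ ((A.card : ℝ) * B.card) * ‖T K A₁ B₁‖ := by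
  obtain ⟨B₁, hB, hcB, h1⟩ := exists_subset_norm (fun y => ∑ a ∈ A, K a y) B l hl
  obtain ⟨A₁, hA, hcA, h2⟩ := exists_subset_norm (fun x => ∑ b ∈ B₁, K x b) A k hk
  refine ⟨A₁, hA, B₁, hB, hcA, hcB, ?_⟩
  have e1 : ∀ C : Finset X, ∑ x ∈ C, ∑ a ∈ A, K a x = T K A C := fun C => by
    unfold T; rw [Finset.sum_comm]
  rw [e1, e1] at h1
  have h2' : (k : ℝ) * ‖T K A B₁‖ ≤ A.card * ‖T K A₁ B₁‖ := h2
  calc ((k : ℝ) * l) * ‖T K A B‖ = k * (l * ‖T K A B‖) := by ring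
    _ ≤ k * (B.card * ‖T K A B₁‖) := mul_le_mul_of_nonneg_left h1 (by positivity)
    _ = B.card * (k * ‖T K A B₁‖) := by ring
    _ ≤ B.card * (A.card * ‖T K A₁ B₁‖) := mul_le_mul_of_nonneg_left h2' (by positivity)
    _ = _ := by ring

open scoped Classical in
/-- **Bilinear version.** -/
theorem many_bilinear (K : X → X → ℂ) (hr : ∀ y, ∑ x, K x y = 0) (hc : ∀ x, ∑ y, K x y = 0)
    (A B : Finset X) (k l : ℕ) (hk : k ≤ A.card) (hl : l ≤ B.card)
    (hNA : A.card + k ≤ Fintype.card X) (hNB : B.card + l ≤ Fintype.card X) (η : ℝ)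
    (hη : η * (4 * (A.card * B.card)) ≤ (k * l) * ‖T K A B‖) (hA : 0 < A.card)
    (hB : 0 < B.card) :
    (Fintype.card X).choose A.card * (Fintype.card X).choose B.card ≤
      4 * (Fintype.card X) ^ (2 * (k + l)) *
      (((Finset.univ.powersetCard A.card) ×ˢ (Finset.univ.powersetCard B.card)).filter
        (fun p : Finset X × Finset X => η ≤ ‖T K p.1 p.2‖)).card := by
  set m := A.card with hm
  set n := B.card with hn
  obtain ⟨A₁, hsA, B₁, hsB, hcA₁, hcB₁, h1⟩ := exists_sub_pair K A B k l hk hl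
  obtain ⟨u, hu, huz⟩ := exists_unimod (T K A₁ B₁)
  obtain ⟨A₀, -, hcA₀, hA₀⟩ := exists_subset_nonpos
    (fun x => (u * ∑ b ∈ B₁, K x b).re) Finset.univ
    (by
      rw [← Complex.re_sum, ← Finset.mul_sum, Finset.sum_comm]
      simp [hr]) k (by rw [Finset.card_univ]; omega)
  obtain ⟨B₀, -, hcB₀, hB₀⟩ := exists_subset_nonpos
    (fun y => (u * (∑ a ∈ A₁, K a y - ∑ a ∈ A₀, K a y)).re) Finset.univ
    (by
      rw [← Complex.re_sum, ← Finset.mul_sum, Finset.sum_sub_distrib, Finset.sum_comm,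
        Finset.sum_comm (s := Finset.univ) (t := A₀)]
      simp [hc]) l (by rw [Finset.card_univ]; omega)
  set D := T K A₁ B₁ - T K A₀ B₁ - T K A₁ B₀ + T K A₀ B₀ with hD
  have hA₀' : (u * T K A₀ B₁).re ≤ 0 := by
    have : (u * T K A₀ B₁).re = ∑ x ∈ A₀, (u * ∑ b ∈ B₁, K x b).re := by
      unfold T
      rw [Finset.mul_sum, Complex.re_sum]
    rw [this]
    exact hA₀
  have hB₀' : (u * (T K A₁ B₀ - T K A₀ B₀)).re ≤ 0 := by
    have : (u * (T K A₁ B₀ - T K A₀ B₀)).re =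
        ∑ y ∈ B₀, (u * (∑ a ∈ A₁, K a y - ∑ a ∈ A₀, K a y)).re := by
      rw [← Complex.re_sum, ← Finset.mul_sum, Finset.sum_sub_distrib]
      congr 3
      · unfold T; rw [Finset.sum_comm]
      · unfold T; rw [Finset.sum_comm]
    rw [this]
    exact hB₀
  have hdiff : ‖T K A₁ B₁‖ ≤ ‖D‖ := by
    calc ‖T K A₁ B₁‖ = (u * T K A₁ B₁).re := by rw [huz]; simp
      _ ≤ (u * T K A₁ B₁).re - (u * T K A₀ B₁).re - (u * (T K A₁ B₀ - T K A₀ B₀)).re := by
          linarith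
      _ = (u * D).re := by
          rw [hD, ← Complex.sub_re, ← Complex.sub_re]
          congr 1
          ring
      _ ≤ ‖u * D‖ := Complex.re_le_norm _
      _ = ‖D‖ := by rw [norm_mul, hu, one_mul]
  have hmn : (0 : ℝ) < (m : ℝ) * n := by
    have h1 : (0 : ℝ) < m := by exact_mod_cast hA
    have h2 : (0 : ℝ) < n := by exact_mod_cast hB
    positivity
  have h4η : 4 * η ≤ ‖D‖ := by
    have : ((m : ℝ) * n) * (4 * η) ≤ ((m : ℝ) * n) * ‖T K A₁ B₁‖ := by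
      calc ((m : ℝ) * n) * (4 * η) = η * (4 * (m * n)) := by ring
        _ ≤ (k * l) * ‖T K A B‖ := hη
        _ ≤ _ := h1
    exact (le_of_mul_le_mul_left this hmn).trans hdiff
  set G := (((Finset.univ.powersetCard m) ×ˢ (Finset.univ.powersetCard n)).filter
        (fun p : Finset X × Finset X => η ≤ ‖T K p.1 p.2‖)) with hG
  set R := Rest A₁ A₀ (m - k) ×ˢ Rest B₁ B₀ (n - l) with hR
  have hcover : ∀ p ∈ R, (A₁ ∪ p.1, B₁ ∪ p.2) ∈ G ∨ (A₀ ∪ p.1, B₁ ∪ p.2) ∈ G ∨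
      (A₁ ∪ p.1, B₀ ∪ p.2) ∈ G ∨ (A₀ ∪ p.1, B₀ ∪ p.2) ∈ G := by
    intro p hp
    rw [hR, Finset.mem_product] at hp
    obtain ⟨ca1, da1⟩ := Rest_card_union Finset.subset_union_left hcA₁ hk hp.1
    obtain ⟨ca0, da0⟩ := Rest_card_union Finset.subset_union_right hcA₀ hk hp.1
    obtain ⟨cb1, db1⟩ := Rest_card_union Finset.subset_union_left hcB₁ hl hp.2
    obtain ⟨cb0, db0⟩ := Rest_card_union Finset.subset_union_right hcB₀ hl hp.2
    have key : ∀ E F : Finset X, E.card = m → F.card = n → (E, F) ∉ G → ‖T K E F‖ < η := by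
      intro E F hE hF hnot
      by_contra hge
      push Not at hge
      exact hnot (Finset.mem_filter.2 ⟨Finset.mem_product.2
        ⟨Finset.mem_powersetCard.2 ⟨Finset.subset_univ _, hE⟩,
          Finset.mem_powersetCard.2 ⟨Finset.subset_univ _, hF⟩⟩, hge⟩)
    by_contra hcon
    push Not at hcon
    obtain ⟨n1, n2, n3, n4⟩ := hcon
    have k1 := key _ _ ca1 cb1 n1
    have k2 := key _ _ ca0 cb1 n2
    have k3 := key _ _ ca1 cb0 n3
    have k4 := key _ _ ca0 cb0 n4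
    have hid : D = T K (A₁ ∪ p.1) (B₁ ∪ p.2) - T K (A₀ ∪ p.1) (B₁ ∪ p.2) -
        T K (A₁ ∪ p.1) (B₀ ∪ p.2) + T K (A₀ ∪ p.1) (B₀ ∪ p.2) := by
      rw [T_union_left K da1, T_union_left K da0, T_union_left K da1, T_union_left K da0,
        T_union_right K A₁ db1, T_union_right K A₀ db1, T_union_right K p.1 db1,
        T_union_right K A₁ db0, T_union_right K A₀ db0, T_union_right K p.1 db0, hD]
      ring
    have : ‖D‖ < 4 * η := by
      rw [hid]
      calc _ ≤ ‖T K (A₁ ∪ p.1) (B₁ ∪ p.2) - T K (A₀ ∪ p.1) (B₁ ∪ p.2) -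
            T K (A₁ ∪ p.1) (B₀ ∪ p.2)‖ + ‖T K (A₀ ∪ p.1) (B₀ ∪ p.2)‖ := norm_add_le _ _
        _ ≤ (‖T K (A₁ ∪ p.1) (B₁ ∪ p.2) - T K (A₀ ∪ p.1) (B₁ ∪ p.2)‖ +
            ‖T K (A₁ ∪ p.1) (B₀ ∪ p.2)‖) + ‖T K (A₀ ∪ p.1) (B₀ ∪ p.2)‖ := by
            gcongr; exact norm_sub_le _ _
        _ ≤ ((‖T K (A₁ ∪ p.1) (B₁ ∪ p.2)‖ + ‖T K (A₀ ∪ p.1) (B₁ ∪ p.2)‖) +
            ‖T K (A₁ ∪ p.1) (B₀ ∪ p.2)‖) + ‖T K (A₀ ∪ p.1) (B₀ ∪ p.2)‖ := by
            gcongr; exact norm_sub_le _ _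
        _ < 4 * η := by linarith
    linarith
  have hone : ∀ E F : Finset X, E ⊆ A₁ ∪ A₀ → F ⊆ B₁ ∪ B₀ →
      (R.filter (fun p => (E ∪ p.1, F ∪ p.2) ∈ G)).card ≤ G.card := by
    intro E F hE hF
    apply Finset.card_le_card_of_injOn (fun p => (E ∪ p.1, F ∪ p.2))
    · intro p hp
      exact (Finset.mem_filter.1 hp).2
    · intro p hp q hq hpq
      have hp' := Finset.mem_product.1 (Finset.mem_filter.1 hp).1
      have hq' := Finset.mem_product.1 (Finset.mem_filter.1 hq).1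
      have e := Prod.mk.inj hpq
      exact Prod.ext (Rest_inj hE hp'.1 hq'.1 e.1) (Rest_inj hF hp'.2 hq'.2 e.2)
  have hcount : R.card ≤ 4 * G.card := by
    have hsub : R ⊆ R.filter (fun p => (A₁ ∪ p.1, B₁ ∪ p.2) ∈ G) ∪
        (R.filter (fun p => (A₀ ∪ p.1, B₁ ∪ p.2) ∈ G) ∪
        (R.filter (fun p => (A₁ ∪ p.1, B₀ ∪ p.2) ∈ G) ∪
        R.filter (fun p => (A₀ ∪ p.1, B₀ ∪ p.2) ∈ G))) := by
      intro p hp
      rw [Finset.mem_union, Finset.mem_union, Finset.mem_union]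
      rcases hcover p hp with h | h | h | h
      · exact Or.inl (Finset.mem_filter.2 ⟨hp, h⟩)
      · exact Or.inr (Or.inl (Finset.mem_filter.2 ⟨hp, h⟩))
      · exact Or.inr (Or.inr (Or.inl (Finset.mem_filter.2 ⟨hp, h⟩)))
      · exact Or.inr (Or.inr (Or.inr (Finset.mem_filter.2 ⟨hp, h⟩)))
    have c1 := Finset.card_le_card hsub
    have c2 := Finset.card_union_le (R.filter (fun p => (A₁ ∪ p.1, B₁ ∪ p.2) ∈ G))
        (R.filter (fun p => (A₀ ∪ p.1, B₁ ∪ p.2) ∈ G) ∪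
        (R.filter (fun p => (A₁ ∪ p.1, B₀ ∪ p.2) ∈ G) ∪
        R.filter (fun p => (A₀ ∪ p.1, B₀ ∪ p.2) ∈ G)))
    have c3 := Finset.card_union_le (R.filter (fun p => (A₀ ∪ p.1, B₁ ∪ p.2) ∈ G))
        (R.filter (fun p => (A₁ ∪ p.1, B₀ ∪ p.2) ∈ G) ∪
        R.filter (fun p => (A₀ ∪ p.1, B₀ ∪ p.2) ∈ G))
    have c4 := Finset.card_union_le (R.filter (fun p => (A₁ ∪ p.1, B₀ ∪ p.2) ∈ G))
        (R.filter (fun p => (A₀ ∪ p.1, B₀ ∪ p.2) ∈ G))
    have d1 := hone A₁ B₁ Finset.subset_union_left Finset.subset_union_left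
    have d2 := hone A₀ B₁ Finset.subset_union_right Finset.subset_union_left
    have d3 := hone A₁ B₀ Finset.subset_union_left Finset.subset_union_right
    have d4 := hone A₀ B₀ Finset.subset_union_right Finset.subset_union_right
    omega
  have hRA := card_Rest A₁ A₀ m k hcA₁ hcA₀ hk hNA
  have hRB := card_Rest B₁ B₀ n l hcB₁ hcB₀ hl hNB
  calc (Fintype.card X).choose m * (Fintype.card X).choose n
      ≤ ((Fintype.card X) ^ (2 * k) * (Rest A₁ A₀ (m - k)).card) *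
        ((Fintype.card X) ^ (2 * l) * (Rest B₁ B₀ (n - l)).card) := Nat.mul_le_mul hRA hRB
    _ = (Fintype.card X) ^ (2 * (k + l)) * R.card := by
        rw [hR, Finset.card_product, mul_add, pow_add]; ring
    _ ≤ (Fintype.card X) ^ (2 * (k + l)) * (4 * G.card) := Nat.mul_le_mul_left _ hcount
    _ = 4 * (Fintype.card X) ^ (2 * (k + l)) * G.card := by ring

end Pool.Agent.Q93.PG
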