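import Pool.Agent.Q93.PG.UpB

/-!
# The kernels `χ(a + b)` and `χ(a - b)`
-/

namespace Pool.Agent.Q93.PG

open Finset

variable {p : ℕ} [Fact p.Prime]

theorem corr (χ : DirichletCharacter ℂ p) (hχ : χ ≠ 1) (d : ZMod p) (hd : d ≠ 0) :
    ∑ y, χ (y + d) * χ⁻¹ y = -1 := by
  have h := jacobiSum_nontrivial_inv (χ := χ⁻¹) (inv_ne_one.2 hχ)
  unfold jacobiSum at h
  have hd' : -d⁻¹ ≠ 0 := neg_ne_zero.2 (inv_ne_zero hd)
  rw [← Equiv.sum_comp (Equiv.mulRight₀ (-d⁻¹) hd')] at h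
  have e : ∀ y : ZMod p, χ⁻¹ ((Equiv.mulRight₀ (-d⁻¹) hd') y) *
      (χ⁻¹)⁻¹ (1 - (Equiv.mulRight₀ (-d⁻¹) hd') y) = χ⁻¹ (-1) * (χ (y + d) * χ⁻¹ y) := by
    intro y
    have e0 : (Equiv.mulRight₀ (-d⁻¹) hd') y = y * -d⁻¹ := rfl
    rw [inv_inv, e0]
    have e1 : y * -d⁻¹ = (-1) * (y * d⁻¹) := by ring
    have e2 : 1 - y * -d⁻¹ = (y + d) * d⁻¹ := by field_simp; ring
    have e3 : χ⁻¹ d⁻¹ * χ d⁻¹ = 1 := by
      rw [MulChar.inv_apply', inv_inv, ← map_mul, mul_inv_cancel₀ hd, map_one]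
    rw [e2, e1, map_mul, map_mul, map_mul]
    calc χ⁻¹ (-1) * (χ⁻¹ y * χ⁻¹ d⁻¹) * (χ (y + d) * χ d⁻¹) =
        χ⁻¹ (-1) * (χ (y + d) * χ⁻¹ y) * (χ⁻¹ d⁻¹ * χ d⁻¹) := by ring
      _ = _ := by rw [e3, mul_one]
  simp only [e] at h
  rw [← Finset.mul_sum] at h
  have h1 : χ⁻¹ (-1) * χ⁻¹ (-1) = 1 := by
    rw [← map_mul]
    simp
  calc ∑ y, χ (y + d) * χ⁻¹ y = (χ⁻¹ (-1) * χ⁻¹ (-1)) * ∑ y, χ (y + d) * χ⁻¹ y := by
        rw [h1, one_mul]
    _ = χ⁻¹ (-1) * (χ⁻¹ (-1) * ∑ y, χ (y + d) * χ⁻¹ y) := by ring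
    _ = χ⁻¹ (-1) * -χ⁻¹ (-1) := by rw [h]
    _ = -1 := by rw [mul_neg, h1]

theorem corr' (χ : DirichletCharacter ℂ p) (hχ : χ ≠ 1) (b c : ZMod p) (hbc : b ≠ c) :
    ∑ x, χ (x + b) * (starRingEnd ℂ) (χ (x + c)) = -1 := by
  have h := corr χ hχ (b - c) (sub_ne_zero.2 hbc)
  rw [← h, ← Equiv.sum_comp (Equiv.addRight c) (fun y => χ (y + (b - c)) * χ⁻¹ y)]
  refine Finset.sum_congr rfl fun x _ => ?_
  have e0 : (Equiv.addRight c) x = x + c := rfl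
  have e1 : x + c + (b - c) = x + b := by ring
  rw [e0, e1, starRingEnd_apply, MulChar.star_apply']

theorem norm_chi_le (χ : DirichletCharacter ℂ p) (a : ZMod p) : ‖χ a‖ ≤ 1 :=
  DirichletCharacter.norm_le_one χ a

theorem rowL2_add (χ : DirichletCharacter ℂ p) (hχ : χ ≠ 1) :
    RowL2 (fun a b : ZMod p => χ (a + b)) := by
  intro B
  have h : ((∑ x, ‖∑ b ∈ B, χ (x + b)‖ ^ 2 : ℝ) : ℂ) =
      ∑ b ∈ B, ∑ c ∈ B, ∑ x, χ (x + b) * (starRingEnd ℂ) (χ (x + c)) := by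
    push_cast
    have e : ∀ x : ZMod p, ((‖∑ b ∈ B, χ (x + b)‖ : ℂ)) ^ 2 =
        ∑ b ∈ B, ∑ c ∈ B, χ (x + b) * (starRingEnd ℂ) (χ (x + c)) := by
      intro x
      rw [← Finset.sum_mul_sum, ← map_sum (starRingEnd ℂ), Complex.mul_conj,
        Complex.normSq_eq_norm_sq]
      push_cast
      rfl
    simp only [e]
    rw [Finset.sum_comm]
    refine Finset.sum_congr rfl fun b _ => ?_
    rw [Finset.sum_comm]
  have h2 : ∀ b ∈ B, ∀ c ∈ B, (∑ x, χ (x + b) * (starRingEnd ℂ) (χ (x + c))).re ≤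
      if b = c then (p : ℝ) else 0 := by
    intro b _ c _
    by_cases hbc : b = c
    · rw [if_pos hbc, hbc, Complex.re_sum]
      calc ∑ x, (χ (x + c) * (starRingEnd ℂ) (χ (x + c))).re ≤ ∑ _x : ZMod p, (1 : ℝ) := by
            refine Finset.sum_le_sum fun x _ => ?_
            rw [Complex.mul_conj, Complex.ofReal_re, Complex.normSq_eq_norm_sq]
            have := norm_chi_le χ (x + c)
            have h0 := norm_nonneg (χ (x + c))
            nlinarith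
        _ = p := by simp [ZMod.card]
    · rw [if_neg hbc, corr' χ hχ b c hbc]
      simp
  have h3 : ∑ x, ‖∑ b ∈ B, χ (x + b)‖ ^ 2 =
      ∑ b ∈ B, ∑ c ∈ B, (∑ x, χ (x + b) * (starRingEnd ℂ) (χ (x + c))).re := by
    have := congrArg Complex.re h
    rw [Complex.ofReal_re] at this
    rw [this, Complex.re_sum]
    refine Finset.sum_congr rfl fun b _ => ?_
    rw [Complex.re_sum]
  change ∑ x, ‖∑ b ∈ B, χ (x + b)‖ ^ 2 ≤ _
  rw [h3]
  calc ∑ b ∈ B, ∑ c ∈ B, (∑ x, χ (x + b) * (starRingEnd ℂ) (χ (x + c))).re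
      ≤ ∑ b ∈ B, ∑ c ∈ B, if b = c then (p : ℝ) else 0 :=
        Finset.sum_le_sum fun b hb => Finset.sum_le_sum fun c hc => h2 b hb c hc
    _ = (Fintype.card (ZMod p) : ℝ) * B.card := by
        rw [ZMod.card]
        have : ∀ b ∈ B, ∑ c ∈ B, (if b = c then (p : ℝ) else 0) = p := fun b hb => by
          rw [Finset.sum_ite_eq, if_pos hb]
        rw [Finset.sum_congr rfl this, Finset.sum_const, nsmul_eq_mul]
        ring

theorem rowL2_add' (χ : DirichletCharacter ℂ p) (hχ : χ ≠ 1) :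
    RowL2 (fun a b : ZMod p => χ (b + a)) := by
  have := rowL2_add χ hχ
  have e : (fun a b : ZMod p => χ (b + a)) = (fun a b : ZMod p => χ (a + b)) := by
    funext a b
    rw [add_comm]
  rw [e]
  exact this

theorem sum_add_left (χ : DirichletCharacter ℂ p) (hχ : χ ≠ 1) (b : ZMod p) :
    ∑ x, χ (x + b) = 0 := by
  rw [← MulChar.sum_eq_zero_of_ne_one hχ, ← Equiv.sum_comp (Equiv.addRight b) (fun x => χ x)]
  rfl

theorem sum_add_right (χ : DirichletCharacter ℂ p) (hχ : χ ≠ 1) (a : ZMod p) :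
    ∑ y, χ (a + y) = 0 := by
  rw [← sum_add_left χ hχ a]
  refine Finset.sum_congr rfl fun y _ => by rw [add_comm]

end Pool.Agent.Q93.PG
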