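import Mathlib

/-!
# One bad set gives many bad sets

Linear and bilinear forms with zero marginals on a finite set.
-/

namespace Pool.Agent.Q93.PG

open Finset

variable {X : Type*} [Fintype X] [DecidableEq X]

/-- removing one element keeps the norm of the sum, proportionally -/
theorem step_norm (h : X → ℂ) (A : Finset X) (hA : A.Nonempty) :
    ∃ a ∈ A, ((A.card : ℝ) - 1) * ‖∑ x ∈ A, h x‖ ≤ A.card * ‖∑ x ∈ A.erase a, h x‖ := by
  by_contra hcon
  push Not at hcon
  have h1 : ∑ a ∈ A, ∑ x ∈ A.erase a, h x = ((A.card : ℂ) - 1) * ∑ x ∈ A, h x := by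
    have e : ∀ a ∈ A, ∑ x ∈ A.erase a, h x = ∑ x ∈ A, h x - h a := fun a ha => by
      rw [← Finset.add_sum_erase A h ha]; ring
    rw [Finset.sum_congr rfl e, Finset.sum_sub_distrib, Finset.sum_const, nsmul_eq_mul]
    ring
  have hc : (1 : ℝ) ≤ A.card := by exact_mod_cast hA.card_pos
  have h2 : ((A.card : ℝ) - 1) * ‖∑ x ∈ A, h x‖ ≤ ∑ a ∈ A, ‖∑ x ∈ A.erase a, h x‖ := by
    have : ‖((A.card : ℂ) - 1) * ∑ x ∈ A, h x‖ = ((A.card : ℝ) - 1) * ‖∑ x ∈ A, h x‖ := by
      rw [norm_mul]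
      congr 1
      have e2 : ((A.card : ℂ) - 1) = (((A.card : ℝ) - 1 : ℝ) : ℂ) := by push_cast; rfl
      rw [e2, Complex.norm_real, Real.norm_of_nonneg (by linarith)]
    rw [← this, ← h1]
    exact norm_sum_le _ _
  have h3 : ∑ a ∈ A, (A.card : ℝ) * ‖∑ x ∈ A.erase a, h x‖ <
      ∑ _a ∈ A, ((A.card : ℝ) - 1) * ‖∑ x ∈ A, h x‖ :=
    Finset.sum_lt_sum_of_nonempty hA fun a ha => hcon a ha
  rw [← Finset.mul_sum, Finset.sum_const, nsmul_eq_mul] at h3
  have hc0 : (0 : ℝ) < A.card := by linarith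
  have h4 := lt_of_mul_lt_mul_left h3 hc0.le
  linarith

/-- a subset of every size with proportional norm -/
theorem exists_subset_norm (h : X → ℂ) (A : Finset X) (k : ℕ) (hk : k ≤ A.card) :
    ∃ A₁ ⊆ A, A₁.card = k ∧ (k : ℝ) * ‖∑ x ∈ A, h x‖ ≤ A.card * ‖∑ x ∈ A₁, h x‖ := by
  induction hm : A.card - k generalizing A with
  | zero =>
    have : A.card = k := by omega
    exact ⟨A, subset_rfl, this, by rw [this]⟩
  | succ n ih =>
    have hA : A.Nonempty := Finset.card_pos.1 (by omega)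
    obtain ⟨a, ha, hle⟩ := step_norm h A hA
    have hcard : (A.erase a).card = A.card - 1 := Finset.card_erase_of_mem ha
    obtain ⟨A₁, hsub, hc, hA₁⟩ := ih (A.erase a) (by omega) (by omega)
    refine ⟨A₁, hsub.trans (Finset.erase_subset _ _), hc, ?_⟩
    rcases Nat.eq_zero_or_pos k with rfl | hk0
    · simp only [Nat.cast_zero, zero_mul]
      positivity
    · have hc1 : (1 : ℝ) < A.card := by
        have : 1 < A.card := by omega
        exact_mod_cast this
      have e1 : ((A.erase a).card : ℝ) = (A.card : ℝ) - 1 := by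
        rw [hcard, Nat.cast_sub (by omega)]; simp
      rw [e1] at hA₁
      have hk' : (0 : ℝ) < k := by exact_mod_cast hk0
      -- (card-1) k ‖H A‖ ≤ card k ‖H(erase)‖ ≤ card (card-1) ‖H A₁‖
      have h5 : ((A.card : ℝ) - 1) * (k * ‖∑ x ∈ A, h x‖) ≤
          ((A.card : ℝ) - 1) * (A.card * ‖∑ x ∈ A₁, h x‖) := by
        calc ((A.card : ℝ) - 1) * (k * ‖∑ x ∈ A, h x‖) =
            k * (((A.card : ℝ) - 1) * ‖∑ x ∈ A, h x‖) := by ring
          _ ≤ k * (A.card * ‖∑ x ∈ A.erase a, h x‖) := mul_le_mul_of_nonneg_left hle hk'.le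
          _ = A.card * (k * ‖∑ x ∈ A.erase a, h x‖) := by ring
          _ ≤ A.card * (((A.card : ℝ) - 1) * ‖∑ x ∈ A₁, h x‖) :=
              mul_le_mul_of_nonneg_left hA₁ (by positivity)
          _ = _ := by ring
      exact le_of_mul_le_mul_left h5 (by linarith)

/-- a real function with nonpositive sum has subsets of every size with nonpositive sum -/
theorem exists_subset_nonpos (f : X → ℝ) (A : Finset X) (hA : ∑ x ∈ A, f x ≤ 0) (k : ℕ)
    (hk : k ≤ A.card) : ∃ A₀ ⊆ A, A₀.card = k ∧ ∑ x ∈ A₀, f x ≤ 0 := by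
  induction hm : A.card - k generalizing A with
  | zero =>
    have : A.card = k := by omega
    exact ⟨A, subset_rfl, this, hA⟩
  | succ n ih =>
    have hne : A.Nonempty := Finset.card_pos.1 (by omega)
    have : ∃ a ∈ A, ∑ x ∈ A.erase a, f x ≤ 0 := by
      by_contra hcon
      push Not at hcon
      have h1 : ∑ a ∈ A, ∑ x ∈ A.erase a, f x = ((A.card : ℝ) - 1) * ∑ x ∈ A, f x := by
        have e : ∀ a ∈ A, ∑ x ∈ A.erase a, f x = ∑ x ∈ A, f x - f a := fun a ha => by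
          rw [← Finset.add_sum_erase A f ha]; ring
        rw [Finset.sum_congr rfl e, Finset.sum_sub_distrib, Finset.sum_const, nsmul_eq_mul]
        ring
      have h2 : 0 < ∑ a ∈ A, ∑ x ∈ A.erase a, f x := Finset.sum_pos hcon hne
      have hc : (1 : ℝ) ≤ A.card := by exact_mod_cast hne.card_pos
      have h3 : ((A.card : ℝ) - 1) * ∑ x ∈ A, f x ≤ 0 :=
        mul_nonpos_of_nonneg_of_nonpos (by linarith) hA
      linarith
    obtain ⟨a, ha, hle⟩ := this
    have hcard : (A.erase a).card = A.card - 1 := Finset.card_erase_of_mem ha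
    obtain ⟨A₀, hsub, hc, h0⟩ := ih (A.erase a) hle (by omega) (by omega)
    exact ⟨A₀, hsub.trans (Finset.erase_subset _ _), hc, h0⟩

theorem choose_step (N m : ℕ) (hm : 1 ≤ m) (hN : 1 ≤ N) :
    N.choose m ≤ N * (N - 1).choose (m - 1) := by
  obtain ⟨n, rfl⟩ := Nat.exists_eq_add_of_le' hN
  obtain ⟨r, rfl⟩ := Nat.exists_eq_add_of_le' hm
  have h := Nat.add_one_mul_choose_eq n r
  rw [Nat.add_sub_cancel, Nat.add_sub_cancel, h]
  exact Nat.le_mul_of_pos_right _ (by omega)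

theorem choose_step' (N m : ℕ) (hm : m + 1 ≤ N) :
    N.choose m ≤ N * (N - 1).choose m := by
  obtain ⟨n, rfl⟩ := Nat.exists_eq_add_of_le' (show 1 ≤ N by omega)
  have h := Nat.choose_mul_succ_eq n m
  rw [Nat.add_sub_cancel, mul_comm (n + 1), h]
  exact Nat.le_mul_of_pos_right _ (by omega)

theorem choose_down (N m k : ℕ) (hk : k ≤ m) (hN : m ≤ N) :
    N.choose m ≤ N ^ k * (N - k).choose (m - k) := by
  induction k with
  | zero => simp
  | succ k ih =>
    refine (ih (by omega)).trans ?_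
    have h := choose_step (N - k) (m - k) (by omega) (by omega)
    rw [pow_succ, mul_assoc]
    refine Nat.mul_le_mul_left _ (h.trans ?_)
    have e1 : N - k - 1 = N - (k + 1) := by omega
    have e2 : m - k - 1 = m - (k + 1) := by omega
    rw [e1, e2]
    exact Nat.mul_le_mul_right _ (Nat.sub_le _ _)

theorem choose_down' (N m k : ℕ) (hN : m + k ≤ N) :
    N.choose m ≤ N ^ k * (N - k).choose m := by
  induction k with
  | zero => simp
  | succ k ih =>
    refine (ih (by omega)).trans ?_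
    have h := choose_step' (N - k) m (by omega)
    rw [pow_succ, mul_assoc]
    refine Nat.mul_le_mul_left _ (h.trans ?_)
    have e1 : N - k - 1 = N - (k + 1) := by omega
    rw [e1]
    exact Nat.mul_le_mul_right _ (Nat.sub_le _ _)

/-- the number of sets avoiding `2k` points -/
theorem choose_avoid (N m k : ℕ) (hk : k ≤ m) (hN : m + k ≤ N) :
    N.choose m ≤ N ^ (2 * k) * (N - 2 * k).choose (m - k) := by
  have h1 := choose_down N m k hk (by omega)
  have h2 := choose_down' (N - k) (m - k) k (by omega)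
  have e : N - k - k = N - 2 * k := by omega
  rw [e] at h2
  calc N.choose m ≤ N ^ k * (N - k).choose (m - k) := h1
    _ ≤ N ^ k * ((N - k) ^ k * (N - 2 * k).choose (m - k)) := Nat.mul_le_mul_left _ h2
    _ ≤ N ^ k * (N ^ k * (N - 2 * k).choose (m - k)) := by
        refine Nat.mul_le_mul_left _ (Nat.mul_le_mul_right _ (Nat.pow_le_pow_left ?_ _))
        exact Nat.sub_le _ _
    _ = N ^ (2 * k) * (N - 2 * k).choose (m - k) := by rw [two_mul, pow_add]; ring

/-- choices in the complement of the two test sets -/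
def Rest (A₁ A₀ : Finset X) (m : ℕ) : Finset (Finset X) :=
  ((A₁ ∪ A₀)ᶜ).powersetCard m

theorem card_Rest (A₁ A₀ : Finset X) (m k : ℕ) (h₁ : A₁.card = k) (h₀ : A₀.card = k)
    (hk : k ≤ m) (hN : m + k ≤ Fintype.card X) :
    (Fintype.card X).choose m ≤ (Fintype.card X) ^ (2 * k) * (Rest A₁ A₀ (m - k)).card := by
  refine (choose_avoid _ m k hk hN).trans (Nat.mul_le_mul_left _ ?_)
  unfold Rest
  rw [Finset.card_powersetCard, Finset.card_compl]
  apply Nat.choose_le_choose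
  have : (A₁ ∪ A₀).card ≤ k + k := (Finset.card_union_le _ _).trans (by rw [h₁, h₀])
  omega

theorem Rest_card_union {A₁ A₀ E A₂ : Finset X} {m k : ℕ} (hE : E ⊆ A₁ ∪ A₀) (hEk : E.card = k)
    (hk : k ≤ m) (h : A₂ ∈ Rest A₁ A₀ (m - k)) : (E ∪ A₂).card = m ∧ Disjoint E A₂ := by
  unfold Rest at h
  rw [Finset.mem_powersetCard] at h
  have hd : Disjoint E A₂ := by
    refine Finset.disjoint_left.2 fun x hx hx2 => ?_
    exact (Finset.mem_compl.1 (h.1 hx2)) (hE hx)
  refine ⟨?_, hd⟩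
  rw [Finset.card_union_of_disjoint hd, hEk, h.2]
  omega

theorem Rest_inj {A₁ A₀ E : Finset X} {m : ℕ} (hE : E ⊆ A₁ ∪ A₀) :
    Set.InjOn (fun A₂ => E ∪ A₂) (Rest A₁ A₀ m : Set (Finset X)) := by
  intro B hB C hC h
  rw [Finset.mem_coe, Rest, Finset.mem_powersetCard] at hB hC
  have hdB : Disjoint E B := Finset.disjoint_left.2 fun x hx hx2 =>
    (Finset.mem_compl.1 (hB.1 hx2)) (hE hx)
  have hdC : Disjoint E C := Finset.disjoint_left.2 fun x hx hx2 =>
    (Finset.mem_compl.1 (hC.1 hx2)) (hE hx)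
  have h' : E ∪ B = E ∪ C := h
  have e1 : (E ∪ B) \ E = B := by
    rw [Finset.union_sdiff_left]
    exact Finset.sdiff_eq_self_of_disjoint hdB.symm
  have e2 : (E ∪ C) \ E = C := by
    rw [Finset.union_sdiff_left]
    exact Finset.sdiff_eq_self_of_disjoint hdC.symm
  rw [← e1, ← e2, h']

open scoped Classical in
/-- **Linear version.** -/
theorem many_linear (h : X → ℂ) (hsum : ∑ x, h x = 0) (A : Finset X) (k : ℕ)
    (hk : k ≤ A.card) (hN : A.card + k ≤ Fintype.card X) (η : ℝ)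
    (hη : η * (2 * A.card) ≤ k * ‖∑ x ∈ A, h x‖) (hA : 0 < A.card) :
    (Fintype.card X).choose A.card ≤ 2 * (Fintype.card X) ^ (2 * k) *
      ((Finset.univ.powersetCard A.card).filter
        (fun A' : Finset X => η ≤ ‖∑ x ∈ A', h x‖)).card := by
  set m := A.card with hm
  obtain ⟨A₁, hsub, hc₁, hA₁⟩ := exists_subset_norm h A k hk
  set z := ∑ x ∈ A₁, h x with hz
  -- a unimodular multiplier
  obtain ⟨u, hu, huz⟩ : ∃ u : ℂ, ‖u‖ = 1 ∧ u * z = ‖z‖ := by
    by_cases h0 : z = 0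
    · exact ⟨1, by simp, by simp [h0]⟩
    · refine ⟨(starRingEnd ℂ z) / ‖z‖, ?_, ?_⟩
      · rw [norm_div, RCLike.norm_conj]
        simp [h0]
      · have hz0 : (‖z‖ : ℂ) ≠ 0 := by simpa using h0
        rw [div_mul_eq_mul_div, mul_comm, Complex.mul_conj, Complex.normSq_eq_norm_sq]
        push_cast
        field_simp
  obtain ⟨A₀, -, hc₀, hA₀⟩ := exists_subset_nonpos (fun x => (u * h x).re) Finset.univ
    (by rw [← Complex.re_sum, ← Finset.mul_sum, hsum]; simp) k
    (by rw [Finset.card_univ]; omega)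
  have hdiff : ‖z‖ ≤ ‖z - ∑ x ∈ A₀, h x‖ := by
    calc ‖z‖ = (u * z).re := by rw [huz]; simp
      _ ≤ (u * z).re - ∑ x ∈ A₀, (u * h x).re := by linarith
      _ = (u * (z - ∑ x ∈ A₀, h x)).re := by
          rw [mul_sub, Complex.sub_re, ← Complex.re_sum, Finset.mul_sum A₀]
      _ ≤ ‖u * (z - ∑ x ∈ A₀, h x)‖ := Complex.re_le_norm _
      _ = ‖z - ∑ x ∈ A₀, h x‖ := by rw [norm_mul, hu, one_mul]
  have hmpos : (0 : ℝ) < m := by exact_mod_cast hA
  have h2η : 2 * η ≤ ‖z‖ := by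
    have : m * (2 * η) ≤ m * ‖z‖ := by
      calc (m : ℝ) * (2 * η) = η * (2 * m) := by ring
        _ ≤ k * ‖∑ x ∈ A, h x‖ := hη
        _ ≤ m * ‖z‖ := hA₁
    exact le_of_mul_le_mul_left this hmpos
  set G := (Finset.univ.powersetCard m).filter
        (fun A' : Finset X => η ≤ ‖∑ x ∈ A', h x‖) with hG
  have hcover : ∀ A₂ ∈ Rest A₁ A₀ (m - k), A₁ ∪ A₂ ∈ G ∨ A₀ ∪ A₂ ∈ G := by
    intro A₂ h2
    obtain ⟨c1, d1⟩ := Rest_card_union Finset.subset_union_left hc₁ hk h2
    obtain ⟨c0, d0⟩ := Rest_card_union Finset.subset_union_right hc₀ hk h2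
    by_contra hcon
    push Not at hcon
    have e1 : ¬ η ≤ ‖∑ x ∈ A₁ ∪ A₂, h x‖ := fun hh => hcon.1
      (Finset.mem_filter.2 ⟨Finset.mem_powersetCard.2 ⟨Finset.subset_univ _, c1⟩, hh⟩)
    have e0 : ¬ η ≤ ‖∑ x ∈ A₀ ∪ A₂, h x‖ := fun hh => hcon.2
      (Finset.mem_filter.2 ⟨Finset.mem_powersetCard.2 ⟨Finset.subset_univ _, c0⟩, hh⟩)
    push Not at e1 e0
    rw [Finset.sum_union d1] at e1
    rw [Finset.sum_union d0] at e0
    have : ‖z - ∑ x ∈ A₀, h x‖ < 2 * η := by
      calc ‖z - ∑ x ∈ A₀, h x‖ =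
          ‖(z + ∑ x ∈ A₂, h x) - (∑ x ∈ A₀, h x + ∑ x ∈ A₂, h x)‖ := by congr 1; ring
        _ ≤ ‖z + ∑ x ∈ A₂, h x‖ + ‖∑ x ∈ A₀, h x + ∑ x ∈ A₂, h x‖ := norm_sub_le _ _
        _ < 2 * η := by linarith
    linarith
  have hcount : (Rest A₁ A₀ (m - k)).card ≤ 2 * G.card := by
    have hsub : Rest A₁ A₀ (m - k) ⊆
        (Rest A₁ A₀ (m - k)).filter (fun A₂ => A₁ ∪ A₂ ∈ G) ∪
        (Rest A₁ A₀ (m - k)).filter (fun A₂ => A₀ ∪ A₂ ∈ G) := by
      intro A₂ h2
      rw [Finset.mem_union]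
      rcases hcover A₂ h2 with h | h
      · exact Or.inl (Finset.mem_filter.2 ⟨h2, h⟩)
      · exact Or.inr (Finset.mem_filter.2 ⟨h2, h⟩)
    have h1 : ((Rest A₁ A₀ (m - k)).filter (fun A₂ => A₁ ∪ A₂ ∈ G)).card ≤ G.card := by
      apply Finset.card_le_card_of_injOn (fun A₂ => A₁ ∪ A₂)
      · intro A₂ h2
        exact (Finset.mem_filter.1 h2).2
      · exact (Rest_inj Finset.subset_union_left).mono fun x hx =>
          (Finset.mem_filter.1 hx).1
    have h0 : ((Rest A₁ A₀ (m - k)).filter (fun A₂ => A₀ ∪ A₂ ∈ G)).card ≤ G.card := by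
      apply Finset.card_le_card_of_injOn (fun A₂ => A₀ ∪ A₂)
      · intro A₂ h2
        exact (Finset.mem_filter.1 h2).2
      · exact (Rest_inj Finset.subset_union_right).mono fun x hx =>
          (Finset.mem_filter.1 hx).1
    have := (Finset.card_le_card hsub).trans (Finset.card_union_le _ _)
    omega
  calc (Fintype.card X).choose m ≤ (Fintype.card X) ^ (2 * k) * (Rest A₁ A₀ (m - k)).card :=
        card_Rest A₁ A₀ m k hc₁ hc₀ hk hN
    _ ≤ (Fintype.card X) ^ (2 * k) * (2 * G.card) := Nat.mul_le_mul_left _ hcount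
    _ = 2 * (Fintype.card X) ^ (2 * k) * G.card := by ring

end Pool.Agent.Q93.PG
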