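import Pool.Agent.Q93.PG.Bil

/-!
# Symmetric sums: one bad set gives many bad sets
-/

namespace Pool.Agent.Q93.PG

open Finset

variable {X : Type*} [Fintype X] [DecidableEq X]

omit [Fintype X] in
/-- greedy cut -/
theorem exists_cut (f : X → X → ℝ) (hd : ∀ x, f x x = 0) (hs : ∀ x y, f x y = f y x)
    (A : Finset X) : ∃ C D : Finset X, Disjoint C D ∧ C ∪ D = A ∧
      ∑ x ∈ A, ∑ y ∈ A, f x y ≤ 4 * ∑ x ∈ C, ∑ y ∈ D, f x y := by
  induction A using Finset.induction_on with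
  | empty => exact ⟨∅, ∅, disjoint_bot_left, by simp, by simp⟩
  | insert a A ha ih =>
    obtain ⟨C, D, hCD, hU, h⟩ := ih
    have haC : a ∉ C := fun h' => ha (hU ▸ Finset.mem_union_left _ h')
    have haD : a ∉ D := fun h' => ha (hU ▸ Finset.mem_union_right _ h')
    have hsum : ∑ x ∈ insert a A, ∑ y ∈ insert a A, f x y =
        ∑ x ∈ A, ∑ y ∈ A, f x y + 2 * ∑ y ∈ A, f a y := by
      have e : ∀ x ∈ insert a A, ∑ y ∈ insert a A, f x y = f x a + ∑ y ∈ A, f x y :=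
        fun x _ => Finset.sum_insert ha
      rw [Finset.sum_congr rfl e, Finset.sum_insert ha, hd, Finset.sum_add_distrib]
      have : ∑ x ∈ A, f x a = ∑ y ∈ A, f a y := Finset.sum_congr rfl fun x _ => hs x a
      rw [this]
      ring
    have hA : ∑ y ∈ A, f a y = ∑ y ∈ C, f a y + ∑ y ∈ D, f a y := by
      rw [← hU, Finset.sum_union hCD]
    by_cases hle : ∑ y ∈ C, f a y ≤ ∑ y ∈ D, f a y
    · refine ⟨insert a C, D, ?_, ?_, ?_⟩
      · rw [Finset.disjoint_insert_left]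
        exact ⟨haD, hCD⟩
      · rw [Finset.insert_union, hU]
      · rw [hsum, Finset.sum_insert haC, hA]
        linarith
    · push Not at hle
      refine ⟨C, insert a D, ?_, ?_, ?_⟩
      · rw [Finset.disjoint_insert_right]
        exact ⟨haC, hCD⟩
      · rw [Finset.union_insert, hU]
      · have : ∑ x ∈ C, ∑ y ∈ insert a D, f x y =
            ∑ x ∈ C, f a x + ∑ x ∈ C, ∑ y ∈ D, f x y := by
          rw [← Finset.sum_add_distrib]
          refine Finset.sum_congr rfl fun x _ => ?_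
          rw [Finset.sum_insert haD, hs x a]
        rw [this, hsum, hA]
        linarith

/-- a set of given size, outside a small set, with almost nonpositive sum -/
theorem exists_subset_slack (f : X → ℝ) (hsum : ∑ x, f x = 0) (E : Finset X) (M : ℝ)
    (hM0 : 0 ≤ M) (hM : ∀ x, |f x| ≤ M) (k e : ℕ) (hE : E.card ≤ e)
    (hN : k + e ≤ Fintype.card X) :
    ∃ D : Finset X, Disjoint E D ∧ D.card = k ∧
      (∑ x ∈ D, f x) * ((Fintype.card X : ℝ) - e) ≤ k * (e * M) := by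
  set N := Fintype.card X with hNdef
  have hc : (Eᶜ.card : ℝ) = (N : ℝ) - E.card := by
    rw [Finset.card_compl, Nat.cast_sub (by omega)]
  have h1 : ∑ x ∈ Eᶜ, f x ≤ E.card * M := by
    have h2 := Finset.sum_add_sum_compl E f
    have h3 : -(∑ x ∈ E, f x) ≤ E.card * M := by
      rw [← Finset.sum_neg_distrib]
      calc ∑ x ∈ E, -f x ≤ ∑ _x ∈ E, M :=
            Finset.sum_le_sum fun x _ => (neg_le_abs _).trans (hM x)
        _ = E.card * M := by rw [Finset.sum_const, nsmul_eq_mul]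
    linarith
  obtain ⟨D, hD, hcD, h⟩ := exists_subset_nonpos
    (fun x => f x * ((N : ℝ) - E.card) - E.card * M) Eᶜ (by
      rw [Finset.sum_sub_distrib, ← Finset.sum_mul, Finset.sum_const, nsmul_eq_mul, hc]
      have h4 : (0 : ℝ) ≤ (N : ℝ) - E.card := by
        rw [← hc]; positivity
      nlinarith) k (by rw [Finset.card_compl]; omega)
  refine ⟨D, ?_, hcD, ?_⟩
  · refine Finset.disjoint_left.2 fun x hx hxD => ?_
    exact (Finset.mem_compl.1 (hD hxD)) hx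
  · rw [Finset.sum_sub_distrib, ← Finset.sum_mul, Finset.sum_const, nsmul_eq_mul, hcD] at h
    have he : (E.card : ℝ) ≤ e := by exact_mod_cast hE
    have hNe : (0 : ℝ) ≤ (N : ℝ) - e := by
      have : ((e : ℕ) : ℝ) ≤ N := by exact_mod_cast (by omega : e ≤ N)
      linarith
    have hk0 : (0 : ℝ) ≤ k := by positivity
    have hrhs : (k : ℝ) * (E.card * M) ≤ k * (e * M) := by gcongr
    rcases le_or_gt 0 (∑ x ∈ D, f x) with h0 | h0
    · have h5 : (∑ x ∈ D, f x) * ((N : ℝ) - e) ≤ (∑ x ∈ D, f x) * ((N : ℝ) - E.card) :=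
        mul_le_mul_of_nonneg_left (by linarith) h0
      linarith
    · have h5 : (∑ x ∈ D, f x) * ((N : ℝ) - e) ≤ 0 := mul_nonpos_of_nonpos_of_nonneg h0.le hNe
      have h6 : (0 : ℝ) ≤ k * (e * M) := by positivity
      linarith

omit [Fintype X] [DecidableEq X] in
theorem T_symm (K : X → X → ℂ) (hs : ∀ x y, K x y = K y x) (A B : Finset X) :
    T K A B = T K B A := by
  unfold T
  rw [Finset.sum_comm]
  exact Finset.sum_congr rfl fun b _ => Finset.sum_congr rfl fun a _ => hs a b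

omit [Fintype X] in
theorem T_expand (K : X → X → ℂ) (hs : ∀ x y, K x y = K y x) {C D R : Finset X}
    (hCD : Disjoint C D) (hR : Disjoint (C ∪ D) R) :
    T K ((C ∪ D) ∪ R) ((C ∪ D) ∪ R) =
      T K C C + T K D D + T K R R + 2 * T K C D + 2 * T K C R + 2 * T K D R := by
  have h1 : ∀ {A A' B : Finset X}, Disjoint A A' → T K (A ∪ A') B = T K A B + T K A' B := by
    intro A A' B h
    unfold T
    rw [Finset.sum_union h]
  have h2 : ∀ {A B B' : Finset X}, Disjoint B B' → T K A (B ∪ B') = T K A B + T K A B' := by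
    intro A B B' h
    rw [T_symm K hs A (B ∪ B'), h1 h, T_symm K hs B A, T_symm K hs B' A]
  rw [h1 hR, h2 hR, h2 hR, h1 hCD, h1 hCD, h2 hCD, h2 hCD, h2 hCD,
    T_symm K hs D C, T_symm K hs R C, T_symm K hs R D]
  ring

omit [Fintype X] [DecidableEq X] in
theorem norm_T_le_card (K : X → X → ℂ) (hK : ∀ x y, ‖K x y‖ ≤ 1) (A B : Finset X) :
    ‖T K A B‖ ≤ A.card * B.card := by
  unfold T
  refine (norm_sum_le _ _).trans ?_
  refine (Finset.sum_le_sum (g := fun _ => (B.card : ℝ)) fun a _ => ?_).trans ?_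
  · refine (norm_sum_le _ _).trans ((Finset.sum_le_sum fun b _ => hK a b).trans ?_)
    simp
  · simp

open scoped Classical in
/-- **Symmetric version.** -/
theorem many_symm (K : X → X → ℂ) (hK : ∀ x y, ‖K x y‖ ≤ 1) (hd : ∀ x, K x x = 0)
    (hs : ∀ x y, K x y = K y x) (hr : ∀ y, ∑ x, K x y = 0)
    (A : Finset X) (hA : 0 < A.card) (k : ℕ)
    (hk : 4 * k * A.card ≤ ‖T K A A‖) (hN : A.card + 2 * k ≤ Fintype.card X)
    (hslack : 12 * k * (A.card : ℝ) ^ 2 ≤ ((Fintype.card X : ℝ) - 2 * k) * ‖T K A A‖)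
    (η : ℝ) (hη : η * (4 * (A.card : ℝ) ^ 2) ≤ (k : ℝ) ^ 2 * ‖T K A A‖) :
    (Fintype.card X).choose A.card ≤ 4 * (Fintype.card X) ^ (4 * k) *
      ((Finset.univ.powersetCard A.card).filter
        (fun A' : Finset X => η ≤ ‖T K A' A'‖)).card := by
  set m := A.card with hm
  set N := Fintype.card X with hNdef
  have hm0 : (0 : ℝ) < m := by exact_mod_cast hA
  obtain ⟨u, hu, huz⟩ := exists_unimod (T K A A)
  obtain ⟨C, D, hCD, hU, hcut⟩ := exists_cut (fun x y => (u * K x y).re)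
    (fun x => by simp [hd]) (fun x y => by simp only [hs x y]) A
  have hre : ∀ B B' : Finset X, ∑ x ∈ B, ∑ y ∈ B', (u * K x y).re = (u * T K B B').re := by
    intro B B'
    unfold T
    rw [Finset.mul_sum, Complex.re_sum]
    refine Finset.sum_congr rfl fun x _ => ?_
    rw [Finset.mul_sum, Complex.re_sum]
  have hcut' : ‖T K A A‖ ≤ 4 * ‖T K C D‖ := by
    have h1 : ‖T K A A‖ = (u * T K A A).re := by rw [huz]; simp
    rw [h1, ← hre]
    refine hcut.trans ?_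
    have h2 : ∑ x ∈ C, ∑ y ∈ D, (u * K x y).re ≤ ‖T K C D‖ := by
      rw [hre]
      calc (u * T K C D).re ≤ ‖u * T K C D‖ := Complex.re_le_norm _
        _ = _ := by rw [norm_mul, hu, one_mul]
    linarith
  have hcard : C.card + D.card = m := by
    rw [hm, ← hU, Finset.card_union_of_disjoint hCD]
  have hcardR : (C.card : ℝ) + D.card = m := by exact_mod_cast hcard
  have hTCD := norm_T_le_card K hK C D
  have hCm : (C.card : ℝ) ≤ m := by
    have : (0 : ℝ) ≤ D.card := by positivity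
    linarith
  have hDm : (D.card : ℝ) ≤ m := by
    have : (0 : ℝ) ≤ C.card := by positivity
    linarith
  have hkC : k ≤ C.card := by
    have : (k : ℝ) * m ≤ C.card * m := by
      calc (k : ℝ) * m ≤ ‖T K A A‖ / 4 := by linarith
        _ ≤ ‖T K C D‖ := by linarith
        _ ≤ C.card * D.card := hTCD
        _ ≤ C.card * m := by gcongr
    exact_mod_cast le_of_mul_le_mul_right this hm0
  have hkD : k ≤ D.card := by
    have : (k : ℝ) * m ≤ D.card * m := by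
      calc (k : ℝ) * m ≤ ‖T K A A‖ / 4 := by linarith
        _ ≤ ‖T K C D‖ := by linarith
        _ ≤ C.card * D.card := hTCD
        _ ≤ m * D.card := by gcongr
        _ = _ := mul_comm _ _
    exact_mod_cast le_of_mul_le_mul_right this hm0
  have h2k : 2 * k ≤ m := by omega
  obtain ⟨C₁, hC₁, D₁, hD₁, hcC₁, hcD₁, hpair⟩ := exists_sub_pair K C D k k hkC hkD
  set X₁ := ‖T K C₁ D₁‖ with hX₁
  have hX₁m : (k : ℝ) ^ 2 * ‖T K A A‖ ≤ (m : ℝ) ^ 2 * X₁ := by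
    have h4 : 4 * ((C.card : ℝ) * D.card) ≤ (m : ℝ) ^ 2 := by
      rw [← hcardR]
      nlinarith [sq_nonneg ((C.card : ℝ) - D.card)]
    calc (k : ℝ) ^ 2 * ‖T K A A‖ ≤ (k : ℝ) ^ 2 * (4 * ‖T K C D‖) := by gcongr
      _ = 4 * (((k : ℝ) * k) * ‖T K C D‖) := by ring
      _ ≤ 4 * (((C.card : ℝ) * D.card) * X₁) := by linarith
      _ = (4 * ((C.card : ℝ) * D.card)) * X₁ := by ring
      _ ≤ _ := mul_le_mul_of_nonneg_right h4 (norm_nonneg _)
  have hCD₁ : Disjoint C₁ D₁ := Finset.disjoint_of_subset_left hC₁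
    (Finset.disjoint_of_subset_right hD₁ hCD)
  obtain ⟨v, hv, hvz⟩ := exists_unimod (T K C₁ D₁)
  have hc : ∀ x, ∑ y, K x y = 0 := fun x => by
    rw [← hr x]
    exact Finset.sum_congr rfl fun y _ => hs x y
  have habs : ∀ z : ℂ, |(v * z).re| ≤ ‖z‖ := fun z =>
    (Complex.abs_re_le_norm _).trans (by rw [norm_mul, hv, one_mul])
  have hrow : ∀ (x : X) (B : Finset X), ‖∑ b ∈ B, K x b‖ ≤ B.card := fun x B => by
    refine (norm_sum_le _ _).trans ((Finset.sum_le_sum fun b _ => hK x b).trans ?_)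
    simp
  have hcol : ∀ (y : X) (B : Finset X), ‖∑ a ∈ B, K a y‖ ≤ B.card := fun y B => by
    refine (norm_sum_le _ _).trans ((Finset.sum_le_sum fun b _ => hK b y).trans ?_)
    simp
  -- the comparator of `D₁`
  obtain ⟨D₀, hdD₀, hcD₀, hD₀⟩ := exists_subset_slack
    (fun y => (v * ∑ a ∈ C₁, K a y).re)
    (by
      rw [← Complex.re_sum, ← Finset.mul_sum, Finset.sum_comm]
      simp [hc]) C₁ k (by positivity)
    (fun y => (habs _).trans ((hcol y C₁).trans (by rw [hcC₁]))) k (2 * k)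
    (by omega) (by omega)
  -- the comparator of `C₁`
  obtain ⟨C₀, hdC₀, hcC₀, hC₀⟩ := exists_subset_slack
    (fun x => (v * (∑ b ∈ D₁, K x b - ∑ b ∈ D₀, K x b)).re)
    (by
      rw [← Complex.re_sum, ← Finset.mul_sum, Finset.sum_sub_distrib,
        Finset.sum_comm, Finset.sum_comm (t := D₀)]
      simp [hr]) (D₁ ∪ D₀) (2 * k) (by positivity)
    (fun x => (habs _).trans ((norm_sub_le _ _).trans (by
      have := hrow x D₁
      have := hrow x D₀
      rw [hcD₁] at *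
      rw [hcD₀] at this
      linarith))) k (2 * k)
    ((Finset.card_union_le _ _).trans (by rw [hcD₁, hcD₀]; omega)) (by omega)
  set Δ := T K C₁ D₁ - T K C₁ D₀ - T K C₀ D₁ + T K C₀ D₀ with hΔ
  have hN2k : (0 : ℝ) < (N : ℝ) - 2 * k := by
    have : (m : ℝ) + 2 * k ≤ N := by exact_mod_cast hN
    linarith
  have hD₀' : (v * T K C₁ D₀).re * ((N : ℝ) - 2 * k) ≤ 2 * (k : ℝ) ^ 3 := by
    have e : (v * T K C₁ D₀).re = ∑ y ∈ D₀, (v * ∑ a ∈ C₁, K a y).re := by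
      unfold T
      rw [Finset.sum_comm, Finset.mul_sum, Complex.re_sum]
    rw [e]
    push_cast at hD₀
    refine hD₀.trans (le_of_eq ?_)
    ring
  have hC₀' : (v * (T K C₀ D₁ - T K C₀ D₀)).re * ((N : ℝ) - 2 * k) ≤ 4 * (k : ℝ) ^ 3 := by
    have e : (v * (T K C₀ D₁ - T K C₀ D₀)).re =
        ∑ x ∈ C₀, (v * (∑ b ∈ D₁, K x b - ∑ b ∈ D₀, K x b)).re := by
      unfold T
      rw [← Complex.re_sum, ← Finset.mul_sum, Finset.sum_sub_distrib]
    rw [e]
    push_cast at hC₀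
    refine hC₀.trans (le_of_eq ?_)
    ring
  have hmain : X₁ ≤ 2 * ‖Δ‖ := by
    have h1 : X₁ - (v * T K C₁ D₀).re - (v * (T K C₀ D₁ - T K C₀ D₀)).re ≤ ‖Δ‖ := by
      calc X₁ - (v * T K C₁ D₀).re - (v * (T K C₀ D₁ - T K C₀ D₀)).re = (v * Δ).re := by
            have : X₁ = (v * T K C₁ D₁).re := by rw [hvz]; simp [hX₁]
            rw [this, ← Complex.sub_re, ← Complex.sub_re, hΔ]
            congr 1
            ring
        _ ≤ ‖v * Δ‖ := Complex.re_le_norm _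
        _ = ‖Δ‖ := by rw [norm_mul, hv, one_mul]
    have h12 : 12 * (k : ℝ) ^ 3 ≤ ((N : ℝ) - 2 * k) * X₁ := by
      have h13 : (m : ℝ) ^ 2 * (12 * (k : ℝ) ^ 3) ≤ (m : ℝ) ^ 2 * (((N : ℝ) - 2 * k) * X₁) := by
        calc (m : ℝ) ^ 2 * (12 * (k : ℝ) ^ 3) = (k : ℝ) ^ 2 * (12 * k * (m : ℝ) ^ 2) := by ring
          _ ≤ (k : ℝ) ^ 2 * (((N : ℝ) - 2 * k) * ‖T K A A‖) := by gcongr
          _ = ((N : ℝ) - 2 * k) * ((k : ℝ) ^ 2 * ‖T K A A‖) := by ring
          _ ≤ ((N : ℝ) - 2 * k) * ((m : ℝ) ^ 2 * X₁) := by gcongr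
          _ = _ := by ring
      exact le_of_mul_le_mul_left h13 (by positivity)
    have h14 : ((N : ℝ) - 2 * k) * X₁ ≤ ((N : ℝ) - 2 * k) * (2 * ‖Δ‖) := by
      have := mul_le_mul_of_nonneg_left h1 hN2k.le
      nlinarith
    exact le_of_mul_le_mul_left h14 hN2k
  have h4η : 4 * η ≤ ‖2 * Δ‖ := by
    have h1 : (m : ℝ) ^ 2 * (4 * η) ≤ (m : ℝ) ^ 2 * X₁ := by linarith
    have h2 := le_of_mul_le_mul_left h1 (by positivity)
    rw [norm_mul]
    norm_num
    linarith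
  set G := (Finset.univ.powersetCard m).filter (fun A' : Finset X => η ≤ ‖T K A' A'‖) with hG
  set R := Rest (C₁ ∪ D₁) (C₀ ∪ D₀) (m - 2 * k) with hR
  have dC₀D₁ : Disjoint C₀ D₁ :=
    (Finset.disjoint_of_subset_left Finset.subset_union_left hdC₀).symm
  have dC₀D₀ : Disjoint C₀ D₀ :=
    (Finset.disjoint_of_subset_left Finset.subset_union_right hdC₀).symm
  have card2 : ∀ E F : Finset X, Disjoint E F → E.card = k → F.card = k →
      (E ∪ F).card = 2 * k := by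
    intro E F h h1 h2
    rw [Finset.card_union_of_disjoint h, h1, h2]
    omega
  have s11 : C₁ ∪ D₁ ⊆ (C₁ ∪ D₁) ∪ (C₀ ∪ D₀) := Finset.subset_union_left
  have s00 : C₀ ∪ D₀ ⊆ (C₁ ∪ D₁) ∪ (C₀ ∪ D₀) := Finset.subset_union_right
  have s10 : C₁ ∪ D₀ ⊆ (C₁ ∪ D₁) ∪ (C₀ ∪ D₀) := by
    intro x hx
    simp only [Finset.mem_union] at hx ⊢
    tauto
  have s01 : C₀ ∪ D₁ ⊆ (C₁ ∪ D₁) ∪ (C₀ ∪ D₀) := by
    intro x hx
    simp only [Finset.mem_union] at hx ⊢
    tauto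
  have hcover : ∀ B ∈ R, (C₁ ∪ D₁) ∪ B ∈ G ∨ (C₁ ∪ D₀) ∪ B ∈ G ∨
      (C₀ ∪ D₁) ∪ B ∈ G ∨ (C₀ ∪ D₀) ∪ B ∈ G := by
    intro B hB
    obtain ⟨c11, d11⟩ := Rest_card_union s11 (card2 _ _ hCD₁ hcC₁ hcD₁) h2k hB
    obtain ⟨c10, d10⟩ := Rest_card_union s10 (card2 _ _ hdD₀ hcC₁ hcD₀) h2k hB
    obtain ⟨c01, d01⟩ := Rest_card_union s01 (card2 _ _ dC₀D₁ hcC₀ hcD₁) h2k hB
    obtain ⟨c00, d00⟩ := Rest_card_union s00 (card2 _ _ dC₀D₀ hcC₀ hcD₀) h2k hB
    have key : ∀ E : Finset X, E.card = m → E ∉ G → ‖T K E E‖ < η := by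
      intro E hE hnot
      by_contra hge
      push Not at hge
      exact hnot (Finset.mem_filter.2 ⟨Finset.mem_powersetCard.2 ⟨Finset.subset_univ _, hE⟩, hge⟩)
    by_contra hcon
    push Not at hcon
    obtain ⟨n1, n2, n3, n4⟩ := hcon
    have k1 := key _ c11 n1
    have k2 := key _ c10 n2
    have k3 := key _ c01 n3
    have k4 := key _ c00 n4
    have hid : 2 * Δ = T K ((C₁ ∪ D₁) ∪ B) ((C₁ ∪ D₁) ∪ B) -
        T K ((C₁ ∪ D₀) ∪ B) ((C₁ ∪ D₀) ∪ B) - T K ((C₀ ∪ D₁) ∪ B) ((C₀ ∪ D₁) ∪ B) +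
        T K ((C₀ ∪ D₀) ∪ B) ((C₀ ∪ D₀) ∪ B) := by
      rw [T_expand K hs hCD₁ d11, T_expand K hs hdD₀ d10, T_expand K hs dC₀D₁ d01,
        T_expand K hs dC₀D₀ d00, hΔ]
      ring
    have : ‖2 * Δ‖ < 4 * η := by
      rw [hid]
      set a := T K ((C₁ ∪ D₁) ∪ B) ((C₁ ∪ D₁) ∪ B)
      set b := T K ((C₁ ∪ D₀) ∪ B) ((C₁ ∪ D₀) ∪ B)
      set c := T K ((C₀ ∪ D₁) ∪ B) ((C₀ ∪ D₁) ∪ B)
      set d := T K ((C₀ ∪ D₀) ∪ B) ((C₀ ∪ D₀) ∪ B)
      calc ‖a - b - c + d‖ ≤ ‖a - b - c‖ + ‖d‖ := norm_add_le _ _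
        _ ≤ (‖a - b‖ + ‖c‖) + ‖d‖ := by gcongr; exact norm_sub_le _ _
        _ ≤ ((‖a‖ + ‖b‖) + ‖c‖) + ‖d‖ := by gcongr; exact norm_sub_le _ _
        _ < 4 * η := by linarith
    linarith
  have hone : ∀ E : Finset X, E ⊆ (C₁ ∪ D₁) ∪ (C₀ ∪ D₀) →
      (R.filter (fun B => E ∪ B ∈ G)).card ≤ G.card := by
    intro E hE
    apply Finset.card_le_card_of_injOn (fun B => E ∪ B)
    · intro p hp
      exact (Finset.mem_filter.1 hp).2
    · intro p hp q hq hpq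
      exact Rest_inj hE (Finset.mem_filter.1 hp).1 (Finset.mem_filter.1 hq).1 hpq
  have hcount : R.card ≤ 4 * G.card := by
    have hsub : R ⊆ R.filter (fun B => (C₁ ∪ D₁) ∪ B ∈ G) ∪
        (R.filter (fun B => (C₁ ∪ D₀) ∪ B ∈ G) ∪
        (R.filter (fun B => (C₀ ∪ D₁) ∪ B ∈ G) ∪
        R.filter (fun B => (C₀ ∪ D₀) ∪ B ∈ G))) := by
      intro p hp
      rw [Finset.mem_union, Finset.mem_union, Finset.mem_union]
      rcases hcover p hp with h | h | h | h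
      · exact Or.inl (Finset.mem_filter.2 ⟨hp, h⟩)
      · exact Or.inr (Or.inl (Finset.mem_filter.2 ⟨hp, h⟩))
      · exact Or.inr (Or.inr (Or.inl (Finset.mem_filter.2 ⟨hp, h⟩)))
      · exact Or.inr (Or.inr (Or.inr (Finset.mem_filter.2 ⟨hp, h⟩)))
    have c1 := Finset.card_le_card hsub
    have c2 := Finset.card_union_le (R.filter (fun B => (C₁ ∪ D₁) ∪ B ∈ G))
        (R.filter (fun B => (C₁ ∪ D₀) ∪ B ∈ G) ∪
        (R.filter (fun B => (C₀ ∪ D₁) ∪ B ∈ G) ∪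
        R.filter (fun B => (C₀ ∪ D₀) ∪ B ∈ G)))
    have c3 := Finset.card_union_le (R.filter (fun B => (C₁ ∪ D₀) ∪ B ∈ G))
        (R.filter (fun B => (C₀ ∪ D₁) ∪ B ∈ G) ∪
        R.filter (fun B => (C₀ ∪ D₀) ∪ B ∈ G))
    have c4 := Finset.card_union_le (R.filter (fun B => (C₀ ∪ D₁) ∪ B ∈ G))
        (R.filter (fun B => (C₀ ∪ D₀) ∪ B ∈ G))
    have d1 := hone _ s11
    have d2 := hone _ s10
    have d3 := hone _ s01
    have d4 := hone _ s00
    omega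
  have hRA := card_Rest (C₁ ∪ D₁) (C₀ ∪ D₀) m (2 * k) (card2 _ _ hCD₁ hcC₁ hcD₁)
    (card2 _ _ dC₀D₀ hcC₀ hcD₀) h2k hN
  have e4 : 2 * (2 * k) = 4 * k := by ring
  rw [e4] at hRA
  calc N.choose m ≤ N ^ (4 * k) * R.card := hRA
    _ ≤ N ^ (4 * k) * (4 * G.card) := Nat.mul_le_mul_left _ hcount
    _ = 4 * N ^ (4 * k) * G.card := by ring

end Pool.Agent.Q93.PG
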