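import Pool.Agent.Q93.PG.Asym

/-!
# The Paley graph conjecture is equivalent to small improvements of the counting bounds
-/

namespace Pool.Agent.Q93.PG

open Finset

theorem T_eq_S {p : ℕ} (χ : DirichletCharacter ℂ p) (A B : Finset (ZMod p)) :
    T (fun a b : ZMod p => χ (a + b)) A B = S χ A B := rfl

theorem norm_S_le {p : ℕ} (χ : DirichletCharacter ℂ p) (A B : Finset (ZMod p)) :
    ‖S χ A B‖ ≤ A.card * B.card := by
  refine (norm_sum_le _ _).trans ?_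
  refine (Finset.sum_le_sum (g := fun _ => (B.card : ℝ)) fun a _ => ?_).trans ?_
  · refine (norm_sum_le _ _).trans ?_
    refine (Finset.sum_le_sum (g := fun _ => (1 : ℝ)) fun b _ => ?_).trans ?_
    · exact DirichletCharacter.norm_le_one χ _
    · simp
  · simp

/-- the classical bound `|S| ≤ √(p |A| |B|)`, squared -/
theorem S_sq_le {p : ℕ} [Fact p.Prime] (χ : DirichletCharacter ℂ p) (hχ : χ ≠ 1)
    (A B : Finset (ZMod p)) : ‖S χ A B‖ ^ 2 ≤ p * (A.card * B.card) := by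
  have h1 : ‖S χ A B‖ ≤ ∑ a ∈ A, ‖∑ b ∈ B, χ (a + b)‖ := norm_sum_le _ _
  have h2 : (∑ a ∈ A, ‖∑ b ∈ B, χ (a + b)‖) ^ 2 ≤
      A.card * ∑ a ∈ A, ‖∑ b ∈ B, χ (a + b)‖ ^ 2 := sq_sum_le_card_mul_sum_sq
  have h3 : ∑ a ∈ A, ‖∑ b ∈ B, χ (a + b)‖ ^ 2 ≤ p * B.card := by
    have := rowL2_add χ hχ B
    rw [ZMod.card] at this
    refine le_trans ?_ this
    exact Finset.sum_le_sum_of_subset_of_nonneg (Finset.subset_univ _)
      fun _ _ _ => by positivity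
  calc ‖S χ A B‖ ^ 2 ≤ (∑ a ∈ A, ‖∑ b ∈ B, χ (a + b)‖) ^ 2 :=
        pow_le_pow_left₀ (norm_nonneg _) h1 2
    _ ≤ A.card * ∑ a ∈ A, ‖∑ b ∈ B, χ (a + b)‖ ^ 2 := h2
    _ ≤ A.card * (p * B.card) := mul_le_mul_of_nonneg_left h3 (by positivity)
    _ = _ := by ring

/-- equal sizes suffice -/
theorem equal_sizes {p : ℕ} [Fact p.Prime] (χ : DirichletCharacter ℂ p) (A B : Finset (ZMod p))
    (θ : ℝ) (hθ : θ * (A.card * B.card) < ‖S χ A B‖) (hA : 0 < A.card) (hB : 0 < B.card) :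
    ∃ A' ⊆ A, ∃ B' ⊆ B, A'.card = min A.card B.card ∧ B'.card = min A.card B.card ∧
      θ * ((min A.card B.card : ℕ) * (min A.card B.card : ℕ)) < ‖S χ A' B'‖ := by
  obtain ⟨A', hA', B', hB', hcA, hcB, h⟩ := exists_sub_pair (fun a b : ZMod p => χ (a + b)) A B
    (min A.card B.card) (min A.card B.card) (min_le_left _ _) (min_le_right _ _)
  refine ⟨A', hA', B', hB', hcA, hcB, ?_⟩
  rw [T_eq_S, T_eq_S] at h
  set m := min A.card B.card with hm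
  have hm0 : (0 : ℝ) < m := by
    have : 0 < m := lt_min hA hB
    exact_mod_cast this
  have hA0 : (0 : ℝ) < A.card := by exact_mod_cast hA
  have hB0 : (0 : ℝ) < B.card := by exact_mod_cast hB
  have h1 : ((A.card : ℝ) * B.card) * (θ * (m * m)) < ((A.card : ℝ) * B.card) * ‖S χ A' B'‖ := by
    calc ((A.card : ℝ) * B.card) * (θ * (m * m)) = (m * m) * (θ * (A.card * B.card)) := by ring
      _ < (m * m) * ‖S χ A B‖ := by gcongr
      _ ≤ _ := h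
  exact lt_of_mul_lt_mul_left h1 (by positivity)

/-- Q1, as in the frozen statement -/
def Q1 : Prop :=
  ∀ ε : ℝ, 0 < ε → ∃ p₀ : ℕ, ∃ δ : ℝ, 0 < δ ∧ ∀ p : ℕ, p.Prime → p₀ < p →
    ∀ A B : Finset (ZMod p), (p : ℝ) ^ ε < A.card → (p : ℝ) ^ ε < B.card →
    ∀ χ : DirichletCharacter ℂ p, χ ≠ 1 →
      ‖S χ A B‖ ≤ (p : ℝ) ^ (-δ) * A.card * B.card

/-- a power improvement for pairs -/
def CountPairs : Prop :=
  ∀ ε : ℝ, 0 < ε → ∃ κ δ : ℝ, 0 < κ ∧ 2 * κ < δ ∧ δ < ε ∧ ∃ p₀ : ℕ, ∀ p : ℕ, ∀ hp : p.Prime,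
    p₀ < p → haveI := Fact.mk hp
    ∀ χ : DirichletCharacter ℂ p, χ ≠ 1 → ∀ m : ℕ, (p : ℝ) ^ ε < m → m ≤ p →
      ((badPairs χ m ((p : ℝ) ^ (-δ))).card : ℝ) <
        (p : ℝ) ^ (-((p : ℝ) ^ (-κ) * m)) * (p.choose m : ℝ) ^ 2

/-- a power improvement for one set -/
def CountSets : Prop :=
  ∀ ε : ℝ, 0 < ε → ∃ κ δ : ℝ, 0 < κ ∧ κ < δ ∧ δ < ε ∧ ∃ p₀ : ℕ, ∀ p : ℕ, ∀ hp : p.Prime,
    p₀ < p → haveI := Fact.mk hp
    ∀ χ : DirichletCharacter ℂ p, χ ≠ 1 → ∀ B : Finset (ZMod p), (p : ℝ) ^ ε < B.card →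
    ∀ m : ℕ, (p : ℝ) ^ ε < m → m ≤ p →
      ((badSets χ B m ((p : ℝ) ^ (-δ))).card : ℝ) <
        (p : ℝ) ^ (-((p : ℝ) ^ (-κ) * m)) * p.choose m

theorem pairs_of_Q1 (h : Q1) : CountPairs := by
  intro ε hε
  obtain ⟨p₀, δ₁, hδ₁, hQ⟩ := h ε hε
  refine ⟨min δ₁ ε / 2 / 4, min δ₁ ε / 2, by positivity, ?_, ?_, p₀, ?_⟩
  · have : 0 < min δ₁ ε := lt_min hδ₁ hε
    linarith
  · have := min_le_right δ₁ ε
    linarith
  intro p hp hpp
  have hF : Fact p.Prime := ⟨hp⟩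
  intro χ hχ m hm hmp
  have hP1 : (1 : ℝ) < p := by exact_mod_cast hp.one_lt
  have hP0 : (0 : ℝ) < p := by linarith
  have hm0 : (0 : ℝ) < m := lt_trans (by positivity) hm
  have hempty : badPairs χ m ((p : ℝ) ^ (-(min δ₁ ε / 2))) = ∅ := by
    rw [badPairs, Finset.filter_eq_empty_iff]
    rintro ⟨A, B⟩ hq hbad
    rw [Finset.mem_product, Finset.mem_powersetCard, Finset.mem_powersetCard] at hq
    dsimp only at hq hbad
    have h1 := hQ p hp hpp A B (by rw [hq.1.2]; exact hm) (by rw [hq.2.2]; exact hm) χ hχ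
    rw [hq.1.2, hq.2.2] at h1
    have h2 : (p : ℝ) ^ (-δ₁) < (p : ℝ) ^ (-(min δ₁ ε / 2)) := by
      apply Real.rpow_lt_rpow_of_exponent_lt hP1
      have h3 := min_le_left δ₁ ε
      have h4 : 0 < min δ₁ ε := lt_min hδ₁ hε
      linarith
    have h3 : (p : ℝ) ^ (-δ₁) * (m * m) < (p : ℝ) ^ (-(min δ₁ ε / 2)) * (m * m) := by
      gcongr
    nlinarith
  rw [hempty]
  have hc : (0 : ℝ) < p.choose m := by exact_mod_cast Nat.choose_pos hmp
  simp only [Finset.card_empty, Nat.cast_zero]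
  positivity

theorem sets_of_Q1 (h : Q1) : CountSets := by
  intro ε hε
  obtain ⟨p₀, δ₁, hδ₁, hQ⟩ := h ε hε
  refine ⟨min δ₁ ε / 2 / 4, min δ₁ ε / 2, by positivity, ?_, ?_, p₀, ?_⟩
  · have : 0 < min δ₁ ε := lt_min hδ₁ hε
    linarith
  · have := min_le_right δ₁ ε
    linarith
  intro p hp hpp
  have hF : Fact p.Prime := ⟨hp⟩
  intro χ hχ B hB m hm hmp
  have hP1 : (1 : ℝ) < p := by exact_mod_cast hp.one_lt
  have hP0 : (0 : ℝ) < p := by linarith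
  have hm0 : (0 : ℝ) < m := lt_trans (by positivity) hm
  have hB0 : (0 : ℝ) < B.card := lt_trans (by positivity) hB
  have hempty : badSets χ B m ((p : ℝ) ^ (-(min δ₁ ε / 2))) = ∅ := by
    rw [badSets, Finset.filter_eq_empty_iff]
    intro A hq hbad
    rw [Finset.mem_powersetCard] at hq
    have h1 := hQ p hp hpp A B (by rw [hq.2]; exact hm) hB χ hχ
    rw [hq.2] at h1
    have h2 : (p : ℝ) ^ (-δ₁) < (p : ℝ) ^ (-(min δ₁ ε / 2)) := by
      apply Real.rpow_lt_rpow_of_exponent_lt hP1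
      have h3 := min_le_left δ₁ ε
      have h4 : 0 < min δ₁ ε := lt_min hδ₁ hε
      linarith
    have h3 : (p : ℝ) ^ (-δ₁) * (m * B.card) < (p : ℝ) ^ (-(min δ₁ ε / 2)) * (m * B.card) := by
      gcongr
    nlinarith
  rw [hempty]
  have hc : (0 : ℝ) < p.choose m := by exact_mod_cast Nat.choose_pos hmp
  simp only [Finset.card_empty, Nat.cast_zero]
  positivity

/-- the size of a violating pair of equal sizes is less than `p/2` -/
theorem size_small {p : ℕ} [Fact p.Prime] (χ : DirichletCharacter ℂ p) (hχ : χ ≠ 1)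
    (A B : Finset (ZMod p)) (m : ℕ) (hA : A.card = m) (hB : B.card = m) (δ₀ : ℝ)
    (hδ₀ : (p : ℝ) ^ (-δ₀) * (m * m) < ‖S χ A B‖) (hp2 : 4 ≤ (p : ℝ) ^ (1 - 2 * δ₀))
    (hm : 0 < m) : 2 * m ≤ p := by
  have hP0 : (0 : ℝ) < p := by exact_mod_cast (Fact.out : p.Prime).pos
  have hm0 : (0 : ℝ) < m := by exact_mod_cast hm
  have h1 := S_sq_le χ hχ A B
  rw [hA, hB] at h1
  have h2 : ((p : ℝ) ^ (-δ₀) * (m * m)) ^ 2 ≤ ‖S χ A B‖ ^ 2 :=
    pow_le_pow_left₀ (by positivity) hδ₀.le 2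
  have h3 : ((p : ℝ) ^ (-δ₀)) ^ 2 = (p : ℝ) ^ (-(2 * δ₀)) := by
    rw [← Real.rpow_natCast, ← Real.rpow_mul hP0.le]
    congr 1
    push_cast
    ring
  have h4 : (p : ℝ) ^ (-(2 * δ₀)) * (m : ℝ) ^ 2 ≤ p := by
    have h5 : ((p : ℝ) ^ (-(2 * δ₀)) * (m : ℝ) ^ 2) * (m : ℝ) ^ 2 ≤ p * (m : ℝ) ^ 2 := by
      calc ((p : ℝ) ^ (-(2 * δ₀)) * (m : ℝ) ^ 2) * (m : ℝ) ^ 2 =
          ((p : ℝ) ^ (-δ₀) * (m * m)) ^ 2 := by rw [mul_pow, h3]; ring
        _ ≤ ‖S χ A B‖ ^ 2 := h2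
        _ ≤ p * (m * m) := h1
        _ = p * (m : ℝ) ^ 2 := by ring
    exact le_of_mul_le_mul_right h5 (by positivity)
  have h6 : (2 * (m : ℝ)) ^ 2 ≤ (p : ℝ) ^ 2 := by
    have h7 : (p : ℝ) ^ (1 - 2 * δ₀) * (p : ℝ) = (p : ℝ) ^ 2 * (p : ℝ) ^ (-(2 * δ₀)) := by
      rw [show (1 - 2 * δ₀) = 1 + -(2 * δ₀) by ring, Real.rpow_add hP0, Real.rpow_one]
      ring
    have h8 : (0 : ℝ) < (p : ℝ) ^ (-(2 * δ₀)) := by positivity
    have h9 : (p : ℝ) ^ (-(2 * δ₀)) * (2 * (m : ℝ)) ^ 2 ≤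
        (p : ℝ) ^ (-(2 * δ₀)) * (p : ℝ) ^ 2 := by
      calc (p : ℝ) ^ (-(2 * δ₀)) * (2 * (m : ℝ)) ^ 2 =
          4 * ((p : ℝ) ^ (-(2 * δ₀)) * (m : ℝ) ^ 2) := by ring
        _ ≤ 4 * (p : ℝ) := by linarith
        _ ≤ (p : ℝ) ^ (1 - 2 * δ₀) * (p : ℝ) := by gcongr
        _ = _ := by rw [h7]; ring
    exact le_of_mul_le_mul_left h9 h8
  have h10 : 2 * (m : ℝ) ≤ p :=
    (pow_le_pow_iff_left₀ (by positivity) hP0.le two_ne_zero).1 h6
  exact_mod_cast h10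

theorem Q1_of_pairs (h : CountPairs) : Q1 := by
  intro ε hε
  rcases le_or_gt 1 ε with hε1 | hε1
  · refine ⟨0, 1, one_pos, fun p hp _ A B hA => ?_⟩
    exfalso
    have hF : Fact p.Prime := ⟨hp⟩
    have hP1 : (1 : ℝ) ≤ p := by exact_mod_cast hp.one_lt.le
    have h1 : (A.card : ℝ) ≤ p := by
      have := Finset.card_le_univ A
      rw [ZMod.card] at this
      exact_mod_cast this
    have h2 : (p : ℝ) ^ (1 : ℝ) ≤ (p : ℝ) ^ ε := Real.rpow_le_rpow_of_exponent_le hP1 hε1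
    rw [Real.rpow_one] at h2
    linarith
  obtain ⟨κ, δ, hκ, hκδ, hδε, p₁, hC⟩ := h ε hε
  set δ₀ := (δ - 2 * κ) / 2 with hδ₀
  have hδ₀0 : 0 < δ₀ := by rw [hδ₀]; linarith
  obtain ⟨p₂, hp₂⟩ := ev_pow (ε - κ) 16 (by linarith)
  obtain ⟨p₃, hp₃⟩ := ev_pow δ₀ 1024 hδ₀0
  obtain ⟨p₄, hp₄⟩ := ev_pow (1 - 2 * δ₀) 4 (by rw [hδ₀]; linarith)
  refine ⟨p₁ + p₂ + p₃ + p₄, δ₀, hδ₀0, fun p hp hpp A B hA hB χ hχ => ?_⟩
  have hF : Fact p.Prime := ⟨hp⟩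
  by_contra hcon
  push Not at hcon
  have hP1 : (1 : ℝ) < p := by exact_mod_cast hp.one_lt
  have hP0 : (0 : ℝ) < p := by linarith
  have hP2 : (2 : ℝ) ≤ p := by exact_mod_cast hp.two_le
  have hA0 : 0 < A.card := by
    have : (0 : ℝ) < A.card := lt_trans (by positivity) hA
    exact_mod_cast this
  have hB0 : 0 < B.card := by
    have : (0 : ℝ) < B.card := lt_trans (by positivity) hB
    exact_mod_cast this
  obtain ⟨A', -, B', -, hcA, hcB, hAB⟩ := equal_sizes χ A B ((p : ℝ) ^ (-δ₀))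
    (by rw [← mul_assoc]; exact hcon) hA0 hB0
  set m := min A.card B.card with hm
  have hmε : (p : ℝ) ^ ε < m := by
    rw [hm]
    rcases min_choice A.card B.card with h | h <;> rw [h]
    · exact hA
    · exact hB
  have hm0 : (0 : ℝ) < m := lt_trans (by positivity) hmε
  have hmpos : 0 < m := by exact_mod_cast hm0
  have h2m := size_small χ hχ A' B' m hcA hcB δ₀ hAB (hp₄ p (by omega)) hmpos
  set ρ : ℝ := (p : ℝ) ^ (-κ) * m with hρ
  have hρ16 : 16 ≤ ρ := by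
    calc (16 : ℝ) ≤ (p : ℝ) ^ (ε - κ) := hp₂ p (by omega)
      _ = (p : ℝ) ^ (-κ) * (p : ℝ) ^ ε := by rw [← Real.rpow_add hP0]; congr 1; ring
      _ ≤ (p : ℝ) ^ (-κ) * m := by gcongr
  set k := ⌊ρ / 8⌋₊ with hk
  have hkle : (k : ℝ) ≤ ρ / 8 := Nat.floor_le (by positivity)
  have hkgt : ρ / 8 < k + 1 := Nat.lt_floor_add_one _
  have hkge : ρ / 16 ≤ k := by linarith
  have hρm : ρ ≤ m := by
    have : (p : ℝ) ^ (-κ) ≤ 1 := Real.rpow_le_one_of_one_le_of_nonpos hP1.le (by linarith)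
    rw [hρ]
    nlinarith
  have hkm : k ≤ m := by
    have : (k : ℝ) ≤ m := by linarith
    exact_mod_cast this
  have hmany := many_bilinear (fun a b : ZMod p => χ (a + b)) (fun y => sum_add_left χ hχ y)
    (fun x => sum_add_right χ hχ x) A' B' k k (by rw [hcA]; exact hkm) (by rw [hcB]; exact hkm)
    (by rw [hcA, ZMod.card]; omega) (by rw [hcB, ZMod.card]; omega)
    ((p : ℝ) ^ (-δ) * (m * m))
    (by
      rw [hcA, hcB, T_eq_S]
      have h1 : ((ρ / 16) * (ρ / 16)) * ((p : ℝ) ^ (-δ₀) * (m * m)) ≤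
          ((k : ℝ) * k) * ‖S χ A' B'‖ := by
        gcongr
      refine le_trans ?_ h1
      have h2 : (p : ℝ) ^ (-δ) * (p : ℝ) ^ δ₀ = (p : ℝ) ^ (-κ) * (p : ℝ) ^ (-κ) *
          (p : ℝ) ^ (-δ₀) := by
        rw [← Real.rpow_add hP0, ← Real.rpow_add hP0, ← Real.rpow_add hP0]
        congr 1
        rw [hδ₀]; ring
      have h3 := hp₃ p (by omega)
      have h4 : (p : ℝ) ^ (-δ) * 1024 ≤ (p : ℝ) ^ (-δ) * (p : ℝ) ^ δ₀ := by gcongr
      calc (p : ℝ) ^ (-δ) * (m * m) * (4 * (m * m)) =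
          ((p : ℝ) ^ (-δ) * 1024) * (((m : ℝ) * m) * (m * m)) / 256 := by ring
        _ ≤ ((p : ℝ) ^ (-δ) * (p : ℝ) ^ δ₀) * (((m : ℝ) * m) * (m * m)) / 256 := by gcongr
        _ = _ := by rw [h2, hρ]; ring)
    (by rw [hcA]; exact hmpos) (by rw [hcB]; exact hmpos)
  rw [hcA, hcB, ZMod.card] at hmany
  have hmany' : ((p.choose m : ℝ)) * (p.choose m : ℝ) ≤ 4 * (p : ℝ) ^ (2 * (k + k)) *
      ((badPairs χ m ((p : ℝ) ^ (-δ))).card : ℝ) := by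
    have : (p.choose m) * (p.choose m) ≤ 4 * p ^ (2 * (k + k)) *
      (badPairs χ m ((p : ℝ) ^ (-δ))).card := hmany
    exact_mod_cast this
  have hlt := hC p hp (by omega) χ hχ m hmε (by omega)
  have hc : (0 : ℝ) < p.choose m := by exact_mod_cast Nat.choose_pos (by omega)
  have hpow : (p : ℝ) ^ (2 * (k + k)) ≤ (p : ℝ) ^ (ρ / 2) := by
    rw [← Real.rpow_natCast]
    apply Real.rpow_le_rpow_of_exponent_le hP1.le
    push_cast
    linarith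
  have h4 : (4 : ℝ) ≤ (p : ℝ) ^ (ρ / 2) := by
    calc (4 : ℝ) = 2 ^ 2 := by norm_num
      _ ≤ (p : ℝ) ^ 2 := pow_le_pow_left₀ (by norm_num) hP2 2
      _ = (p : ℝ) ^ (2 : ℝ) := by norm_cast
      _ ≤ _ := Real.rpow_le_rpow_of_exponent_le hP1.le (by linarith)
  have hfin : (p.choose m : ℝ) * (p.choose m : ℝ) < (p.choose m : ℝ) * (p.choose m : ℝ) := by
    calc (p.choose m : ℝ) * (p.choose m : ℝ) ≤ 4 * (p : ℝ) ^ (2 * (k + k)) *
          ((badPairs χ m ((p : ℝ) ^ (-δ))).card : ℝ) := hmany'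
      _ < 4 * (p : ℝ) ^ (2 * (k + k)) * ((p : ℝ) ^ (-ρ) * (p.choose m : ℝ) ^ 2) := by
          gcongr
      _ ≤ (p : ℝ) ^ (ρ / 2) * (p : ℝ) ^ (ρ / 2) * ((p : ℝ) ^ (-ρ) * (p.choose m : ℝ) ^ 2) := by
          gcongr
      _ = (p : ℝ) ^ (ρ / 2 + ρ / 2 + -ρ) * (p.choose m : ℝ) ^ 2 := by
          rw [Real.rpow_add hP0, Real.rpow_add hP0]; ring
      _ = _ := by
          have : ρ / 2 + ρ / 2 + -ρ = 0 := by ring
          rw [this, Real.rpow_zero]; ring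
  exact lt_irrefl _ hfin

theorem Q1_of_sets (h : CountSets) : Q1 := by
  intro ε hε
  rcases le_or_gt 1 ε with hε1 | hε1
  · refine ⟨0, 1, one_pos, fun p hp _ A B hA => ?_⟩
    exfalso
    have hF : Fact p.Prime := ⟨hp⟩
    have hP1 : (1 : ℝ) ≤ p := by exact_mod_cast hp.one_lt.le
    have h1 : (A.card : ℝ) ≤ p := by
      have := Finset.card_le_univ A
      rw [ZMod.card] at this
      exact_mod_cast this
    have h2 : (p : ℝ) ^ (1 : ℝ) ≤ (p : ℝ) ^ ε := Real.rpow_le_rpow_of_exponent_le hP1 hε1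
    rw [Real.rpow_one] at h2
    linarith
  obtain ⟨κ, δ, hκ, hκδ, hδε, p₁, hC⟩ := h ε hε
  set δ₀ := (δ - κ) / 2 with hδ₀
  have hδ₀0 : 0 < δ₀ := by rw [hδ₀]; linarith
  obtain ⟨p₂, hp₂⟩ := ev_pow (ε - κ) 16 (by linarith)
  obtain ⟨p₃, hp₃⟩ := ev_pow δ₀ 1024 hδ₀0
  obtain ⟨p₄, hp₄⟩ := ev_pow (1 - 2 * δ₀) 4 (by rw [hδ₀]; linarith)
  refine ⟨p₁ + p₂ + p₃ + p₄, δ₀, hδ₀0, fun p hp hpp A B hA hB χ hχ => ?_⟩
  have hF : Fact p.Prime := ⟨hp⟩
  by_contra hcon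
  push Not at hcon
  have hP1 : (1 : ℝ) < p := by exact_mod_cast hp.one_lt
  have hP0 : (0 : ℝ) < p := by linarith
  have hP2 : (2 : ℝ) ≤ p := by exact_mod_cast hp.two_le
  have hA0 : 0 < A.card := by
    have : (0 : ℝ) < A.card := lt_trans (by positivity) hA
    exact_mod_cast this
  have hB0 : 0 < B.card := by
    have : (0 : ℝ) < B.card := lt_trans (by positivity) hB
    exact_mod_cast this
  obtain ⟨A', -, B', -, hcA, hcB, hAB⟩ := equal_sizes χ A B ((p : ℝ) ^ (-δ₀))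
    (by rw [← mul_assoc]; exact hcon) hA0 hB0
  set m := min A.card B.card with hm
  have hmε : (p : ℝ) ^ ε < m := by
    rw [hm]
    rcases min_choice A.card B.card with h | h <;> rw [h]
    · exact hA
    · exact hB
  have hm0 : (0 : ℝ) < m := lt_trans (by positivity) hmε
  have hmpos : 0 < m := by exact_mod_cast hm0
  have h2m := size_small χ hχ A' B' m hcA hcB δ₀ hAB (hp₄ p (by omega)) hmpos
  set ρ : ℝ := (p : ℝ) ^ (-κ) * m with hρ
  have hρ16 : 16 ≤ ρ := by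
    calc (16 : ℝ) ≤ (p : ℝ) ^ (ε - κ) := hp₂ p (by omega)
      _ = (p : ℝ) ^ (-κ) * (p : ℝ) ^ ε := by rw [← Real.rpow_add hP0]; congr 1; ring
      _ ≤ (p : ℝ) ^ (-κ) * m := by gcongr
  set k := ⌊ρ / 8⌋₊ with hk
  have hkle : (k : ℝ) ≤ ρ / 8 := Nat.floor_le (by positivity)
  have hkgt : ρ / 8 < k + 1 := Nat.lt_floor_add_one _
  have hkge : ρ / 16 ≤ k := by linarith
  have hρm : ρ ≤ m := by
    have : (p : ℝ) ^ (-κ) ≤ 1 := Real.rpow_le_one_of_one_le_of_nonpos hP1.le (by linarith)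
    rw [hρ]
    nlinarith
  have hkm : k ≤ m := by
    have : (k : ℝ) ≤ m := by linarith
    exact_mod_cast this
  have hmany := many_linear (fun a : ZMod p => ∑ b ∈ B', χ (a + b))
    (by rw [Finset.sum_comm]; exact Finset.sum_eq_zero fun b _ => sum_add_left χ hχ b) A' k
    (by rw [hcA]; exact hkm)
    (by rw [hcA, ZMod.card]; omega)
    ((p : ℝ) ^ (-δ) * (m * m))
    (by
      rw [hcA]
      have h1 : (ρ / 16) * ((p : ℝ) ^ (-δ₀) * (m * m)) ≤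
          (k : ℝ) * ‖S χ A' B'‖ := by
        gcongr
      refine le_trans ?_ h1
      have h2 : (p : ℝ) ^ (-δ) * (p : ℝ) ^ δ₀ = (p : ℝ) ^ (-κ) *
          (p : ℝ) ^ (-δ₀) := by
        rw [← Real.rpow_add hP0, ← Real.rpow_add hP0]
        congr 1
        rw [hδ₀]; ring
      have h3 := hp₃ p (by omega)
      have h4 : (p : ℝ) ^ (-δ) * 1024 ≤ (p : ℝ) ^ (-δ) * (p : ℝ) ^ δ₀ := by gcongr
      calc (p : ℝ) ^ (-δ) * (m * m) * (2 * m) ≤
          ((p : ℝ) ^ (-δ) * 1024) * (((m : ℝ) * m) * m) / 16 := by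
            have : 0 ≤ (p : ℝ) ^ (-δ) * (((m : ℝ) * m) * m) := by positivity
            nlinarith
        _ ≤ ((p : ℝ) ^ (-δ) * (p : ℝ) ^ δ₀) * (((m : ℝ) * m) * m) / 16 := by gcongr
        _ = _ := by rw [h2, hρ]; ring)
    (by rw [hcA]; exact hmpos)
  rw [hcA, ZMod.card] at hmany
  have hmany' : (p.choose m : ℝ) ≤ 2 * (p : ℝ) ^ (2 * k) *
      ((badSets χ B' m ((p : ℝ) ^ (-δ))).card : ℝ) := by
    have : p.choose m ≤ 2 * p ^ (2 * k) *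
      (badSets χ B' m ((p : ℝ) ^ (-δ))).card := by
      unfold badSets
      rw [hcB]
      exact hmany
    exact_mod_cast this
  have hlt := hC p hp (by omega) χ hχ B' (by rw [hcB]; exact hmε) m hmε (by omega)
  have hc : (0 : ℝ) < p.choose m := by exact_mod_cast Nat.choose_pos (by omega)
  have hpow : (p : ℝ) ^ (2 * k) ≤ (p : ℝ) ^ (ρ / 2) := by
    rw [← Real.rpow_natCast]
    apply Real.rpow_le_rpow_of_exponent_le hP1.le
    push_cast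
    linarith
  have h4 : (2 : ℝ) ≤ (p : ℝ) ^ (ρ / 2) := by
    calc (2 : ℝ) ≤ p := hP2
      _ = (p : ℝ) ^ (1 : ℝ) := (Real.rpow_one _).symm
      _ ≤ _ := Real.rpow_le_rpow_of_exponent_le hP1.le (by linarith)
  have hfin : (p.choose m : ℝ) < (p.choose m : ℝ) := by
    calc (p.choose m : ℝ) ≤ 2 * (p : ℝ) ^ (2 * k) *
          ((badSets χ B' m ((p : ℝ) ^ (-δ))).card : ℝ) := hmany'
      _ < 2 * (p : ℝ) ^ (2 * k) * ((p : ℝ) ^ (-ρ) * p.choose m) := by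
          gcongr
      _ ≤ (p : ℝ) ^ (ρ / 2) * (p : ℝ) ^ (ρ / 2) * ((p : ℝ) ^ (-ρ) * p.choose m) := by
          gcongr
      _ = (p : ℝ) ^ (ρ / 2 + ρ / 2 + -ρ) * p.choose m := by
          rw [Real.rpow_add hP0, Real.rpow_add hP0]; ring
      _ = _ := by
          have : ρ / 2 + ρ / 2 + -ρ = 0 := by ring
          rw [this, Real.rpow_zero]; ring
  exact lt_irrefl _ hfin

end Pool.Agent.Q93.PG
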