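import Pool.Agent.Q93.PG.SymUp
import Pool.Agent.Q93.PG.Thr

/-!
# Character sums over difference sets: sharp thresholds for the number of bad sets
-/

namespace Pool.Agent.Q93.PG

open Finset

/-- the sum over the difference set -/
noncomputable def DS {p : ℕ} (χ : DirichletCharacter ℂ p) (A : Finset (ZMod p)) : ℂ :=
  ∑ a ∈ A, ∑ b ∈ A, χ (a - b)

open scoped Classical in
/-- bad sets -/
noncomputable def badSym {p : ℕ} [NeZero p] (χ : DirichletCharacter ℂ p) (m : ℕ) (η : ℝ) :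
    Finset (Finset (ZMod p)) :=
  (Finset.univ.powersetCard m).filter (fun A => η * ((m : ℝ) * m) ≤ ‖DS χ A‖)

theorem T_minus {p : ℕ} (χ : DirichletCharacter ℂ p) (A B : Finset (ZMod p)) :
    T (fun a b : ZMod p => χ (a - b)) A B = S χ A (B.map (Equiv.neg _).toEmbedding) := by
  unfold T S
  refine Finset.sum_congr rfl fun a _ => ?_
  rw [Finset.sum_map]
  refine Finset.sum_congr rfl fun b _ => ?_
  simp [sub_eq_add_neg]

theorem chi_zero {p : ℕ} [Fact p.Prime] (χ : DirichletCharacter ℂ p) : χ 0 = 0 :=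
  MulChar.map_zero χ

theorem DS_sq_le {p : ℕ} [Fact p.Prime] (χ : DirichletCharacter ℂ p) (hχ : χ ≠ 1)
    (A : Finset (ZMod p)) : ‖DS χ A‖ ^ 2 ≤ p * (A.card * A.card) := by
  have h := S_sq_le χ hχ A (A.map (Equiv.neg _).toEmbedding)
  rw [← T_minus, Finset.card_map] at h
  exact h

theorem DS_le {p : ℕ} (χ : DirichletCharacter ℂ p) (A : Finset (ZMod p)) :
    ‖DS χ A‖ ≤ A.card * A.card := by
  have h := norm_S_le χ A (A.map (Equiv.neg _).toEmbedding)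
  rw [← T_minus, Finset.card_map] at h
  exact h

open scoped Classical in
theorem badPairs_minus {p : ℕ} [Fact p.Prime] (χ : DirichletCharacter ℂ p) (r : ℕ) (η : ℝ) :
    (((Finset.univ.powersetCard r) ×ˢ (Finset.univ.powersetCard r)).filter
      (fun q : Finset (ZMod p) × Finset (ZMod p) =>
        η * ((r : ℝ) * r) ≤ ‖T (fun a b : ZMod p => χ (a - b)) q.1 q.2‖)).card ≤
      (badPairs χ r η).card := by
  apply Finset.card_le_card_of_injOn (fun q => (q.1, q.2.map (Equiv.neg _).toEmbedding))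
  · intro q hq
    rw [Finset.mem_coe, Finset.mem_filter, Finset.mem_product, Finset.mem_powersetCard,
      Finset.mem_powersetCard, T_minus] at hq
    rw [Finset.mem_coe, badPairs, Finset.mem_filter, Finset.mem_product, Finset.mem_powersetCard,
      Finset.mem_powersetCard, Finset.card_map]
    exact ⟨⟨⟨Finset.subset_univ _, hq.1.1.2⟩, ⟨Finset.subset_univ _, hq.1.2.2⟩⟩, hq.2⟩
  · intro q _ q' _ h
    have h1 := (Prod.mk.inj h).1
    have h2 := (Prod.mk.inj h).2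
    exact Prod.ext h1 (Finset.map_injective _ h2)

/-- `C(N,r) ≤ exp(2r²/N) C(N-r,r)` -/
theorem choose_shift (N r : ℕ) (h4 : 4 * r ≤ N) :
    (N.choose r : ℝ) ≤ Real.exp (2 * (r : ℝ) ^ 2 / N) * ((N - r).choose r : ℝ) := by
  rcases Nat.eq_zero_or_pos r with rfl | hr
  · simp
  have hN0 : (0 : ℝ) < N := by
    have : 0 < N := by omega
    exact_mod_cast this
  have hkey : ∀ j ≤ r, ((N.descFactorial j : ℕ) : ℝ) ≤
      (Real.exp (2 * r / N)) ^ j * (((N - r).descFactorial j : ℕ) : ℝ) := by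
    intro j
    induction j with
    | zero => intro _; simp
    | succ j ih =>
      intro hj
      rw [Nat.descFactorial_succ, Nat.descFactorial_succ, pow_succ]
      push_cast
      have e1 : ((N - j : ℕ) : ℝ) = (N : ℝ) - j := by
        rw [Nat.cast_sub (by omega)]
      have e2 : ((N - r - j : ℕ) : ℝ) = (N : ℝ) - r - j := by
        rw [Nat.cast_sub (by omega), Nat.cast_sub (by omega)]
      have h1 : ((N - j : ℕ) : ℝ) ≤ Real.exp (2 * r / N) * ((N - r - j : ℕ) : ℝ) := by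
        have h2 : (N : ℝ) / 2 ≤ (N : ℝ) - r - j := by
          have a1 : (j : ℝ) + 1 ≤ r := by exact_mod_cast hj
          have a2 : 4 * (r : ℝ) ≤ N := by exact_mod_cast h4
          linarith
        have h3 : 1 + 2 * (r : ℝ) / N ≤ Real.exp (2 * r / N) := by
          have := Real.add_one_le_exp (2 * (r : ℝ) / N)
          linarith
        rw [e1, e2]
        calc (N : ℝ) - j = (N - r - j) + r := by ring
          _ ≤ (N - r - j) + 2 * (r : ℝ) / N * (N - r - j) := by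
              have : (r : ℝ) = 2 * (r : ℝ) / N * (N / 2) := by field_simp
              have h4 : 2 * (r : ℝ) / N * (N / 2) ≤ 2 * (r : ℝ) / N * (N - r - j) := by gcongr
              linarith
          _ = (1 + 2 * (r : ℝ) / N) * (N - r - j) := by ring
          _ ≤ _ := by
              apply mul_le_mul_of_nonneg_right h3
              linarith
      calc ((N - j : ℕ) : ℝ) * (N.descFactorial j : ℝ) ≤
          (Real.exp (2 * r / N) * ((N - r - j : ℕ) : ℝ)) *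
            ((Real.exp (2 * r / N)) ^ j * (((N - r).descFactorial j : ℕ) : ℝ)) :=
            mul_le_mul h1 (ih (by omega)) (by positivity) (by positivity)
        _ = _ := by ring
  have h := hkey r le_rfl
  rw [Nat.descFactorial_eq_factorial_mul_choose, Nat.descFactorial_eq_factorial_mul_choose] at h
  push_cast at h
  have hf : (0 : ℝ) < (r.factorial : ℝ) := by exact_mod_cast Nat.factorial_pos r
  have e : (Real.exp (2 * r / N)) ^ r = Real.exp (2 * (r : ℝ) ^ 2 / N) := by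
    rw [← Real.exp_nat_mul]
    congr 1
    ring
  rw [e] at h
  have h5 : (r.factorial : ℝ) * (N.choose r : ℝ) ≤
      (r.factorial : ℝ) * (Real.exp (2 * (r : ℝ) ^ 2 / N) * ((N - r).choose r : ℝ)) := by
    refine h.trans (le_of_eq ?_)
    ring
  exact le_of_mul_le_mul_left h5 hf

theorem choose_prod_le (N m r : ℕ) (h2r : 2 * r ≤ m) (hm : m ≤ N) :
    N.choose r * (N - r).choose r ≤ N.choose m * (m.choose r * (m - r).choose r) := by
  have h1 := Nat.choose_mul (n := N) (k := m) (s := r) (by omega)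
  have h2 := Nat.choose_mul (n := N - r) (k := m - r) (s := r) (by omega)
  have h3 : 1 ≤ (N - r - r).choose (m - r - r) := Nat.choose_pos (by omega)
  calc N.choose r * (N - r).choose r ≤
      N.choose r * ((N - r).choose r * (N - r - r).choose (m - r - r)) :=
        Nat.mul_le_mul_left _ (Nat.le_mul_of_pos_right _ h3)
    _ = N.choose r * ((N - r).choose (m - r) * (m - r).choose r) := by rw [h2]
    _ = (N.choose r * (N - r).choose (m - r)) * (m - r).choose r := by ring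
    _ = (N.choose m * m.choose r) * (m - r).choose r := by rw [h1]
    _ = _ := by ring

theorem upper_symm (ε : ℝ) (hε : 0 < ε) : ∃ p₀ : ℕ, ∀ p : ℕ, ∀ hp : p.Prime, p₀ < p →
    haveI := Fact.mk hp
    ∀ χ : DirichletCharacter ℂ p, χ ≠ 1 →
    ∀ m : ℕ, (p : ℝ) ^ ε < m → m ≤ p → ∀ δ : ℝ, 0 ≤ δ → δ ≤ ε / 100 →
      ((badSym χ m ((p : ℝ) ^ (-δ))).card : ℝ) ≤
        (p : ℝ) ^ (-(ε / 400 * ((p : ℝ) ^ (-δ / 2) * m))) * p.choose m := by
  obtain ⟨p₁, hp₁⟩ := upper_pairs (ε / 2) (by positivity)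
  obtain ⟨p₂, hp₂⟩ := ev_pow (ε / 1000) 2 (by positivity)
  obtain ⟨p₃, hp₃⟩ := ev_pow (ε / 2) (3600 / ε + 3) (by positivity)
  obtain ⟨p₄, hp₄⟩ := ev_pow (1 / 4) (600 / ε + 2) (by positivity)
  refine ⟨p₁ + p₂ + p₃ + p₄ + 3, fun p hp hpp => ?_⟩
  have hF : Fact p.Prime := ⟨hp⟩
  intro χ hχ m hm hmp δ hδ0 hδ
  have hP1 : (1 : ℝ) < p := by exact_mod_cast hp.one_lt
  have hP3 : (3 : ℝ) ≤ p := by
    have : 3 ≤ p := by omega
    exact_mod_cast this
  have hP0 : (0 : ℝ) < p := by linarith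
  have hm0 : (0 : ℝ) < m := lt_trans (by positivity) hm
  have hε1 : ε < 1 := by
    by_contra hcon
    push Not at hcon
    have h1 : (p : ℝ) ^ (1 : ℝ) ≤ (p : ℝ) ^ ε := Real.rpow_le_rpow_of_exponent_le hP1.le hcon
    rw [Real.rpow_one] at h1
    have h2 : (m : ℝ) ≤ p := by exact_mod_cast hmp
    linarith
  have h3600 := hp₃ p (by omega)
  have h600 := hp₄ p (by omega)
  have h2log := hp₂ p (by omega)
  have hpε : 3 < (m : ℝ) := by
    have h1 : (p : ℝ) ^ (ε / 2) ≤ (p : ℝ) ^ ε :=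
      Real.rpow_le_rpow_of_exponent_le hP1.le (by linarith)
    have h2 : 0 < 3600 / ε := by positivity
    linarith
  have hm3 : 3 < m := by exact_mod_cast hpε
  set η : ℝ := (p : ℝ) ^ (-δ) with hη
  have hη0 : 0 < η := by positivity
  set ρ : ℝ := (p : ℝ) ^ (-δ / 2) with hρ
  have hρ0 : 0 < ρ := by positivity
  -- trivial when there is no bad set
  rcases (badSym χ m η).eq_empty_or_nonempty with hem | ⟨A, hAbad⟩
  · rw [hem]
    simp only [Finset.card_empty, Nat.cast_zero]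
    positivity
  rw [badSym, Finset.mem_filter, Finset.mem_powersetCard] at hAbad
  -- the size of `A`
  have hmsize : (m : ℝ) ≤ (p : ℝ) ^ (1 / 2 + δ) := by
    have h1 := DS_sq_le χ hχ A
    rw [hAbad.1.2] at h1
    have h2 : (η * ((m : ℝ) * m)) ^ 2 ≤ ‖DS χ A‖ ^ 2 :=
      pow_le_pow_left₀ (by positivity) hAbad.2 2
    have h3 : (η * (m : ℝ)) ^ 2 ≤ p := by
      have h4 : ((m : ℝ) * m) * (η * (m : ℝ)) ^ 2 ≤ ((m : ℝ) * m) * p := by
        calc ((m : ℝ) * m) * (η * (m : ℝ)) ^ 2 = (η * ((m : ℝ) * m)) ^ 2 := by ring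
          _ ≤ ‖DS χ A‖ ^ 2 := h2
          _ ≤ p * ((m : ℝ) * m) := h1
          _ = _ := by ring
      exact le_of_mul_le_mul_left h4 (by positivity)
    have h5 : ((p : ℝ) ^ (1 / 2 : ℝ)) ^ 2 = p := by
      rw [← Real.rpow_natCast, ← Real.rpow_mul hP0.le]
      norm_num
    have h6 : η * (m : ℝ) ≤ (p : ℝ) ^ (1 / 2 : ℝ) := by
      rw [← h5] at h3
      exact (pow_le_pow_iff_left₀ (by positivity) (by positivity) two_ne_zero).1 h3
    have h7 : (p : ℝ) ^ δ * η = 1 := by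
      rw [hη, ← Real.rpow_add hP0]
      simp
    calc (m : ℝ) = ((p : ℝ) ^ δ * η) * m := by rw [h7, one_mul]
      _ = (p : ℝ) ^ δ * (η * m) := by ring
      _ ≤ (p : ℝ) ^ δ * (p : ℝ) ^ (1 / 2 : ℝ) := by gcongr
      _ = _ := by rw [← Real.rpow_add hP0]; congr 1; ring
  have hδ1 : δ ≤ 1 / 100 := by linarith
  have h2m : 2 * m ≤ p := by
    have h1 : 2 * (m : ℝ) ≤ p := by
      have h2 : (2 : ℝ) ≤ (p : ℝ) ^ (1 / 2 - δ) := by
        have h3 : (p : ℝ) ^ (1 / 4 : ℝ) ≤ (p : ℝ) ^ (1 / 2 - δ) :=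
          Real.rpow_le_rpow_of_exponent_le hP1.le (by linarith)
        have : 0 < 600 / ε := by positivity
        linarith
      calc 2 * (m : ℝ) ≤ (p : ℝ) ^ (1 / 2 - δ) * (p : ℝ) ^ (1 / 2 + δ) := by gcongr
        _ = p := by
            rw [← Real.rpow_add hP0]
            have : (1 / 2 - δ + (1 / 2 + δ)) = 1 := by ring
            rw [this, Real.rpow_one]
    exact_mod_cast h1
  obtain ⟨r, hr⟩ : ∃ r, r = m / 2 := ⟨_, rfl⟩
  have h2r : 2 * r ≤ m := by omega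
  have hmr : m ≤ 2 * r + 1 := by omega
  have hr1 : 1 ≤ r := by omega
  have hr0 : (0 : ℝ) < r := by exact_mod_cast hr1
  have h3r : (m : ℝ) / 3 ≤ r := by
    have : m ≤ 3 * r := by omega
    have : (m : ℝ) ≤ 3 * r := by exact_mod_cast this
    linarith
  have hr2 : (r : ℝ) ≤ m / 2 := by
    have : 2 * (r : ℝ) ≤ m := by exact_mod_cast h2r
    linarith
  -- the exponent of the pairs
  set δ' : ℝ := δ + Real.logb p 2 with hδ'
  have hlog0 : 0 ≤ Real.logb p 2 := Real.logb_nonneg hP1 (by norm_num)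
  have hlog1 : Real.logb p 2 ≤ ε / 1000 :=
    (Real.logb_le_iff_le_rpow hP1 (by norm_num)).2 h2log
  have hplog : (p : ℝ) ^ (-(Real.logb p 2)) = 1 / 2 := by
    rw [Real.rpow_neg hP0.le, Real.rpow_logb hP0 (ne_of_gt hP1) (by norm_num)]
    norm_num
  have hηδ' : (p : ℝ) ^ (-δ') = η / 2 := by
    rw [hδ', neg_add, Real.rpow_add hP0, hplog]
    ring
  have hρδ' : ρ / 2 ≤ (p : ℝ) ^ (-δ' / 2) := by
    have e : -δ' / 2 = -δ / 2 + -(Real.logb p 2) / 2 := by rw [hδ']; ring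
    rw [e, Real.rpow_add hP0]
    have h1 : (1 : ℝ) / 2 ≤ (p : ℝ) ^ (-(Real.logb p 2) / 2) := by
      rw [← hplog]
      apply Real.rpow_le_rpow_of_exponent_le hP1.le
      linarith
    calc ρ / 2 = ρ * (1 / 2) := by ring
      _ ≤ _ := by gcongr
  have hpair := hp₁ p hp (by omega) χ hχ r
    (by
      calc (p : ℝ) ^ (ε / 2) ≤ (p : ℝ) ^ (ε / 2) * ((p : ℝ) ^ (ε / 2) / 3) := by
            apply le_mul_of_one_le_right (by positivity)
            have : 0 < 3600 / ε := by positivity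
            linarith
        _ = (p : ℝ) ^ ε / 3 := by
            rw [← mul_div_assoc, ← Real.rpow_add hP0]
            congr 2
            ring
        _ < m / 3 := by linarith
        _ ≤ r := h3r) (by omega) δ' (by linarith) (by linarith)
  rw [hηδ'] at hpair
  have hred := symm_pairs (fun a b : ZMod p => χ (a - b)) (fun a b => norm_chi_le χ _)
    (fun x => by rw [sub_self]; exact chi_zero χ) m r hr1 h2r hmr (by rw [ZMod.card]; omega) η hη0.le
  rw [ZMod.card] at hred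
  set Q : ℝ := ((m.choose r * (m - r).choose r : ℕ) : ℝ) with hQ
  have hQ0 : 0 < Q := by
    have h1 : 0 < m.choose r := Nat.choose_pos (by omega)
    have h2 : 0 < (m - r).choose r := Nat.choose_pos (by omega)
    have : 0 < m.choose r * (m - r).choose r := Nat.mul_pos h1 h2
    rw [hQ]
    exact Nat.cast_pos.2 this
  have hbp : ((badPairs χ r (η / 2)).card : ℝ) ≤
      (p : ℝ) ^ (-(ε / 40 * ((p : ℝ) ^ (-δ' / 2) * r))) *
        (Real.exp (2 * (r : ℝ) ^ 2 / p) * (p.choose m * Q)) := by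
    have h1 := choose_shift p r (by omega)
    have h2 : (p.choose r : ℝ) * ((p - r).choose r : ℝ) ≤ p.choose m * Q := by
      rw [hQ]
      exact_mod_cast choose_prod_le p m r h2r hmp
    have h3 : (p.choose r : ℝ) ^ 2 ≤ Real.exp (2 * (r : ℝ) ^ 2 / p) * (p.choose m * Q) := by
      calc (p.choose r : ℝ) ^ 2 = p.choose r * p.choose r := by ring
        _ ≤ p.choose r * (Real.exp (2 * (r : ℝ) ^ 2 / p) * ((p - r).choose r : ℝ)) := by gcongr
        _ = Real.exp (2 * (r : ℝ) ^ 2 / p) * (p.choose r * ((p - r).choose r : ℝ)) := by ring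
        _ ≤ _ := by gcongr
    refine hpair.trans ?_
    have e : ε / 2 / 20 = ε / 40 := by ring
    rw [e]
    gcongr
  have hmain : ((badSym χ m η).card : ℝ) * (η / 2) ≤
      p * ((p : ℝ) ^ (-(ε / 40 * ((p : ℝ) ^ (-δ' / 2) * r))) *
        (Real.exp (2 * (r : ℝ) ^ 2 / p) * p.choose m)) := by
    have h1 : ((badSym χ m η).card : ℝ) * (η / 2 * Q) ≤ p * ((badPairs χ r (η / 2)).card : ℝ) := by
      refine le_trans hred ?_
      refine mul_le_mul_of_nonneg_left ?_ hP0.le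
      exact_mod_cast badPairs_minus χ r (η / 2)
    have h2 : Q * (((badSym χ m η).card : ℝ) * (η / 2)) ≤
        Q * (p * ((p : ℝ) ^ (-(ε / 40 * ((p : ℝ) ^ (-δ' / 2) * r))) *
        (Real.exp (2 * (r : ℝ) ^ 2 / p) * p.choose m))) := by
      calc Q * (((badSym χ m η).card : ℝ) * (η / 2)) =
          ((badSym χ m η).card : ℝ) * (η / 2 * Q) := by ring
        _ ≤ p * ((badPairs χ r (η / 2)).card : ℝ) := h1
        _ ≤ p * ((p : ℝ) ^ (-(ε / 40 * ((p : ℝ) ^ (-δ' / 2) * r))) *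
            (Real.exp (2 * (r : ℝ) ^ 2 / p) * (p.choose m * Q))) := by gcongr
        _ = _ := by ring
    exact le_of_mul_le_mul_left h2 hQ0
  -- exponents
  have hρm : (p : ℝ) ^ (ε / 2) ≤ ρ * m := by
    calc (p : ℝ) ^ (ε / 2) ≤ (p : ℝ) ^ (-δ / 2 + ε) := by
          apply Real.rpow_le_rpow_of_exponent_le hP1.le
          linarith
      _ = ρ * (p : ℝ) ^ ε := Real.rpow_add hP0 _ _
      _ ≤ _ := by gcongr
  have hx3 : 3 ≤ ε / 1200 * (ρ * m) := by
    have h1 : 3600 / ε ≤ ρ * m := by linarith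
    rw [div_le_iff₀ hε] at h1
    linarith
  have hx2 : 2 * (r : ℝ) ^ 2 / p ≤ ε / 1200 * (ρ * m) := by
    have h1 : (m : ℝ) / p ≤ ε / 600 * ρ := by
      have h2 : 600 / ε ≤ (p : ℝ) ^ (1 / 2 - 3 * δ / 2) := by
        have h3 : (p : ℝ) ^ (1 / 4 : ℝ) ≤ (p : ℝ) ^ (1 / 2 - 3 * δ / 2) :=
          Real.rpow_le_rpow_of_exponent_le hP1.le (by linarith)
        linarith
      have h4 : 1 ≤ ε / 600 * (p : ℝ) ^ (1 / 2 - 3 * δ / 2) := by
        rw [div_le_iff₀ hε] at h2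
        linarith
      calc (m : ℝ) / p ≤ (p : ℝ) ^ (1 / 2 + δ) / p := by gcongr
        _ = (p : ℝ) ^ (1 / 2 + δ - 1) := by rw [Real.rpow_sub_one hP0.ne']
        _ ≤ (p : ℝ) ^ (1 / 2 + δ - 1) * (ε / 600 * (p : ℝ) ^ (1 / 2 - 3 * δ / 2)) :=
            le_mul_of_one_le_right (by positivity) h4
        _ = ε / 600 * ((p : ℝ) ^ (1 / 2 + δ - 1) * (p : ℝ) ^ (1 / 2 - 3 * δ / 2)) := by ring
        _ = ε / 600 * ρ := by
            rw [hρ, ← Real.rpow_add hP0]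
            congr 2
            ring
    calc 2 * (r : ℝ) ^ 2 / p ≤ 2 * ((m : ℝ) / 2) ^ 2 / p := by gcongr
      _ = (m : ℝ) / 2 * (m / p) := by ring
      _ ≤ (m : ℝ) / 2 * (ε / 600 * ρ) := by gcongr
      _ = _ := by ring
  have hexp : Real.exp (2 * (r : ℝ) ^ 2 / p) ≤ (p : ℝ) ^ (ε / 1200 * (ρ * m)) := by
    have h1 : Real.exp 1 ≤ p := by
      have := Real.exp_one_lt_d9
      linarith
    calc Real.exp (2 * (r : ℝ) ^ 2 / p) ≤ Real.exp (ε / 1200 * (ρ * m)) := Real.exp_le_exp.2 hx2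
      _ = (Real.exp 1) ^ (ε / 1200 * (ρ * m)) := by
          rw [Real.exp_one_rpow]
      _ ≤ _ := Real.rpow_le_rpow (Real.exp_pos _).le h1 (by positivity)
  have hE : (p : ℝ) ^ (-(ε / 40 * ((p : ℝ) ^ (-δ' / 2) * r))) ≤
      (p : ℝ) ^ (-(ε / 240 * (ρ * m))) := by
    apply Real.rpow_le_rpow_of_exponent_le hP1.le
    have h1 : ρ / 2 * (m / 3) ≤ (p : ℝ) ^ (-δ' / 2) * r :=
      mul_le_mul hρδ' h3r (by positivity) (by positivity)
    have h2 : ε / 40 * (ρ / 2 * (m / 3)) ≤ ε / 40 * ((p : ℝ) ^ (-δ' / 2) * r) := by gcongr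
    have e : ε / 240 * (ρ * m) = ε / 40 * (ρ / 2 * (m / 3)) := by ring
    rw [e]
    linarith
  have h2η : 2 * (p : ℝ) / η ≤ (p : ℝ) ^ (ε / 1200 * (ρ * m)) := by
    calc 2 * (p : ℝ) / η = 2 * (p : ℝ) * (p : ℝ) ^ δ := by
          rw [hη, Real.rpow_neg hP0.le]
          field_simp
      _ ≤ p * p * (p : ℝ) ^ (1 : ℝ) := by
          have h1 : (p : ℝ) ^ δ ≤ (p : ℝ) ^ (1 : ℝ) :=
            Real.rpow_le_rpow_of_exponent_le hP1.le (by linarith)
          gcongr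
          linarith
      _ = (p : ℝ) ^ (3 : ℝ) := by
          rw [Real.rpow_one]
          have : (p : ℝ) ^ (3 : ℝ) = (p : ℝ) ^ 3 := by norm_cast
          rw [this]
          ring
      _ ≤ _ := Real.rpow_le_rpow_of_exponent_le hP1.le hx3
  have hsolve : ((badSym χ m η).card : ℝ) ≤
      2 * (p : ℝ) / η * ((p : ℝ) ^ (-(ε / 40 * ((p : ℝ) ^ (-δ' / 2) * r))) *
        (Real.exp (2 * (r : ℝ) ^ 2 / p) * p.choose m)) := by
    have h1 : ((badSym χ m η).card : ℝ) = ((badSym χ m η).card : ℝ) * (η / 2) * (2 / η) := by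
      field_simp
    rw [h1]
    calc ((badSym χ m η).card : ℝ) * (η / 2) * (2 / η) ≤
        (p * ((p : ℝ) ^ (-(ε / 40 * ((p : ℝ) ^ (-δ' / 2) * r))) *
        (Real.exp (2 * (r : ℝ) ^ 2 / p) * p.choose m))) * (2 / η) := by gcongr
      _ = _ := by ring
  calc ((badSym χ m η).card : ℝ) ≤
      2 * (p : ℝ) / η * ((p : ℝ) ^ (-(ε / 40 * ((p : ℝ) ^ (-δ' / 2) * r))) *
        (Real.exp (2 * (r : ℝ) ^ 2 / p) * p.choose m)) := hsolve
    _ ≤ (p : ℝ) ^ (ε / 1200 * (ρ * m)) * ((p : ℝ) ^ (-(ε / 240 * (ρ * m))) *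
        ((p : ℝ) ^ (ε / 1200 * (ρ * m)) * p.choose m)) := by gcongr
    _ = ((p : ℝ) ^ (ε / 1200 * (ρ * m)) * (p : ℝ) ^ (-(ε / 240 * (ρ * m))) *
        (p : ℝ) ^ (ε / 1200 * (ρ * m))) * p.choose m := by ring
    _ = _ := by
        rw [← Real.rpow_add hP0, ← Real.rpow_add hP0]
        congr 2
        ring

/-- the problem, as frozen -/
def Q1s : Prop :=
  ∀ δ : ℝ, 0 < δ → ∃ τ : ℝ, 0 < τ ∧ ∃ P : ℕ, ∀ p : ℕ, p.Prime → P ≤ p →
    ∀ A : Finset (ZMod p), (p : ℝ) ^ δ < (A.card : ℝ) →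
      ∀ χ : DirichletCharacter ℂ p, χ ≠ 1 → ‖DS χ A‖ < (A.card : ℝ) ^ (2 - τ)

/-- a power improvement of the exponent -/
def CountSym : Prop :=
  ∀ ε : ℝ, 0 < ε → ∃ κ δ : ℝ, 0 < κ ∧ 2 * κ < δ ∧ δ < ε ∧ ∃ p₀ : ℕ, ∀ p : ℕ, ∀ hp : p.Prime,
    p₀ < p → haveI := Fact.mk hp
    ∀ χ : DirichletCharacter ℂ p, χ ≠ 1 → ∀ m : ℕ, (p : ℝ) ^ ε < m → m ≤ p →
      ((badSym χ m ((p : ℝ) ^ (-δ))).card : ℝ) <
        (p : ℝ) ^ (-((p : ℝ) ^ (-κ) * m)) * p.choose m

theorem sym_of_Q1s (h : Q1s) : CountSym := by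
  intro ε hε
  obtain ⟨τ, hτ, P, hQ⟩ := h ε hε
  have hmin : 0 < min (ε * τ) ε := lt_min (by positivity) hε
  refine ⟨min (ε * τ) ε / 2 / 4, min (ε * τ) ε / 2, by positivity, ?_, ?_, P, ?_⟩
  · linarith
  · have := min_le_right (ε * τ) ε
    linarith
  intro p hp hpp
  have hF : Fact p.Prime := ⟨hp⟩
  intro χ hχ m hm hmp
  have hP1 : (1 : ℝ) < p := by exact_mod_cast hp.one_lt
  have hP0 : (0 : ℝ) < p := by linarith
  have hm0 : (0 : ℝ) < m := lt_trans (by positivity) hm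
  have hempty : badSym χ m ((p : ℝ) ^ (-(min (ε * τ) ε / 2))) = ∅ := by
    rw [badSym, Finset.filter_eq_empty_iff]
    intro A hq hbad
    rw [Finset.mem_powersetCard] at hq
    have h1 := hQ p hp (by omega) A (by rw [hq.2]; exact hm) χ hχ
    rw [hq.2] at h1
    have h2 : (m : ℝ) ^ (2 - τ) ≤ (p : ℝ) ^ (-(ε * τ)) * (m * m) := by
      have e1 : (m : ℝ) ^ (2 - τ) = (m : ℝ) ^ (-τ) * (m * m) := by
        rw [show (2 - τ) = -τ + 2 by ring, Real.rpow_add hm0]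
        congr 1
        have : (m : ℝ) ^ (2 : ℝ) = (m : ℝ) ^ 2 := by norm_cast
        rw [this]
        ring
      rw [e1]
      have h3 : (m : ℝ) ^ (-τ) ≤ (p : ℝ) ^ (-(ε * τ)) := by
        rw [Real.rpow_neg hm0.le, Real.rpow_neg hP0.le]
        apply inv_anti₀ (by positivity)
        rw [Real.rpow_mul hP0.le]
        exact Real.rpow_le_rpow (by positivity) hm.le hτ.le
      gcongr
    have h4 : (p : ℝ) ^ (-(ε * τ)) < (p : ℝ) ^ (-(min (ε * τ) ε / 2)) := by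
      apply Real.rpow_lt_rpow_of_exponent_lt hP1
      have h3 := min_le_left (ε * τ) ε
      linarith
    have h5 : (p : ℝ) ^ (-(ε * τ)) * (m * m) < (p : ℝ) ^ (-(min (ε * τ) ε / 2)) * (m * m) := by
      gcongr
    linarith
  rw [hempty]
  have hc : (0 : ℝ) < p.choose m := by exact_mod_cast Nat.choose_pos hmp
  simp only [Finset.card_empty, Nat.cast_zero]
  positivity

/-- the symmetrised kernel -/
noncomputable def Ks {p : ℕ} (χ : DirichletCharacter ℂ p) (a b : ZMod p) : ℂ :=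
  (χ (a - b) + χ (b - a)) / 2

theorem T_Ks {p : ℕ} (χ : DirichletCharacter ℂ p) (A : Finset (ZMod p)) :
    T (Ks χ) A A = DS χ A := by
  unfold T Ks DS
  have h1 : ∑ a ∈ A, ∑ b ∈ A, (χ (a - b) + χ (b - a)) / 2 =
      (∑ a ∈ A, ∑ b ∈ A, χ (a - b) + ∑ a ∈ A, ∑ b ∈ A, χ (b - a)) / 2 := by
    rw [← Finset.sum_add_distrib, Finset.sum_div]
    refine Finset.sum_congr rfl fun a _ => ?_
    rw [← Finset.sum_add_distrib, Finset.sum_div]
  rw [h1, Finset.sum_comm (s := A) (t := A) (f := fun a b => χ (b - a))]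
  ring

theorem Ks_norm {p : ℕ} (χ : DirichletCharacter ℂ p) (a b : ZMod p) : ‖Ks χ a b‖ ≤ 1 := by
  unfold Ks
  rw [norm_div]
  have h := norm_add_le (χ (a - b)) (χ (b - a))
  have h1 := DirichletCharacter.norm_le_one χ (a - b)
  have h2 := DirichletCharacter.norm_le_one χ (b - a)
  have h3 : ‖(2 : ℂ)‖ = 2 := by simp
  rw [h3, div_le_iff₀ (by norm_num)]
  linarith

theorem Ks_symm {p : ℕ} (χ : DirichletCharacter ℂ p) (a b : ZMod p) : Ks χ a b = Ks χ b a := by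
  unfold Ks
  ring

theorem Ks_diag {p : ℕ} [Fact p.Prime] (χ : DirichletCharacter ℂ p) (a : ZMod p) :
    Ks χ a a = 0 := by
  unfold Ks
  simp [chi_zero]

theorem Ks_sum {p : ℕ} [Fact p.Prime] (χ : DirichletCharacter ℂ p) (hχ : χ ≠ 1) (b : ZMod p) :
    ∑ a, Ks χ a b = 0 := by
  unfold Ks
  rw [← Finset.sum_div, Finset.sum_add_distrib]
  have h1 : ∑ a, χ (a - b) = 0 := by
    have := sum_add_left χ hχ (-b)
    simpa [sub_eq_add_neg] using this
  have h2 : ∑ a, χ (b - a) = 0 := by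
    have := sum_add_right χ hχ b
    rw [← this, ← Equiv.sum_comp (Equiv.neg (ZMod p)) (fun y => χ (b + y))]
    refine Finset.sum_congr rfl fun a _ => ?_
    simp [sub_eq_add_neg]
  rw [h1, h2]
  simp

theorem many_DS {p : ℕ} [Fact p.Prime] (χ : DirichletCharacter ℂ p) (hχ : χ ≠ 1)
    (A : Finset (ZMod p)) (m k : ℕ) (hA : A.card = m) (hm : 1 ≤ m)
    (hk : 4 * k * m ≤ ‖DS χ A‖) (hN : m + 2 * k ≤ p)
    (hslack : 12 * k * (m : ℝ) ^ 2 ≤ ((p : ℝ) - 2 * k) * ‖DS χ A‖)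
    (η : ℝ) (hη : η * ((m : ℝ) * m) * (4 * (m : ℝ) ^ 2) ≤ (k : ℝ) ^ 2 * ‖DS χ A‖) :
    p.choose m ≤ 4 * p ^ (4 * k) * (badSym χ m η).card := by
  have h := many_symm (Ks χ) (Ks_norm χ) (Ks_diag χ) (Ks_symm χ) (Ks_sum χ hχ) A (by omega) k
    (by rw [hA, T_Ks]; exact hk) (by rw [hA, ZMod.card]; exact hN)
    (by rw [hA, T_Ks, ZMod.card]; exact hslack) (η * ((m : ℝ) * m))
    (by rw [hA, T_Ks]; exact hη)
  rw [hA, ZMod.card] at h
  simp only [T_Ks] at h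
  exact h

theorem Q1s_of_sym (h : CountSym) : Q1s := by
  intro ε hε
  rcases le_or_gt 1 ε with hε1 | hε1
  · refine ⟨1, one_pos, 0, fun p hp _ A hA => ?_⟩
    exfalso
    have hF : Fact p.Prime := ⟨hp⟩
    have hP1 : (1 : ℝ) ≤ p := by exact_mod_cast hp.one_lt.le
    have h1 : (A.card : ℝ) ≤ p := by
      have := Finset.card_le_univ A
      rw [ZMod.card] at this
      exact_mod_cast this
    have h2 : (p : ℝ) ^ (1 : ℝ) ≤ (p : ℝ) ^ ε := Real.rpow_le_rpow_of_exponent_le hP1 hε1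
    rw [Real.rpow_one] at h2
    linarith
  obtain ⟨κ, δ, hκ, hκδ, hδε, p₁, hC⟩ := h ε hε
  set δ₀ := (δ - 2 * κ) / 2 with hδ₀
  have hδ₀0 : 0 < δ₀ := by rw [hδ₀]; linarith
  set τ := min κ (min δ₀ (1 / 8)) with hτ
  have hτ0 : 0 < τ := by
    rw [hτ]
    exact lt_min hκ (lt_min hδ₀0 (by norm_num))
  have hτκ : τ ≤ κ := min_le_left _ _
  have hτδ : τ ≤ δ₀ := (min_le_right _ _).trans (min_le_left _ _)
  have hτ8 : τ ≤ 1 / 8 := (min_le_right _ _).trans (min_le_right _ _)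
  obtain ⟨p₂, hp₂⟩ := ev_pow (ε - κ) 16 (by linarith)
  obtain ⟨p₃, hp₃⟩ := ev_pow δ₀ 1024 hδ₀0
  obtain ⟨p₄, hp₄⟩ := ev_pow (1 / 2) 4 (by norm_num)
  refine ⟨τ, hτ0, p₁ + p₂ + p₃ + p₄ + 1, fun p hp hpp A hA χ hχ => ?_⟩
  have hF : Fact p.Prime := ⟨hp⟩
  by_contra hcon
  push Not at hcon
  have hP1 : (1 : ℝ) < p := by exact_mod_cast hp.one_lt
  have hP0 : (0 : ℝ) < p := by linarith
  have hP2 : (2 : ℝ) ≤ p := by exact_mod_cast hp.two_le
  obtain ⟨m, hm⟩ : ∃ m, A.card = m := ⟨_, rfl⟩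
  rw [hm] at hA hcon
  have hm0 : (0 : ℝ) < m := lt_trans (by positivity) hA
  have hmpos : 0 < m := by exact_mod_cast hm0
  have hmp : (m : ℝ) ≤ p := by
    have := Finset.card_le_univ A
    rw [ZMod.card, hm] at this
    exact_mod_cast this
  have hDS : (p : ℝ) ^ (-τ) * (m : ℝ) ^ 2 ≤ ‖DS χ A‖ := by
    refine le_trans ?_ hcon
    have e1 : (m : ℝ) ^ (2 - τ) = (m : ℝ) ^ (-τ) * (m : ℝ) ^ 2 := by
      rw [show (2 - τ) = -τ + 2 by ring, Real.rpow_add hm0]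
      congr 1
      norm_cast
    rw [e1]
    have h3 : (p : ℝ) ^ (-τ) ≤ (m : ℝ) ^ (-τ) := by
      rw [Real.rpow_neg hm0.le, Real.rpow_neg hP0.le]
      apply inv_anti₀ (by positivity)
      exact Real.rpow_le_rpow hm0.le hmp hτ0.le
    gcongr
  -- size
  have h2m : 2 * m ≤ p := by
    have h1 := DS_sq_le χ hχ A
    rw [hm] at h1
    have h2 : ((p : ℝ) ^ (-τ) * (m : ℝ) ^ 2) ^ 2 ≤ ‖DS χ A‖ ^ 2 :=
      pow_le_pow_left₀ (by positivity) hDS 2
    have h3 : ((p : ℝ) ^ (-τ) * m) ^ 2 ≤ p := by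
      have h4 : ((m : ℝ) ^ 2) * ((p : ℝ) ^ (-τ) * m) ^ 2 ≤ ((m : ℝ) ^ 2) * p := by
        calc ((m : ℝ) ^ 2) * ((p : ℝ) ^ (-τ) * m) ^ 2 = ((p : ℝ) ^ (-τ) * (m : ℝ) ^ 2) ^ 2 := by
              ring
          _ ≤ ‖DS χ A‖ ^ 2 := h2
          _ ≤ p * ((m : ℝ) * m) := h1
          _ = _ := by ring
      exact le_of_mul_le_mul_left h4 (by positivity)
    have h5 := hp₄ p (by omega)
    have h6 : (p : ℝ) ^ (2 * τ) * ((p : ℝ) ^ (-τ) * m) ^ 2 = (m : ℝ) ^ 2 := by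
      have : (p : ℝ) ^ (2 * τ) * ((p : ℝ) ^ (-τ)) ^ 2 = 1 := by
        rw [← Real.rpow_natCast, ← Real.rpow_mul hP0.le, ← Real.rpow_add hP0]
        push_cast
        have e : 2 * τ + -τ * 2 = 0 := by ring
        rw [e, Real.rpow_zero]
      rw [mul_pow, ← mul_assoc, this, one_mul]
    have h7 : (2 * (m : ℝ)) ^ 2 ≤ (p : ℝ) ^ 2 := by
      calc (2 * (m : ℝ)) ^ 2 = 4 * ((p : ℝ) ^ (2 * τ) * ((p : ℝ) ^ (-τ) * m) ^ 2) := by
            rw [h6]; ring
        _ ≤ (p : ℝ) ^ (1 / 2 : ℝ) * ((p : ℝ) ^ (2 * τ) * p) := by gcongr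
        _ = (p : ℝ) ^ (1 / 2 + 2 * τ + 1) := by
            rw [Real.rpow_add hP0, Real.rpow_add hP0, Real.rpow_one]; ring
        _ ≤ (p : ℝ) ^ (2 : ℝ) := Real.rpow_le_rpow_of_exponent_le hP1.le (by linarith)
        _ = (p : ℝ) ^ 2 := by norm_cast
    have h8 : 2 * (m : ℝ) ≤ p :=
      (pow_le_pow_iff_left₀ (by positivity) hP0.le two_ne_zero).1 h7
    exact_mod_cast h8
  have h2mR : 2 * (m : ℝ) ≤ p := by exact_mod_cast h2m
  set ρ : ℝ := (p : ℝ) ^ (-κ) * m with hρ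
  have hρ0 : 0 < ρ := by positivity
  have hρ16 : 16 ≤ ρ := by
    calc (16 : ℝ) ≤ (p : ℝ) ^ (ε - κ) := hp₂ p (by omega)
      _ = (p : ℝ) ^ (-κ) * (p : ℝ) ^ ε := by rw [← Real.rpow_add hP0]; congr 1; ring
      _ ≤ (p : ℝ) ^ (-κ) * m := by gcongr
  set k := ⌊ρ / 8⌋₊ with hk
  have hkle : (k : ℝ) ≤ ρ / 8 := Nat.floor_le (by positivity)
  have hkgt : ρ / 8 < k + 1 := Nat.lt_floor_add_one _
  have hkge : ρ / 16 ≤ k := by linarith
  have hκ1 : (p : ℝ) ^ (-κ) ≤ 1 := Real.rpow_le_one_of_one_le_of_nonpos hP1.le (by linarith)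
  have hρm : ρ ≤ m := by
    rw [hρ]
    nlinarith
  have hκτ : (p : ℝ) ^ (-κ) ≤ (p : ℝ) ^ (-τ) :=
    Real.rpow_le_rpow_of_exponent_le hP1.le (by linarith)
  have hkm : m + 2 * k ≤ p := by
    have : (m : ℝ) + 2 * k ≤ p := by linarith
    exact_mod_cast this
  have hmany := many_DS χ hχ A m k hm hmpos
    (by
      refine le_trans ?_ hDS
      calc 4 * (k : ℝ) * m ≤ 4 * (ρ / 8) * m := by gcongr
        _ = (p : ℝ) ^ (-κ) * (m : ℝ) ^ 2 / 2 := by rw [hρ]; ring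
        _ ≤ (p : ℝ) ^ (-κ) * (m : ℝ) ^ 2 := by
            have : 0 ≤ (p : ℝ) ^ (-κ) * (m : ℝ) ^ 2 := by positivity
            linarith
        _ ≤ _ := by gcongr) hkm
    (by
      have h1 : 12 * (k : ℝ) ≤ ((p : ℝ) - 2 * k) * (p : ℝ) ^ (-τ) := by
        have h2 : (7 / 8) * (p : ℝ) ≤ (p : ℝ) - 2 * k := by linarith
        calc 12 * (k : ℝ) ≤ 12 * (ρ / 8) := by gcongr
          _ = 3 / 2 * ((p : ℝ) ^ (-κ) * m) := by rw [hρ]; ring
          _ ≤ 3 / 2 * ((p : ℝ) ^ (-κ) * (p / 2)) := by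
              gcongr
              linarith
          _ = 3 / 4 * p * (p : ℝ) ^ (-κ) := by ring
          _ ≤ 7 / 8 * p * (p : ℝ) ^ (-κ) := by
              have : 0 ≤ (p : ℝ) * (p : ℝ) ^ (-κ) := by positivity
              linarith
          _ ≤ ((p : ℝ) - 2 * k) * (p : ℝ) ^ (-τ) :=
              mul_le_mul h2 hκτ (by positivity) (by linarith)
      have h3 : (0 : ℝ) ≤ (p : ℝ) - 2 * k := by linarith
      calc 12 * (k : ℝ) * (m : ℝ) ^ 2 ≤ (((p : ℝ) - 2 * k) * (p : ℝ) ^ (-τ)) * (m : ℝ) ^ 2 :=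
            mul_le_mul_of_nonneg_right h1 (by positivity)
        _ = ((p : ℝ) - 2 * k) * ((p : ℝ) ^ (-τ) * (m : ℝ) ^ 2) := by ring
        _ ≤ _ := mul_le_mul_of_nonneg_left hDS h3)
    ((p : ℝ) ^ (-δ))
    (by
      have h1 : (ρ / 16) ^ 2 * ((p : ℝ) ^ (-τ) * (m : ℝ) ^ 2) ≤ (k : ℝ) ^ 2 * ‖DS χ A‖ := by
        gcongr
      refine le_trans ?_ h1
      have h2 : (p : ℝ) ^ (-δ) * (p : ℝ) ^ δ₀ ≤ (p : ℝ) ^ (-κ) * (p : ℝ) ^ (-κ) *
          (p : ℝ) ^ (-τ) := by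
        rw [← Real.rpow_add hP0, ← Real.rpow_add hP0, ← Real.rpow_add hP0]
        apply Real.rpow_le_rpow_of_exponent_le hP1.le
        have : δ₀ = (δ - 2 * κ) / 2 := hδ₀
        linarith
      have h3 := hp₃ p (by omega)
      have h4 : (p : ℝ) ^ (-δ) * 1024 ≤ (p : ℝ) ^ (-δ) * (p : ℝ) ^ δ₀ := by gcongr
      calc (p : ℝ) ^ (-δ) * ((m : ℝ) * m) * (4 * (m : ℝ) ^ 2) =
          ((p : ℝ) ^ (-δ) * 1024) * ((m : ℝ) ^ 4) / 256 := by ring
        _ ≤ ((p : ℝ) ^ (-κ) * (p : ℝ) ^ (-κ) * (p : ℝ) ^ (-τ)) * ((m : ℝ) ^ 4) / 256 :=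
            div_le_div_of_nonneg_right
              (mul_le_mul_of_nonneg_right (h4.trans h2) (by positivity)) (by norm_num)
        _ = _ := by rw [hρ]; ring)
  have hmany' : (p.choose m : ℝ) ≤ 4 * (p : ℝ) ^ (4 * k) *
      ((badSym χ m ((p : ℝ) ^ (-δ))).card : ℝ) := by
    exact_mod_cast hmany
  have hlt := hC p hp (by omega) χ hχ m hA (by omega)
  have hc : (0 : ℝ) < p.choose m := by exact_mod_cast Nat.choose_pos (by omega)
  have hpow : (p : ℝ) ^ (4 * k) ≤ (p : ℝ) ^ (ρ / 2) := by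
    rw [← Real.rpow_natCast]
    apply Real.rpow_le_rpow_of_exponent_le hP1.le
    push_cast
    linarith
  have h4 : (4 : ℝ) ≤ (p : ℝ) ^ (ρ / 2) := by
    calc (4 : ℝ) = 2 ^ 2 := by norm_num
      _ ≤ (p : ℝ) ^ 2 := pow_le_pow_left₀ (by norm_num) hP2 2
      _ = (p : ℝ) ^ (2 : ℝ) := by norm_cast
      _ ≤ _ := Real.rpow_le_rpow_of_exponent_le hP1.le (by linarith)
  have hfin : (p.choose m : ℝ) < (p.choose m : ℝ) := by
    calc (p.choose m : ℝ) ≤ 4 * (p : ℝ) ^ (4 * k) *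
          ((badSym χ m ((p : ℝ) ^ (-δ))).card : ℝ) := hmany'
      _ < 4 * (p : ℝ) ^ (4 * k) * ((p : ℝ) ^ (-ρ) * (p.choose m : ℝ)) := by
          gcongr
      _ ≤ (p : ℝ) ^ (ρ / 2) * (p : ℝ) ^ (ρ / 2) * ((p : ℝ) ^ (-ρ) * (p.choose m : ℝ)) := by
          gcongr
      _ = (p : ℝ) ^ (ρ / 2 + ρ / 2 + -ρ) * (p.choose m : ℝ) := by
          rw [Real.rpow_add hP0, Real.rpow_add hP0]; ring
      _ = _ := by
          have : ρ / 2 + ρ / 2 + -ρ = 0 := by ring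
          rw [this, Real.rpow_zero]; ring
  exact lt_irrefl _ hfin

end Pool.Agent.Q93.PG
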