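import Pool.Agent.Q93.PG.Up

/-!
# Upper bounds for the number of bad sets and of bad pairs, abstract kernels
-/

namespace Pool.Agent.Q93.PG

open Finset

variable {X : Type*} [Fintype X] [DecidableEq X]

/-- second moment bound for the rows -/
def RowL2 (K : X → X → ℂ) : Prop :=
  ∀ B : Finset X, ∑ x, ‖∑ b ∈ B, K x b‖ ^ 2 ≤ (Fintype.card X : ℝ) * B.card

theorem norm_T_le (K : X → X → ℂ) (A B : Finset X) :
    ‖T K A B‖ ≤ ∑ a ∈ A, ‖∑ b ∈ B, K a b‖ := norm_sum_le _ _

theorem row_le (K : X → X → ℂ) (hK : ∀ x y, ‖K x y‖ ≤ 1) (a : X) (B : Finset X) :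
    ‖∑ b ∈ B, K a b‖ ≤ B.card := by
  refine (norm_sum_le _ _).trans ((Finset.sum_le_sum fun b _ => hK a b).trans ?_)
  simp

theorem sum_inter_level (f : X → ℝ) (A : Finset X) (V M : ℝ) (hM : ∀ x, f x ≤ M) (hV : 0 ≤ V)
    (hVM : 0 ≤ M) (Z : Finset X) (hZ : ∀ x, x ∉ Z → f x ≤ V) :
    ∑ a ∈ A, f a ≤ (A ∩ Z).card * M + A.card * V := by
  classical
  rw [← Finset.sum_inter_add_sum_sdiff A Z f]
  refine add_le_add ?_ ?_
  · refine (Finset.sum_le_sum fun x _ => hM x).trans (le_of_eq ?_)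
    rw [Finset.sum_const, nsmul_eq_mul]
  · refine (Finset.sum_le_sum (g := fun _ => V) fun x hx => hZ x (Finset.mem_sdiff.1 hx).2).trans ?_
    rw [Finset.sum_const, nsmul_eq_mul]
    refine mul_le_mul_of_nonneg_right ?_ hV
    exact_mod_cast Finset.card_le_card Finset.sdiff_subset

open scoped Classical in
/-- **Fixed `B`, upper bound.** -/
theorem few_linear (K : X → X → ℂ) (hK : ∀ x y, ‖K x y‖ ≤ 1) (hrow : RowL2 K) (B : Finset X)
    (hB : 0 < B.card) (m : ℕ) (hm1 : 1 ≤ m) (hm : m ≤ Fintype.card X) (η : ℝ) (hη : 0 < η)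
    (hη1 : η ≤ 1) :
    (((Finset.univ.powersetCard m).filter
      (fun A : Finset X => η * (m * B.card) ≤ ‖T K A B‖)).card : ℝ) ≤
      (Fintype.card X).choose m * (8 * Real.exp 1 / (η ^ 3 * B.card)) ^ ⌈η * m / 2⌉₊ := by
  set N := Fintype.card X with hN
  set n := B.card with hn
  have hN0 : (0 : ℝ) < N := by exact_mod_cast (lt_of_lt_of_le hm1 hm)
  have hn0 : (0 : ℝ) < n := by exact_mod_cast hB
  have hm0 : (0 : ℝ) < m := by exact_mod_cast hm1
  set r := ⌈η * m / 2⌉₊ with hr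
  have hr1 : 1 ≤ r := Nat.ceil_pos.2 (by positivity)
  have hrm : r ≤ m := by
    rw [hr]
    apply Nat.ceil_le.2
    nlinarith
  set Z := Finset.univ.filter (fun x => η * n / 2 ≤ ‖∑ b ∈ B, K x b‖) with hZ
  have hZc : (Z.card : ℝ) ≤ 4 * N / (η ^ 2 * n) := by
    have h := level_card (fun x => ∑ b ∈ B, K x b) (η * n / 2) (N * n) (by positivity) (hrow B)
    refine h.trans (le_of_eq ?_)
    field_simp
    ring
  have hsub : ((Finset.univ.powersetCard m).filter
      (fun A : Finset X => η * (m * n) ≤ ‖T K A B‖)) ⊆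
      ((Finset.univ.powersetCard m).filter (fun A : Finset X => r ≤ (A ∩ Z).card)) := by
    intro A hA
    rw [Finset.mem_filter] at hA ⊢
    refine ⟨hA.1, ?_⟩
    have hAc : (A.card : ℝ) = m := by
      exact_mod_cast (Finset.mem_powersetCard.1 hA.1).2
    have h1 := sum_inter_level (fun x => ‖∑ b ∈ B, K x b‖) A (η * n / 2) n
      (fun x => row_le K hK x B) (by positivity) hn0.le Z
      (fun x hx => by
        by_contra hlt
        push Not at hlt
        exact hx (Finset.mem_filter.2 ⟨Finset.mem_univ _, hlt.le⟩))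
    have h2 := (hA.2.trans (norm_T_le K A B)).trans h1
    rw [hAc] at h2
    rw [hr]
    apply Nat.ceil_le.2
    have h3 : n * (η * m / 2) ≤ n * ((A ∩ Z).card : ℝ) := by nlinarith
    exact le_of_mul_le_mul_left h3 hn0
  have h1 : (((Finset.univ.powersetCard m).filter
      (fun A : Finset X => η * (m * n) ≤ ‖T K A B‖)).card : ℝ) ≤
      (((Finset.univ.powersetCard m).filter
        (fun A : Finset X => r ≤ (A ∩ Z).card)).card : ℝ) := by
    exact_mod_cast Finset.card_le_card hsub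
  refine (h1.trans (card_meet Z m r hr1 hrm hm)).trans ?_
  refine mul_le_mul_of_nonneg_left ?_ (by positivity)
  refine pow_le_pow_left₀ (by positivity) ?_ r
  have hr0 : (0 : ℝ) < r := by exact_mod_cast hr1
  have hrge : η * m / 2 ≤ r := Nat.le_ceil _
  rw [← hN]
  calc Real.exp 1 * m * Z.card / (r * N) ≤ Real.exp 1 * m * (4 * N / (η ^ 2 * n)) / (r * N) := by
        gcongr
    _ = 4 * Real.exp 1 * m / (η ^ 2 * n * r) := by field_simp
    _ ≤ 4 * Real.exp 1 * m / (η ^ 2 * n * (η * m / 2)) := by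
        gcongr
    _ = 8 * Real.exp 1 / (η ^ 3 * n) := by field_simp; ring

open scoped Classical in
/-- **Pairs of equal size, upper bound.** -/
theorem few_pairs (K : X → X → ℂ) (hK : ∀ x y, ‖K x y‖ ≤ 1) (hrow : RowL2 K)
    (hcol : RowL2 (fun x y => K y x)) (m : ℕ) (hm1 : 1 ≤ m) (hm : m ≤ Fintype.card X)
    (η : ℝ) (hη : 0 < η) (hη1 : η ≤ 1) (s : ℕ) (hs1 : 1 ≤ s) (hsm : s ≤ m)
    (hs4 : (s : ℝ) ^ 2 ≤ 4 * η * m ^ 2) (hsη : η * m ≤ 2 * s) :
    ((((Finset.univ.powersetCard m) ×ˢ (Finset.univ.powersetCard m)).filter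
      (fun p : Finset X × Finset X => η * (m * m) ≤ ‖T K p.1 p.2‖)).card : ℝ) ≤
      ((Fintype.card X).choose m : ℝ) ^ 2 *
        ((16 * Real.exp 1 / (η ^ 2 * s)) ^ s +
          (Real.exp 1 * m / s) ^ s *
            (512 * Real.exp 1 / (η ^ 2 * m)) ^ ⌈η * m ^ 2 / (2 * s)⌉₊) := by
  set N := Fintype.card X with hN
  have hN0 : (0 : ℝ) < N := by exact_mod_cast (lt_of_lt_of_le hm1 hm)
  have hm0 : (0 : ℝ) < m := by exact_mod_cast hm1
  have hs0 : (0 : ℝ) < s := by exact_mod_cast hs1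
  set s' := ⌈η * m ^ 2 / (2 * s)⌉₊ with hs'
  have hs'1 : 1 ≤ s' := Nat.ceil_pos.2 (by positivity)
  have hs'm : s' ≤ m := by
    rw [hs']
    apply Nat.ceil_le.2
    rw [div_le_iff₀ (by positivity)]
    nlinarith
  have hs'ge : η * m ^ 2 / (2 * s) ≤ s' := Nat.le_ceil _
  have hs'0 : (0 : ℝ) < s' := by exact_mod_cast hs'1
  set P := (Finset.univ.powersetCard m : Finset (Finset X)) with hP
  -- first kind: `A` meets the level set of `B`
  set Z : Finset X → Finset X := fun B =>
    Finset.univ.filter (fun x => η * m / 4 ≤ ‖∑ b ∈ B, K x b‖) with hZ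
  set Z' : Finset X → Finset X := fun A₁ =>
    Finset.univ.filter (fun y => η * m / 8 ≤ ‖∑ a ∈ A₁, K a y‖) with hZ'
  have hZc : ∀ B ∈ P, ((Z B).card : ℝ) ≤ 16 * N / (η ^ 2 * m) := by
    intro B hB
    have hBc : (B.card : ℝ) = m := by exact_mod_cast (Finset.mem_powersetCard.1 hB).2
    have h := level_card (fun x => ∑ b ∈ B, K x b) (η * m / 4) (N * B.card) (by positivity)
      (hrow B)
    rw [hBc] at h
    refine h.trans (le_of_eq ?_)
    field_simp
    ring
  have hZ'c : ∀ A₁ : Finset X, A₁.card ≤ s → ((Z' A₁).card : ℝ) ≤ 64 * N * s / (η ^ 2 * m ^ 2) := by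
    intro A₁ hA₁
    have hc : (A₁.card : ℝ) ≤ s := by exact_mod_cast hA₁
    have h := level_card (fun y => ∑ a ∈ A₁, K a y) (η * m / 8) (N * A₁.card) (by positivity)
      (hcol A₁)
    refine h.trans ?_
    calc (N : ℝ) * A₁.card / (η * m / 8) ^ 2 ≤ (N : ℝ) * s / (η * m / 8) ^ 2 := by gcongr
      _ = _ := by field_simp; ring
  set G1 := P.biUnion (fun B => (P.filter (fun A : Finset X => s ≤ (A ∩ Z B).card)) ×ˢ {B})
    with hG1
  set G2 := P.biUnion (fun A => (A.powerset.filter (fun A₁ => A₁.card ≤ s)).biUnion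
    (fun A₁ => {A} ×ˢ (P.filter (fun B : Finset X => s' ≤ (B ∩ Z' A₁).card)))) with hG2
  have hsub : (P ×ˢ P).filter (fun p : Finset X × Finset X => η * (m * m) ≤ ‖T K p.1 p.2‖) ⊆
      G1 ∪ G2 := by
    rintro ⟨A, B⟩ hp
    rw [Finset.mem_filter, Finset.mem_product] at hp
    obtain ⟨⟨hA, hB⟩, hbad⟩ := hp
    dsimp only at hA hB hbad
    have hAc : (A.card : ℝ) = m := by exact_mod_cast (Finset.mem_powersetCard.1 hA).2
    have hBc : (B.card : ℝ) = m := by exact_mod_cast (Finset.mem_powersetCard.1 hB).2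
    obtain ⟨u, hu, huT⟩ := exists_unimod (T K A B)
    set A₁ := A.filter (fun a => η * m / 4 ≤ (u * ∑ b ∈ B, K a b).re) with hA₁
    have hsumA : ∑ a ∈ A, (u * ∑ b ∈ B, K a b).re = ‖T K A B‖ := by
      rw [← Complex.re_sum, ← Finset.mul_sum]
      have : u * ∑ a ∈ A, ∑ b ∈ B, K a b = ‖T K A B‖ := huT
      rw [this]
      simp
    have hA₁Z : A₁ ⊆ A ∩ Z B := by
      intro a ha
      rw [hA₁, Finset.mem_filter] at ha
      refine Finset.mem_inter.2 ⟨ha.1, Finset.mem_filter.2 ⟨Finset.mem_univ _, ?_⟩⟩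
      calc η * m / 4 ≤ (u * ∑ b ∈ B, K a b).re := ha.2
        _ ≤ ‖u * ∑ b ∈ B, K a b‖ := Complex.re_le_norm _
        _ = ‖∑ b ∈ B, K a b‖ := by rw [norm_mul, hu, one_mul]
    have hT1 : 3 / 4 * (η * (m * m)) ≤ ‖T K A₁ B‖ := by
      have h1 : ∑ a ∈ A, (u * ∑ b ∈ B, K a b).re ≤
          ∑ a ∈ A₁, (u * ∑ b ∈ B, K a b).re + m * (η * m / 4) := by
        rw [← Finset.sum_filter_add_sum_filter_not A
          (fun a => η * m / 4 ≤ (u * ∑ b ∈ B, K a b).re)]
        refine add_le_add le_rfl ?_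
        refine (Finset.sum_le_sum (g := fun _ => η * m / 4) fun a ha => ?_).trans ?_
        · exact (not_le.1 (Finset.mem_filter.1 ha).2).le
        · rw [Finset.sum_const, nsmul_eq_mul]
          refine mul_le_mul_of_nonneg_right ?_ (by positivity)
          rw [← hAc]
          exact_mod_cast Finset.card_filter_le _ _
      have h2 : ∑ a ∈ A₁, (u * ∑ b ∈ B, K a b).re ≤ ‖T K A₁ B‖ := by
        rw [← Complex.re_sum, ← Finset.mul_sum]
        calc (u * ∑ a ∈ A₁, ∑ b ∈ B, K a b).re ≤ ‖u * ∑ a ∈ A₁, ∑ b ∈ B, K a b‖ :=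
              Complex.re_le_norm _
          _ = ‖T K A₁ B‖ := by rw [norm_mul, hu, one_mul]; rfl
      rw [hsumA] at h1
      nlinarith
    rw [Finset.mem_union]
    rcases le_or_gt s (A ∩ Z B).card with hcase | hcase
    · left
      rw [hG1, Finset.mem_biUnion]
      exact ⟨B, hB, Finset.mem_product.2 ⟨Finset.mem_filter.2 ⟨hA, hcase⟩,
        Finset.mem_singleton_self B⟩⟩
    · right
      have hA₁s : A₁.card ≤ s := (Finset.card_le_card hA₁Z).trans hcase.le
      rw [hG2, Finset.mem_biUnion]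
      refine ⟨A, hA, Finset.mem_biUnion.2 ⟨A₁, Finset.mem_filter.2
        ⟨Finset.mem_powerset.2 (Finset.filter_subset _ _), hA₁s⟩, Finset.mem_product.2
        ⟨Finset.mem_singleton_self A, Finset.mem_filter.2 ⟨hB, ?_⟩⟩⟩⟩
      have h1 := sum_inter_level (fun y => ‖∑ a ∈ A₁, K a y‖) B (η * m / 8) s
        (fun y => (row_le (fun x y => K y x) (fun x y => hK y x) y A₁).trans
          (by exact_mod_cast hA₁s)) (by positivity) hs0.le (Z' A₁)
        (fun y hy => by
          by_contra hlt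
          push Not at hlt
          exact hy (Finset.mem_filter.2 ⟨Finset.mem_univ _, hlt.le⟩))
      have h2 : ‖T K A₁ B‖ ≤ ∑ y ∈ B, ‖∑ a ∈ A₁, K a y‖ := by
        rw [T_swap]
        exact norm_sum_le _ _
      rw [hBc] at h1
      rw [hs']
      apply Nat.ceil_le.2
      rw [div_le_iff₀ (by positivity)]
      have h3 := (hT1.trans h2).trans h1
      nlinarith
  have hc1 : (G1.card : ℝ) ≤ (N.choose m : ℝ) ^ 2 * (16 * Real.exp 1 / (η ^ 2 * s)) ^ s := by
    have h1 : (G1.card : ℝ) ≤ ∑ B ∈ P,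
        ((P.filter (fun A : Finset X => s ≤ (A ∩ Z B).card)).card : ℝ) := by
      have : G1.card ≤ ∑ B ∈ P, (P.filter (fun A : Finset X => s ≤ (A ∩ Z B).card)).card := by
        refine Finset.card_biUnion_le.trans (Finset.sum_le_sum fun B _ => ?_)
        rw [Finset.card_product, Finset.card_singleton, mul_one]
      exact_mod_cast this
    refine h1.trans ?_
    refine (Finset.sum_le_sum (g := fun _ => (N.choose m : ℝ) *
      (16 * Real.exp 1 / (η ^ 2 * s)) ^ s) fun B hB => ?_).trans (le_of_eq ?_)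
    · refine (card_meet (Z B) m s hs1 hsm hm).trans ?_
      refine mul_le_mul_of_nonneg_left (pow_le_pow_left₀ (by positivity) ?_ s) (by positivity)
      rw [← hN]
      calc Real.exp 1 * m * (Z B).card / (s * N) ≤
          Real.exp 1 * m * (16 * N / (η ^ 2 * m)) / (s * N) := by
            gcongr
            exact hZc B hB
        _ = _ := by field_simp
    · rw [Finset.sum_const, nsmul_eq_mul, hP, Finset.card_powersetCard, Finset.card_univ]
      ring
  have hc2 : (G2.card : ℝ) ≤ (N.choose m : ℝ) ^ 2 * ((Real.exp 1 * m / s) ^ s *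
            (512 * Real.exp 1 / (η ^ 2 * m)) ^ s') := by
    have h0 : ∀ A₁ : Finset X, A₁.card ≤ s →
        ((P.filter (fun B : Finset X => s' ≤ (B ∩ Z' A₁).card)).card : ℝ) ≤
        (N.choose m : ℝ) * (512 * Real.exp 1 / (η ^ 2 * m)) ^ s' := by
      intro A₁ hA₁
      refine (card_meet (Z' A₁) m s' hs'1 hs'm hm).trans ?_
      refine mul_le_mul_of_nonneg_left (pow_le_pow_left₀ (by positivity) ?_ s') (by positivity)
      rw [← hN]
      calc Real.exp 1 * m * (Z' A₁).card / (s' * N) ≤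
          Real.exp 1 * m * (64 * N * s / (η ^ 2 * m ^ 2)) / (s' * N) := by
            gcongr
            exact hZ'c A₁ hA₁
        _ = 64 * Real.exp 1 * s / (η ^ 2 * m) / s' := by field_simp
        _ ≤ 64 * Real.exp 1 * s / (η ^ 2 * m) / (η * m ^ 2 / (2 * s)) := by
            gcongr
        _ = 128 * Real.exp 1 * (s : ℝ) ^ 2 / (η ^ 3 * m ^ 3) := by field_simp; ring
        _ ≤ 128 * Real.exp 1 * (4 * η * m ^ 2) / (η ^ 3 * m ^ 3) := by gcongr
        _ = _ := by field_simp; ring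
    have h1 : (G2.card : ℝ) ≤ ∑ A ∈ P, ∑ A₁ ∈ A.powerset.filter (fun A₁ => A₁.card ≤ s),
        ((P.filter (fun B : Finset X => s' ≤ (B ∩ Z' A₁).card)).card : ℝ) := by
      have : G2.card ≤ ∑ A ∈ P, ∑ A₁ ∈ A.powerset.filter (fun A₁ => A₁.card ≤ s),
        (P.filter (fun B : Finset X => s' ≤ (B ∩ Z' A₁).card)).card := by
        refine Finset.card_biUnion_le.trans (Finset.sum_le_sum fun A _ => ?_)
        refine Finset.card_biUnion_le.trans (Finset.sum_le_sum fun A₁ _ => ?_)
        rw [Finset.card_product, Finset.card_singleton, one_mul]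
      exact_mod_cast this
    refine h1.trans ?_
    have h2 : ∀ A ∈ P, ((A.powerset.filter (fun A₁ => A₁.card ≤ s)).card : ℝ) ≤
        (Real.exp 1 * m / s) ^ s := by
      intro A hA
      have hAc := (Finset.mem_powersetCard.1 hA).2
      refine le_trans ?_ (sum_choose_le_exp m s hs1 hsm)
      have h3 : (A.powerset.filter (fun A₁ => A₁.card ≤ s)) ⊆
          (Finset.range (s + 1)).biUnion (fun j => A.powersetCard j) := by
        intro A₁ hA₁
        rw [Finset.mem_filter, Finset.mem_powerset] at hA₁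
        rw [Finset.mem_biUnion]
        exact ⟨A₁.card, Finset.mem_range.2 (by omega), Finset.mem_powersetCard.2 ⟨hA₁.1, rfl⟩⟩
      have h4 := (Finset.card_le_card h3).trans Finset.card_biUnion_le
      simp only [Finset.card_powersetCard, hAc] at h4
      exact_mod_cast h4
    calc ∑ A ∈ P, ∑ A₁ ∈ A.powerset.filter (fun A₁ => A₁.card ≤ s),
        ((P.filter (fun B : Finset X => s' ≤ (B ∩ Z' A₁).card)).card : ℝ)
        ≤ ∑ A ∈ P, ∑ A₁ ∈ A.powerset.filter (fun A₁ => A₁.card ≤ s),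
          ((N.choose m : ℝ) * (512 * Real.exp 1 / (η ^ 2 * m)) ^ s') := by
          refine Finset.sum_le_sum fun A _ => Finset.sum_le_sum fun A₁ hA₁ => ?_
          exact h0 A₁ (Finset.mem_filter.1 hA₁).2
      _ ≤ ∑ A ∈ P, (Real.exp 1 * m / s) ^ s *
          ((N.choose m : ℝ) * (512 * Real.exp 1 / (η ^ 2 * m)) ^ s') := by
          refine Finset.sum_le_sum fun A hA => ?_
          rw [Finset.sum_const, nsmul_eq_mul]
          exact mul_le_mul_of_nonneg_right (h2 A hA) (by positivity)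
      _ = _ := by
          rw [Finset.sum_const, nsmul_eq_mul, hP, Finset.card_powersetCard, Finset.card_univ]
          ring
  have hfin : ((((P ×ˢ P).filter
      (fun p : Finset X × Finset X => η * (m * m) ≤ ‖T K p.1 p.2‖)).card : ℝ)) ≤
      G1.card + G2.card := by
    have := (Finset.card_le_card hsub).trans (Finset.card_union_le _ _)
    exact_mod_cast this
  calc _ ≤ (G1.card : ℝ) + G2.card := hfin
    _ ≤ _ := by
        rw [mul_add]
        exact add_le_add hc1 hc2

end Pool.Agent.Q93.PG
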