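import Pool.Agent.Q93.PG.Sym
import Pool.Agent.Q93.PG.UpB

/-!
# Symmetric sums: reduction of the upper bound to pairs
-/

namespace Pool.Agent.Q93.PG

open Finset

variable {X : Type*} [Fintype X] [DecidableEq X]

omit [Fintype X] in
theorem card_mem_powersetCard (B : Finset X) (a : X) (ha : a ∈ B) (r : ℕ) (hr : 1 ≤ r) :
    ((B.powersetCard r).filter (fun C => a ∈ C)).card = (B.card - 1).choose (r - 1) := by
  rw [← Finset.card_erase_of_mem ha, ← Finset.card_powersetCard]
  refine Finset.card_bij' (fun C _ => C.erase a) (fun C _ => insert a C) ?_ ?_ ?_ ?_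
  · intro C hC
    rw [Finset.mem_filter, Finset.mem_powersetCard] at hC
    rw [Finset.mem_powersetCard]
    refine ⟨Finset.erase_subset_erase _ hC.1.1, ?_⟩
    rw [Finset.card_erase_of_mem hC.2, hC.1.2]
  · intro C hC
    rw [Finset.mem_powersetCard] at hC
    rw [Finset.mem_filter, Finset.mem_powersetCard]
    have haC : a ∉ C := fun h => (Finset.mem_erase.1 (hC.1 h)).1 rfl
    refine ⟨⟨?_, ?_⟩, Finset.mem_insert_self _ _⟩
    · intro x hx
      rcases Finset.mem_insert.1 hx with rfl | h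
      · exact ha
      · exact Finset.mem_of_mem_erase (hC.1 h)
    · rw [Finset.card_insert_of_notMem haC, hC.2]
      omega
  · intro C hC
    rw [Finset.mem_filter] at hC
    exact Finset.insert_erase hC.2
  · intro C hC
    rw [Finset.mem_powersetCard] at hC
    have haC : a ∉ C := fun h => (Finset.mem_erase.1 (hC.1 h)).1 rfl
    exact Finset.erase_insert haC

omit [Fintype X] in
theorem sum_powersetCard_sum (B : Finset X) (h : X → ℂ) (r : ℕ) (hr : 1 ≤ r) :
    ∑ D ∈ B.powersetCard r, ∑ b ∈ D, h b = ((B.card - 1).choose (r - 1) : ℂ) * ∑ b ∈ B, h b := by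
  have e : ∀ D ∈ B.powersetCard r, ∑ b ∈ D, h b = ∑ b ∈ B, if b ∈ D then h b else 0 := by
    intro D hD
    rw [← Finset.sum_filter]
    congr 1
    ext x
    rw [Finset.mem_filter]
    exact ⟨fun hx => ⟨(Finset.mem_powersetCard.1 hD).1 hx, hx⟩, fun hx => hx.2⟩
  rw [Finset.sum_congr rfl e, Finset.sum_comm, Finset.mul_sum]
  refine Finset.sum_congr rfl fun b hb => ?_
  rw [← Finset.sum_filter, Finset.sum_const, card_mem_powersetCard B b hb r hr, nsmul_eq_mul]

omit [Fintype X] in
theorem sum_powersetCard_cross (K : X → X → ℂ) (hd : ∀ x, K x x = 0) (A : Finset X) (r : ℕ)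
    (hr : 1 ≤ r) :
    ∑ C ∈ A.powersetCard r, ∑ a ∈ C, ∑ b ∈ A \ C, K a b =
      ((A.card - 2).choose (r - 1) : ℂ) * ∑ a ∈ A, ∑ b ∈ A, K a b := by
  have e : ∀ C ∈ A.powersetCard r, ∑ a ∈ C, ∑ b ∈ A \ C, K a b =
      ∑ a ∈ A, ∑ b ∈ A, if (a ∈ C ∧ b ∉ C) then K a b else 0 := by
    intro C hC
    have hCA := (Finset.mem_powersetCard.1 hC).1
    have h1 : ∀ a ∈ C, ∑ b ∈ A \ C, K a b = ∑ b ∈ A, if (a ∈ C ∧ b ∉ C) then K a b else 0 := by
      intro a ha
      simp only [ha, true_and]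
      rw [← Finset.sum_filter]
      congr 1
      ext x
      rw [Finset.mem_filter, Finset.mem_sdiff]
    rw [Finset.sum_congr rfl h1]
    refine Finset.sum_subset hCA fun a _ ha => ?_
    refine Finset.sum_eq_zero fun b _ => ?_
    rw [if_neg]
    exact fun h => ha h.1
  rw [Finset.sum_congr rfl e, Finset.sum_comm, Finset.mul_sum]
  refine Finset.sum_congr rfl fun a ha => ?_
  rw [Finset.sum_comm, Finset.mul_sum]
  refine Finset.sum_congr rfl fun b hb => ?_
  by_cases hab : a = b
  · subst hab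
    rw [hd, mul_zero]
    refine Finset.sum_eq_zero fun C _ => ?_
    rw [if_neg]
    exact fun h => h.2 h.1
  · rw [← Finset.sum_filter, Finset.sum_const, nsmul_eq_mul]
    congr 2
    have : (A.powersetCard r).filter (fun C => a ∈ C ∧ b ∉ C) =
        ((A.erase b).powersetCard r).filter (fun C => a ∈ C) := by
      ext C
      simp only [Finset.mem_filter, Finset.mem_powersetCard]
      constructor
      · rintro ⟨⟨h1, h2⟩, h3, h4⟩
        exact ⟨⟨fun x hx => Finset.mem_erase.2 ⟨fun h => h4 (h ▸ hx), h1 hx⟩, h2⟩, h3⟩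
      · rintro ⟨⟨h1, h2⟩, h3⟩
        exact ⟨⟨fun x hx => Finset.mem_of_mem_erase (h1 hx), h2⟩, h3,
          fun h => (Finset.mem_erase.1 (h1 h)).1 rfl⟩
    rw [this, card_mem_powersetCard _ a (Finset.mem_erase.2 ⟨hab, ha⟩) r hr,
      Finset.card_erase_of_mem hb]
    congr 1

/-- ordered pairs of disjoint `r`-subsets of `A` -/
def Pr (A : Finset X) (r : ℕ) : Finset (Σ _ : Finset X, Finset X) :=
  (A.powersetCard r).sigma fun C => (A \ C).powersetCard r

omit [Fintype X] in
theorem card_Pr (A : Finset X) (r : ℕ) :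
    (Pr A r).card = A.card.choose r * (A.card - r).choose r := by
  unfold Pr
  rw [Finset.card_sigma]
  have e : ∀ C ∈ A.powersetCard r, ((A \ C).powersetCard r).card = (A.card - r).choose r := by
    intro C hC
    rw [Finset.mem_powersetCard] at hC
    rw [Finset.card_powersetCard, Finset.card_sdiff_of_subset hC.1, hC.2]
  rw [Finset.sum_congr rfl e, Finset.sum_const, Finset.card_powersetCard, smul_eq_mul]

omit [Fintype X] in
theorem sum_Pr (K : X → X → ℂ) (hd : ∀ x, K x x = 0) (A : Finset X) (r : ℕ) (hr : 1 ≤ r) :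
    ∑ x ∈ Pr A r, T K x.1 x.2 =
      ((A.card - r - 1).choose (r - 1) : ℂ) * ((A.card - 2).choose (r - 1) : ℂ) * T K A A := by
  unfold Pr
  rw [Finset.sum_sigma]
  have e : ∀ C ∈ A.powersetCard r, ∑ D ∈ (A \ C).powersetCard r, T K C D =
      ((A.card - r - 1).choose (r - 1) : ℂ) * ∑ a ∈ C, ∑ b ∈ A \ C, K a b := by
    intro C hC
    rw [Finset.mem_powersetCard] at hC
    have h1 : ∀ D : Finset X, T K C D = ∑ b ∈ D, ∑ a ∈ C, K a b := fun D => by
      unfold T; rw [Finset.sum_comm]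
    simp only [h1]
    rw [sum_powersetCard_sum _ _ r hr, Finset.card_sdiff_of_subset hC.1, hC.2, Finset.sum_comm]
  rw [Finset.sum_congr rfl e, ← Finset.mul_sum, sum_powersetCard_cross K hd A r hr, mul_assoc]
  rfl

theorem choose_ident (m r : ℕ) (hr : 1 ≤ r) (h : r + 1 ≤ m) :
    r ^ 2 * (m.choose r * (m - r).choose r) =
      m * (m - 1) * ((m - r - 1).choose (r - 1) * (m - 2).choose (r - 1)) := by
  obtain ⟨s, rfl⟩ := Nat.exists_eq_add_of_le' hr
  obtain ⟨t, rfl⟩ := Nat.exists_eq_add_of_le' h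
  -- m = t + (s + 1 + 1), r = s + 1
  have h1 := Nat.add_one_mul_choose_eq (t + s + 1) s
  have h2 := Nat.add_one_mul_choose_eq t s
  have h3 : (t + s + 1).choose s * (t + 1) = (t + s + 1) * (t + s).choose s := by
    have := Nat.choose_mul_succ_eq (t + s) s
    have e : t + s + 1 - s = t + 1 := by omega
    rw [e] at this
    rw [← this]
    ring
  have e1 : t + (s + 1 + 1) = t + s + 1 + 1 := by ring
  have e2 : t + (s + 1 + 1) - (s + 1) = t + 1 := by omega
  have e3 : t + (s + 1 + 1) - 1 = t + s + 1 := by omega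
  have e4 : t + (s + 1 + 1) - 2 = t + s := by omega
  have e5 : s + 1 - 1 = s := by omega
  have e6 : t + 1 - 1 = t := by omega
  rw [e2, e3, e4, e5, e6, e1]
  calc (s + 1) ^ 2 * ((t + s + 1 + 1).choose (s + 1) * (t + 1).choose (s + 1)) =
      ((t + s + 1 + 1).choose (s + 1) * (s + 1)) * ((t + 1).choose (s + 1) * (s + 1)) := by ring
    _ = ((t + s + 1 + 1) * (t + s + 1).choose s) * ((t + 1) * t.choose s) := by rw [h1, h2]
    _ = (t + s + 1 + 1) * ((t + s + 1).choose s * (t + 1)) * t.choose s := by ring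
    _ = (t + s + 1 + 1) * ((t + s + 1) * (t + s).choose s) * t.choose s := by rw [h3]
    _ = _ := by ring

open scoped Classical in
omit [Fintype X] in
/-- a bad set contains many bad disjoint pairs -/
theorem bad_pairs_in (K : X → X → ℂ) (hK : ∀ x y, ‖K x y‖ ≤ 1) (hd : ∀ x, K x x = 0)
    (A : Finset X) (r : ℕ) (hr : 1 ≤ r) (hm : r + 1 ≤ A.card) (η : ℝ) (hη : 0 ≤ η)
    (hbad : η * ((A.card : ℝ) * A.card) ≤ ‖T K A A‖) :
    η / 2 * (A.card.choose r * (A.card - r).choose r : ℕ) ≤
      ((Pr A r).filter (fun x => η / 2 * ((r : ℝ) * r) ≤ ‖T K x.1 x.2‖)).card := by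
  set m := A.card with hmdef
  have hr0 : (0 : ℝ) < r := by exact_mod_cast hr
  have h1 := sum_Pr K hd A r hr
  have h2 : ((m - r - 1).choose (r - 1) : ℝ) * ((m - 2).choose (r - 1) : ℝ) * ‖T K A A‖ ≤
      ∑ x ∈ Pr A r, ‖T K x.1 x.2‖ := by
    have : ‖∑ x ∈ Pr A r, T K x.1 x.2‖ =
        ((m - r - 1).choose (r - 1) : ℝ) * ((m - 2).choose (r - 1) : ℝ) * ‖T K A A‖ := by
      rw [h1, norm_mul, norm_mul, Complex.norm_natCast, Complex.norm_natCast]
    rw [← this]
    exact norm_sum_le _ _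
  have hid := choose_ident m r hr hm
  have h3 : (η * (r : ℝ) ^ 2) * ((m.choose r * (m - r).choose r : ℕ) : ℝ) ≤
      ((m - r - 1).choose (r - 1) : ℝ) * ((m - 2).choose (r - 1) : ℝ) * ‖T K A A‖ := by
    have hidR : (r : ℝ) ^ 2 * ((m.choose r * (m - r).choose r : ℕ) : ℝ) =
        (m : ℝ) * ((m - 1 : ℕ) : ℝ) *
          (((m - r - 1).choose (r - 1) : ℝ) * ((m - 2).choose (r - 1) : ℝ)) := by
      exact_mod_cast hid
    have hm1 : ((m - 1 : ℕ) : ℝ) ≤ m := by exact_mod_cast Nat.sub_le _ _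
    calc (η * (r : ℝ) ^ 2) * ((m.choose r * (m - r).choose r : ℕ) : ℝ) =
        η * ((r : ℝ) ^ 2 * ((m.choose r * (m - r).choose r : ℕ) : ℝ)) := by ring
      _ = η * ((m : ℝ) * ((m - 1 : ℕ) : ℝ) *
          (((m - r - 1).choose (r - 1) : ℝ) * ((m - 2).choose (r - 1) : ℝ))) := by rw [hidR]
      _ ≤ η * ((m : ℝ) * m *
          (((m - r - 1).choose (r - 1) : ℝ) * ((m - 2).choose (r - 1) : ℝ))) := by gcongr
      _ = ((m - r - 1).choose (r - 1) : ℝ) * ((m - 2).choose (r - 1) : ℝ) *
          (η * ((m : ℝ) * m)) := by ring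
      _ ≤ _ := by gcongr
  set F := (Pr A r).filter (fun x => η / 2 * ((r : ℝ) * r) ≤ ‖T K x.1 x.2‖) with hF
  have h4 : ∑ x ∈ Pr A r, ‖T K x.1 x.2‖ ≤
      F.card * ((r : ℝ) * r) + (Pr A r).card * (η / 2 * ((r : ℝ) * r)) := by
    rw [← Finset.sum_filter_add_sum_filter_not (Pr A r)
      (fun x => η / 2 * ((r : ℝ) * r) ≤ ‖T K x.1 x.2‖)]
    refine add_le_add ?_ ?_
    · refine (Finset.sum_le_sum (g := fun _ => (r : ℝ) * r) fun x hx => ?_).trans ?_
      · rw [Finset.mem_filter, Pr, Finset.mem_sigma, Finset.mem_powersetCard,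
          Finset.mem_powersetCard] at hx
        refine (norm_T_le_card K hK _ _).trans ?_
        rw [hx.1.1.2, hx.1.2.2]
      · rw [Finset.sum_const, nsmul_eq_mul]
    · refine (Finset.sum_le_sum (g := fun _ => η / 2 * ((r : ℝ) * r)) fun x hx => ?_).trans ?_
      · rw [Finset.mem_filter] at hx
        exact (not_le.1 hx.2).le
      · rw [Finset.sum_const, nsmul_eq_mul]
        refine mul_le_mul_of_nonneg_right ?_ (by positivity)
        exact_mod_cast Finset.card_filter_le _ _
  rw [card_Pr] at h4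
  have h5 : ((r : ℝ) * r) * (η / 2 * ((m.choose r * (m - r).choose r : ℕ) : ℝ)) ≤
      ((r : ℝ) * r) * F.card := by
    have h6 := (h3.trans h2).trans h4
    nlinarith
  exact le_of_mul_le_mul_left h5 (by positivity)

open scoped Classical in
/-- **Reduction of the symmetric count to pairs.** -/
theorem symm_pairs (K : X → X → ℂ) (hK : ∀ x y, ‖K x y‖ ≤ 1) (hd : ∀ x, K x x = 0)
    (m r : ℕ) (hr : 1 ≤ r) (h2r : 2 * r ≤ m) (hm : m ≤ 2 * r + 1) (hX : 1 ≤ Fintype.card X)
    (η : ℝ) (hη : 0 ≤ η) :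
    (((Finset.univ.powersetCard m).filter
      (fun A : Finset X => η * ((m : ℝ) * m) ≤ ‖T K A A‖)).card : ℝ) *
        (η / 2 * (m.choose r * (m - r).choose r : ℕ)) ≤
      Fintype.card X *
        ((((Finset.univ.powersetCard r) ×ˢ (Finset.univ.powersetCard r)).filter
          (fun p : Finset X × Finset X => η / 2 * ((r : ℝ) * r) ≤ ‖T K p.1 p.2‖)).card : ℝ) := by
  set B := (Finset.univ.powersetCard m).filter
      (fun A : Finset X => η * ((m : ℝ) * m) ≤ ‖T K A A‖) with hB
  set BP := ((Finset.univ.powersetCard r) ×ˢ (Finset.univ.powersetCard r)).filter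
          (fun p : Finset X × Finset X => η / 2 * ((r : ℝ) * r) ≤ ‖T K p.1 p.2‖) with hBP
  set F : Finset X → Finset (Σ _ : Finset X, Finset X) := fun A =>
    (Pr A r).filter (fun x => η / 2 * ((r : ℝ) * r) ≤ ‖T K x.1 x.2‖) with hF
  set W := B.sigma F with hW
  have hmem : ∀ w ∈ W, w.1.card = m ∧ w.2.1 ⊆ w.1 ∧ w.2.1.card = r ∧ w.2.2 ⊆ w.1 \ w.2.1 ∧
      w.2.2.card = r ∧ η / 2 * ((r : ℝ) * r) ≤ ‖T K w.2.1 w.2.2‖ := by
    intro w hw
    rw [hW, Finset.mem_sigma, hB, Finset.mem_filter, Finset.mem_powersetCard] at hw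
    have h2 := hw.2
    simp only [hF] at h2
    rw [Finset.mem_filter, Pr, Finset.mem_sigma, Finset.mem_powersetCard,
      Finset.mem_powersetCard] at h2
    exact ⟨hw.1.1.2, h2.1.1.1, h2.1.1.2, h2.1.2.1, h2.1.2.2, h2.2⟩
  have hlow : (B.card : ℝ) * (η / 2 * (m.choose r * (m - r).choose r : ℕ)) ≤ W.card := by
    rw [hW, Finset.card_sigma]
    push_cast
    rw [← nsmul_eq_mul, ← Finset.sum_const]
    refine Finset.sum_le_sum fun A hA => ?_
    rw [hB, Finset.mem_filter, Finset.mem_powersetCard] at hA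
    have := bad_pairs_in K hK hd A r hr (by rw [hA.1.2]; omega) η hη
      (by rw [hA.1.2]; exact hA.2)
    rw [hA.1.2] at this
    push_cast at this
    exact this
  have hup : W.card ≤ Fintype.card X * BP.card := by
    have himg : (W.image (fun w => (w.2.1, w.2.2))) ⊆ BP := by
      intro q hq
      rw [Finset.mem_image] at hq
      obtain ⟨w, hw, rfl⟩ := hq
      obtain ⟨-, -, h3, -, h5, h6⟩ := hmem w hw
      rw [hBP, Finset.mem_filter, Finset.mem_product, Finset.mem_powersetCard,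
        Finset.mem_powersetCard]
      exact ⟨⟨⟨Finset.subset_univ _, h3⟩, ⟨Finset.subset_univ _, h5⟩⟩, h6⟩
    refine (Finset.card_le_mul_card_image (f := fun w => (w.2.1, w.2.2)) W
      (Fintype.card X) ?_).trans (Nat.mul_le_mul_left _ (Finset.card_le_card himg))
    intro q hq
    have hle : ((W.filter (fun w => (w.2.1, w.2.2) = q)).card) ≤
        ((Finset.univ : Finset X).powersetCard (m - 2 * r)).card := by
      apply Finset.card_le_card_of_injOn (fun w => w.1 \ (q.1 ∪ q.2))
      · intro w hw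
        rw [Finset.mem_coe, Finset.mem_filter] at hw
        obtain ⟨h1, h2, h3, h4, h5, -⟩ := hmem w hw.1
        have hq1 : w.2.1 = q.1 := congrArg Prod.fst hw.2
        have hq2 : w.2.2 = q.2 := congrArg Prod.snd hw.2
        rw [← hq1, ← hq2]
        rw [Finset.mem_coe, Finset.mem_powersetCard]
        refine ⟨Finset.subset_univ _, ?_⟩
        have hsub : w.2.1 ∪ w.2.2 ⊆ w.1 :=
          Finset.union_subset h2 (h4.trans Finset.sdiff_subset)
        have hdis : Disjoint w.2.1 w.2.2 :=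
          Finset.disjoint_of_subset_right h4 Finset.disjoint_sdiff
        rw [Finset.card_sdiff_of_subset hsub, Finset.card_union_of_disjoint hdis, h1, h3, h5]
        omega
      · intro w hw w' hw' heq
        rw [Finset.mem_coe, Finset.mem_filter] at hw hw'
        obtain ⟨h1, h2, h3, h4, h5, -⟩ := hmem w hw.1
        obtain ⟨h1', h2', h3', h4', h5', -⟩ := hmem w' hw'.1
        have hq1 : w.2.1 = q.1 := congrArg Prod.fst hw.2
        have hq2 : w.2.2 = q.2 := congrArg Prod.snd hw.2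
        have hq1' : w'.2.1 = q.1 := congrArg Prod.fst hw'.2
        have hq2' : w'.2.2 = q.2 := congrArg Prod.snd hw'.2
        have hsub : q.1 ∪ q.2 ⊆ w.1 := by
          rw [← hq1, ← hq2]
          exact Finset.union_subset h2 (h4.trans Finset.sdiff_subset)
        have hsub' : q.1 ∪ q.2 ⊆ w'.1 := by
          rw [← hq1', ← hq2']
          exact Finset.union_subset h2' (h4'.trans Finset.sdiff_subset)
        have heq' : w.1 \ (q.1 ∪ q.2) = w'.1 \ (q.1 ∪ q.2) := heq
        have hA : w.1 = w'.1 := by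
          rw [← Finset.sdiff_union_of_subset hsub, ← Finset.sdiff_union_of_subset hsub', heq']
        have h21 : w.2.1 = w'.2.1 := by rw [hq1, hq1']
        have h22 : w.2.2 = w'.2.2 := by rw [hq2, hq2']
        obtain ⟨A, C, D⟩ := w
        obtain ⟨A', C', D'⟩ := w'
        simp only at hA h21 h22
        subst hA h21 h22
        rfl
    refine hle.trans ?_
    rw [Finset.card_powersetCard, Finset.card_univ]
    have : m - 2 * r = 0 ∨ m - 2 * r = 1 := by omega
    rcases this with h | h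
    · rw [h, Nat.choose_zero_right]; exact hX
    · rw [h, Nat.choose_one_right]
  refine hlow.trans ?_
  exact_mod_cast hup

end Pool.Agent.Q93.PG
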