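import Pool.Agent.Q93.PG.Bil

/-!
# Upper bounds for the number of bad sets
-/

namespace Pool.Agent.Q93.PG

open Finset

theorem descFactorial_ratio (z N r : ℕ) (hz : z ≤ N) :
    z.descFactorial r * N ^ r ≤ N.descFactorial r * z ^ r := by
  induction r with
  | zero => simp
  | succ r ih =>
    rw [Nat.descFactorial_succ, Nat.descFactorial_succ, pow_succ, pow_succ]
    have h : (z - r) * N ≤ (N - r) * z := by
      rcases Nat.lt_or_ge z r with h | h
      · have : z - r = 0 := by omega
        rw [this]; simp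
      · obtain ⟨a, rfl⟩ := Nat.exists_eq_add_of_le h
        obtain ⟨b, rfl⟩ := Nat.exists_eq_add_of_le (h.trans hz)
        have e1 : r + a - r = a := by omega
        have e2 : r + b - r = b := by omega
        rw [e1, e2]
        have hab : a ≤ b := by omega
        nlinarith
    calc (z - r) * z.descFactorial r * (N ^ r * N) =
        ((z - r) * N) * (z.descFactorial r * N ^ r) := by ring
      _ ≤ ((N - r) * z) * (N.descFactorial r * z ^ r) := Nat.mul_le_mul h ih
      _ = _ := by ring

theorem choose_ratio (z N r : ℕ) (hz : z ≤ N) :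
    z.choose r * N ^ r ≤ N.choose r * z ^ r := by
  have h := descFactorial_ratio z N r hz
  rw [Nat.descFactorial_eq_factorial_mul_choose, Nat.descFactorial_eq_factorial_mul_choose] at h
  have hr := Nat.factorial_pos r
  rw [mul_assoc, mul_assoc] at h
  exact Nat.le_of_mul_le_mul_left h hr

/-- `C(m,r) ≤ (e m / r)^r` -/
theorem choose_le_exp (m r : ℕ) (hr : 1 ≤ r) :
    (m.choose r : ℝ) ≤ (Real.exp 1 * m / r) ^ r := by
  have hr0 : (0 : ℝ) < r := by exact_mod_cast hr
  have h1 : (m.choose r : ℝ) ≤ (m : ℝ) ^ r / (r.factorial : ℝ) := by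
    exact_mod_cast Nat.choose_le_pow_div r m
  have h2 : (r : ℝ) ^ r / (r.factorial : ℝ) ≤ Real.exp r :=
    Real.pow_div_factorial_le_exp r hr0.le r
  have h3 : (Real.exp 1 * m / r) ^ r = ((m : ℝ) / r) ^ r * Real.exp r := by
    have : Real.exp (r : ℝ) = (Real.exp 1) ^ r := by
      rw [← Real.exp_nat_mul]; simp
    rw [this, ← mul_pow]
    congr 1
    field_simp
  rw [h3]
  calc (m.choose r : ℝ) ≤ (m : ℝ) ^ r / (r.factorial : ℝ) := h1
    _ = ((m : ℝ) / r) ^ r * ((r : ℝ) ^ r / (r.factorial : ℝ)) := by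
        rw [div_pow]; field_simp
    _ ≤ _ := mul_le_mul_of_nonneg_left h2 (by positivity)

/-- `∑_{j ≤ s} C(m,j) ≤ (e m / s)^s` -/
theorem sum_choose_le_exp (m s : ℕ) (hs : 1 ≤ s) (hsm : s ≤ m) :
    ∑ j ∈ Finset.range (s + 1), (m.choose j : ℝ) ≤ (Real.exp 1 * m / s) ^ s := by
  have hs0 : (0 : ℝ) < s := by exact_mod_cast hs
  have hm0 : (0 : ℝ) < m := by exact_mod_cast (lt_of_lt_of_le hs hsm)
  set x : ℝ := (s : ℝ) / m with hx
  have hx0 : 0 < x := by positivity
  have hx1 : x ≤ 1 := by
    rw [hx, div_le_one hm0]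
    exact_mod_cast hsm
  have h1 : x ^ s * ∑ j ∈ Finset.range (s + 1), (m.choose j : ℝ) ≤ (1 + x) ^ m := by
    rw [Finset.mul_sum]
    calc ∑ j ∈ Finset.range (s + 1), x ^ s * (m.choose j : ℝ)
        ≤ ∑ j ∈ Finset.range (s + 1), x ^ j * (m.choose j : ℝ) := by
          refine Finset.sum_le_sum fun j hj => ?_
          exact mul_le_mul_of_nonneg_right
            (pow_le_pow_of_le_one hx0.le hx1 (Nat.lt_succ_iff.1 (Finset.mem_range.1 hj)))
            (by positivity)
      _ ≤ ∑ j ∈ Finset.range (m + 1), x ^ j * (m.choose j : ℝ) := by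
          refine Finset.sum_le_sum_of_subset_of_nonneg ?_ fun _ _ _ => by positivity
          exact Finset.range_mono (by omega)
      _ = (1 + x) ^ m := by
          rw [add_comm 1 x, add_pow]
          refine Finset.sum_congr rfl fun j _ => ?_
          simp
  have h2 : (1 + x) ^ m ≤ Real.exp s := by
    have h3 : 1 + x ≤ Real.exp x := by
      have := Real.add_one_le_exp x
      linarith
    calc (1 + x) ^ m ≤ (Real.exp x) ^ m := pow_le_pow_left₀ (by positivity) h3 m
      _ = Real.exp s := by
          rw [← Real.exp_nat_mul]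
          congr 1
          rw [hx]; field_simp
  have h3 : (Real.exp 1 * m / s) ^ s = Real.exp s / x ^ s := by
    have : Real.exp (s : ℝ) = (Real.exp 1) ^ s := by
      rw [← Real.exp_nat_mul]; simp
    rw [this, ← div_pow]
    congr 1
    rw [hx]; field_simp
  rw [h3, le_div_iff₀ (by positivity)]
  linarith

variable {X : Type*} [Fintype X] [DecidableEq X]

open scoped Classical in
/-- number of `m`-sets meeting `Z` in at least `r` points -/
theorem card_meet (Z : Finset X) (m r : ℕ) (hr : 1 ≤ r) (hrm : r ≤ m)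
    (hm : m ≤ Fintype.card X) :
    (((Finset.univ.powersetCard m).filter (fun A : Finset X => r ≤ (A ∩ Z).card)).card : ℝ) ≤
      (Fintype.card X).choose m *
        (Real.exp 1 * m * Z.card / (r * Fintype.card X)) ^ r := by
  set N := Fintype.card X with hN
  have hN0 : (0 : ℝ) < N := by
    have : 0 < N := by omega
    exact_mod_cast this
  have h1 : ((Finset.univ.powersetCard m).filter (fun A : Finset X => r ≤ (A ∩ Z).card)) ⊆
      (Z.powersetCard r).biUnion (fun R => (Finset.univ.powersetCard m).filter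
        (fun A : Finset X => R ⊆ A)) := by
    intro A hA
    rw [Finset.mem_filter] at hA
    obtain ⟨R, hR, hRc⟩ := Finset.exists_subset_card_eq hA.2
    rw [Finset.mem_biUnion]
    refine ⟨R, Finset.mem_powersetCard.2 ⟨hR.trans Finset.inter_subset_right, hRc⟩, ?_⟩
    exact Finset.mem_filter.2 ⟨hA.1, hR.trans Finset.inter_subset_left⟩
  have h2 : ∀ R ∈ Z.powersetCard r, ((Finset.univ.powersetCard m).filter
        (fun A : Finset X => R ⊆ A)).card ≤ (N - r).choose (m - r) := by
    intro R hR
    have hRc := (Finset.mem_powersetCard.1 hR).2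
    have : (N - r).choose (m - r) = ((Rᶜ).powersetCard (m - r)).card := by
      rw [Finset.card_powersetCard, Finset.card_compl, hRc]
    rw [this]
    apply Finset.card_le_card_of_injOn (fun A => A \ R)
    · intro A hA
      have hA := Finset.mem_filter.1 hA
      rw [Finset.mem_coe, Finset.mem_powersetCard]
      refine ⟨fun x hx => ?_, ?_⟩
      · rw [Finset.mem_compl]
        exact (Finset.mem_sdiff.1 hx).2
      · rw [Finset.card_sdiff_of_subset hA.2, (Finset.mem_powersetCard.1 hA.1).2, hRc]
    · intro A hA B hB hAB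
      have hA := (Finset.mem_filter.1 hA).2
      have hB := (Finset.mem_filter.1 hB).2
      have hAB' : A \ R = B \ R := hAB
      rw [← Finset.sdiff_union_of_subset hA, ← Finset.sdiff_union_of_subset hB, hAB']
  have h3 : ((Finset.univ.powersetCard m).filter
      (fun A : Finset X => r ≤ (A ∩ Z).card)).card ≤ Z.card.choose r * (N - r).choose (m - r) := by
    refine (Finset.card_le_card h1).trans (Finset.card_biUnion_le.trans ?_)
    refine (Finset.sum_le_sum h2).trans (le_of_eq ?_)
    rw [Finset.sum_const, Finset.card_powersetCard, smul_eq_mul]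
  have h4 : N.choose m * m.choose r = N.choose r * (N - r).choose (m - r) :=
    Nat.choose_mul hrm
  have hzN : Z.card ≤ N := Finset.card_le_univ Z
  have h5 := choose_ratio Z.card N r hzN
  have h6 : (Z.card.choose r * (N - r).choose (m - r)) * N ^ r ≤
      N.choose m * (m.choose r * Z.card ^ r) := by
    calc (Z.card.choose r * (N - r).choose (m - r)) * N ^ r =
        (Z.card.choose r * N ^ r) * (N - r).choose (m - r) := by ring
      _ ≤ (N.choose r * Z.card ^ r) * (N - r).choose (m - r) := Nat.mul_le_mul_right _ h5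
      _ = (N.choose r * (N - r).choose (m - r)) * Z.card ^ r := by ring
      _ = (N.choose m * m.choose r) * Z.card ^ r := by rw [h4]
      _ = _ := by ring
  have h7 : (((Finset.univ.powersetCard m).filter
      (fun A : Finset X => r ≤ (A ∩ Z).card)).card : ℝ) * (N : ℝ) ^ r ≤
      (N.choose m : ℝ) * ((m.choose r : ℝ) * (Z.card : ℝ) ^ r) := by
    have := (Nat.mul_le_mul_right (N ^ r) h3).trans h6
    exact_mod_cast this
  have h8 : (m.choose r : ℝ) * (Z.card : ℝ) ^ r ≤
      (Real.exp 1 * m * Z.card / (r * N)) ^ r * (N : ℝ) ^ r := by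
    have hr0 : (0 : ℝ) < r := by exact_mod_cast hr
    calc (m.choose r : ℝ) * (Z.card : ℝ) ^ r ≤ (Real.exp 1 * m / r) ^ r * (Z.card : ℝ) ^ r :=
          mul_le_mul_of_nonneg_right (choose_le_exp m r hr) (by positivity)
      _ = (Real.exp 1 * m * Z.card / (r * N)) ^ r * (N : ℝ) ^ r := by
          rw [← mul_pow, ← mul_pow]
          congr 1
          field_simp
  have hNr : (0 : ℝ) < (N : ℝ) ^ r := by positivity
  refine le_of_mul_le_mul_right ?_ hNr
  calc _ ≤ (N.choose m : ℝ) * ((m.choose r : ℝ) * (Z.card : ℝ) ^ r) := h7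
    _ ≤ (N.choose m : ℝ) * ((Real.exp 1 * m * Z.card / (r * N)) ^ r * (N : ℝ) ^ r) :=
        mul_le_mul_of_nonneg_left h8 (by positivity)
    _ = _ := by ring

/-- the level sets of a function with small second moment are small -/
theorem level_card (f : X → ℂ) (V S : ℝ) (hV : 0 < V) (hS : ∑ x, ‖f x‖ ^ 2 ≤ S) :
    ((Finset.univ.filter (fun x => V ≤ ‖f x‖)).card : ℝ) ≤ S / V ^ 2 := by
  rw [le_div_iff₀ (by positivity)]
  calc ((Finset.univ.filter (fun x => V ≤ ‖f x‖)).card : ℝ) * V ^ 2 =
      ∑ _x ∈ Finset.univ.filter (fun x => V ≤ ‖f x‖), V ^ 2 := by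
        rw [Finset.sum_const, nsmul_eq_mul]
    _ ≤ ∑ x ∈ Finset.univ.filter (fun x => V ≤ ‖f x‖), ‖f x‖ ^ 2 :=
        Finset.sum_le_sum fun x hx => pow_le_pow_left₀ hV.le (Finset.mem_filter.1 hx).2 2
    _ ≤ ∑ x, ‖f x‖ ^ 2 := Finset.sum_le_sum_of_subset_of_nonneg (Finset.filter_subset _ _)
        fun _ _ _ => by positivity
    _ ≤ S := hS

end Pool.Agent.Q93.PG
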